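import Pool.Agent.Lib.MP_609849_pr.MDef

/-! Row A2. Basic facts about the graph.

`neighborSet x = range (nbr x)`, so it has 5 elements (`nbr_inj`). Connected: every vertex is reachable from `rt = r 0`.
First `r v` from `r 0` and `b u l v` from `b u l 0` inside one copy (induction on the coordinates: steps `e 0`, `e 2` change
the first coordinate by `± 1`, `e 1`, `e 4` the second). Then induction on the list `l`: `b u [] 0` is `nbr (r u) 3`,
`b u (w :: l) 0` is `nbr (b u l w) 3` (`nbr_b_three`, `w.2 : w ≠ 0`). `Vtx` is countable (injection into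
`Pos ⊕ (Pos × List NZ × Pos)`) and infinite (`r` is injective). -/

namespace Pool.Agent.Lib.MP_609849_pr

instance : Countable Vtx := by
  let f : Vtx → Pos ⊕ (Pos × List NZ × Pos) := fun x => match x with
    | .r v => Sum.inl v
    | .b u l v => Sum.inr (u, l, v)
  have hf : Function.Injective f := by
    intro x y h
    rcases x with v | ⟨u, l, v⟩ <;> rcases y with v' | ⟨u', l', v'⟩ <;> simp_all [f]
  exact hf.countable

instance : Infinite Vtx := by
  have : Function.Injective Vtx.r := fun v w h => by injection h
  exact Infinite.of_injective _ this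

theorem neighborSet_eq (x : Vtx) : gr.neighborSet x = Set.range (nbr x) := by
  ext y
  constructor
  · rintro ⟨j, rfl⟩
    exact ⟨j, rfl⟩
  · rintro ⟨j, rfl⟩
    exact ⟨j, rfl⟩

theorem deg_eq (x : Vtx) : deg gr x = 5 := by
  unfold deg
  rw [neighborSet_eq, ← Set.image_univ, Set.ncard_image_of_injective _ (nbr_inj x), Set.ncard_univ]
  simp

/-- steps inside a grid generate everything -/
theorem pos_induction {q : Pos → Prop} (h0 : q 0) (hs : ∀ v j, j ≠ (3 : Fin 5) → q v → q (v + e j)) (v : Pos) : q v := by
  have h1 : ∀ n : ℤ, q (n, 0) := by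
    intro n
    induction n using Int.induction_on with
    | zero => exact h0
    | succ n ih => simpa [e] using hs _ 0 (by decide) ih
    | pred n ih => simpa [e, sub_eq_add_neg] using hs _ 2 (by decide) ih
  rcases v with ⟨n, m⟩
  induction m using Int.induction_on with
  | zero => exact h1 n
  | succ m ih => simpa [e] using hs _ 1 (by decide) ih
  | pred m ih => simpa [e, sub_eq_add_neg] using hs _ 4 (by decide) ih

/-- induction along the edges, from the root -/
theorem vtx_induction {p : Vtx → Prop} (h0 : p rt) (hs : ∀ x j, p x → p (nbr x j)) (x : Vtx) : p x := by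
  have hr : ∀ v, p (.r v) := by
    intro v
    refine pos_induction (q := fun v => p (.r v)) h0 ?_ v
    intro v j hj h
    have := hs _ j h
    rwa [nbr_r _ hj] at this
  have hb : ∀ u l, p (.b u l 0) → ∀ v, p (.b u l v) := by
    intro u l h v
    refine pos_induction (q := fun v => p (.b u l v)) h ?_ v
    intro v j hj h
    have := hs _ j h
    rwa [nbr_b _ _ _ hj] at this
  have hl : ∀ u l, p (.b u l 0) := by
    intro u l
    induction l with
    | nil =>
      have := hs _ 3 (hr u)
      rwa [nbr_r_three] at this
    | cons w l ih =>
      have := hs _ 3 (hb u l ih w.1)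
      rwa [nbr_b_three _ _ _ w.2] at this
  rcases x with v | ⟨u, l, v⟩
  · exact hr v
  · exact hb u l (hl u l) v

theorem gr_connected : gr.Connected := by
  have h : ∀ x, gr.Reachable rt x := by
    intro x
    refine vtx_induction (SimpleGraph.Reachable.refl _) ?_ x
    intro x j h
    exact h.trans (adj_nbr x j).reachable
  exact { preconnected := fun x y => (h x).symm.trans (h y), nonempty := ⟨rt⟩ }

end Pool.Agent.Lib.MP_609849_pr
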