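import Pool.Agent.Lib.MP_609849_pr.A2

/-! Row A3. Automorphisms (left multiplications of the group `ℤ² * ℤ/2`).

Translations: `tr w (r v) = r (v + w)`, `tr w (b u l v) = b (u + w) l v`, inverse `tr (-w)`; `IsAut` by cases
(`j = 3` or not). The involution `ι`: `io (r v) = b 0 [] v`; `io (b u l v) = b 0 (l ++ [⟨u, h⟩]) v` if `h : u ≠ 0`;
`io (b 0 [] v) = r v`; `io (b 0 (l ++ [w]) v) = b w.1 l v` (use `List.reverseRecOn` / `l.getLast`, `l.dropLast`; maybe define
`io` with `l.reverse`: `match l.reverse with | [] => .r v | w :: l' => .b w.1 l'.reverse v`). It is an involution and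
commutes with `nbr`: for `j ≠ 3` clear; for `j = 3` distinguish `v = 0` or not and the shape of `l` (`[]`, `w :: l'`; note
`w :: l' = l ++ [w']` with `l = []` possible). Check: `io (r v) = b 0 [] v`, `nbr (b 0 [] v) 3 = b 0 [v] 0` if `v ≠ 0` and `r 0`
if `v = 0`; `io (nbr (r v) 3) = io (b v [] 0)` = the same.
`exists_aut`: `vtx_induction`: `σ = 1` for `rt`; if `σ rt = x`, then `σ ∘ L j` maps `rt` to `σ (nbr rt j) = nbr x j`, where
`L j = tr (e j)` (`j ≠ 3`), `L 3 = io` has `L j rt = nbr rt j`. -/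

namespace Pool.Agent.Lib.MP_609849_pr

/-- automorphisms of the map -/
def IsAut (σ : Vtx ≃ Vtx) : Prop := ∀ x j, σ (nbr x j) = nbr (σ x) j

theorem IsAut.mul {σ τ : Vtx ≃ Vtx} (hσ : IsAut σ) (hτ : IsAut τ) : IsAut (τ.trans σ) := by
  intro x j
  simp only [Equiv.trans_apply]
  rw [hτ, hσ]

theorem IsAut.symm {σ : Vtx ≃ Vtx} (hσ : IsAut σ) : IsAut σ.symm := by
  intro x j
  rw [Equiv.symm_apply_eq, hσ, Equiv.apply_symm_apply]

/-- translation -/
def trF (w : Pos) : Vtx → Vtx
  | .r v => .r (v + w)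
  | .b u l v => .b (u + w) l v

theorem trF_trF (w w' : Pos) (h : w + w' = 0) (x : Vtx) : trF w' (trF w x) = x := by
  rcases x with v | ⟨u, l, v⟩
  · simp [trF, add_assoc, h]
  · simp [trF, add_assoc, h]

theorem trF_nbr (w : Pos) (x : Vtx) (j : Fin 5) : trF w (nbr x j) = nbr (trF w x) j := by
  by_cases hj : j = 3
  · subst hj
    rcases x with v | ⟨u, l, v⟩
    · rfl
    · by_cases hv : v = 0
      · subst hv
        rcases l with _ | ⟨w', l⟩
        · simp [trF]
        · simp [trF]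
      · simp [trF, nbr_b_three _ _ _ hv]
  · rcases x with v | ⟨u, l, v⟩
    · simp only [trF, nbr_r _ hj]
      rw [add_right_comm]
    · simp only [trF, nbr_b _ _ _ hj]

theorem exists_tr (w : Pos) : ∃ σ : Vtx ≃ Vtx, IsAut σ ∧ (∀ v, σ (.r v) = .r (v + w)) ∧
    ∀ u l v, σ (.b u l v) = .b (u + w) l v := by
  refine ⟨⟨trF w, trF (-w), trF_trF _ _ (by simp), trF_trF _ _ (by simp)⟩, ?_, ?_, ?_⟩
  · intro x j
    exact trF_nbr w x j
  · intro v; rfl
  · intro u l v; rfl

/-- the involution -/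
def ioF : Vtx → Vtx
  | .r v => .b 0 [] v
  | .b u l v => if h : u = 0 then (match l.reverse with
      | [] => .r v
      | w :: l' => .b w.1 l'.reverse v) else .b 0 (l ++ [⟨u, h⟩]) v

theorem ioF_r (v : Pos) : ioF (.r v) = .b 0 [] v := rfl

theorem ioF_nil (v : Pos) : ioF (.b 0 [] v) = .r v := by
  simp [ioF]

theorem ioF_concat (m : List NZ) (w : NZ) (v : Pos) : ioF (.b 0 (m ++ [w]) v) = .b w.1 m v := by
  simp [ioF]

theorem ioF_ne {u : Pos} (hu : u ≠ 0) (l : List NZ) (v : Pos) : ioF (.b u l v) = .b 0 (l ++ [⟨u, hu⟩]) v := by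
  simp [ioF, hu]

theorem ioF_ioF (x : Vtx) : ioF (ioF x) = x := by
  rcases x with v | ⟨u, l, v⟩
  · rw [ioF_r, ioF_nil]
  · by_cases hu : u = 0
    · subst hu
      rcases List.eq_nil_or_concat l with rfl | ⟨m, w, rfl⟩
      · rw [ioF_nil, ioF_r]
      · rw [List.concat_eq_append, ioF_concat, ioF_ne w.2]
    · rw [ioF_ne hu, ioF_concat]

theorem ioF_nbr (x : Vtx) (j : Fin 5) : ioF (nbr x j) = nbr (ioF x) j := by
  by_cases hj : j = 3
  · subst hj
    rcases x with v | ⟨u, l, v⟩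
    · rw [nbr_r_three, ioF_r]
      by_cases hv : v = 0
      · subst hv
        rw [ioF_nil, nbr_b_nil_zero]
      · rw [ioF_ne hv, nbr_b_three _ _ _ hv]
        rfl
    · by_cases hv : v = 0
      · subst hv
        rcases l with _ | ⟨w, l⟩
        · rw [nbr_b_nil_zero, ioF_r]
          by_cases hu : u = 0
          · subst hu
            rw [ioF_nil, nbr_r_three]
          · rw [ioF_ne hu]
            simp
        · rw [nbr_b_cons_zero]
          by_cases hu : u = 0
          · subst hu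
            rcases List.eq_nil_or_concat l with rfl | ⟨m, w', rfl⟩
            · rw [ioF_nil]
              have := ioF_concat [] w 0
              rw [List.nil_append] at this
              rw [this, nbr_b_nil_zero]
            · rw [List.concat_eq_append, ioF_concat]
              have := ioF_concat (w :: m) w' 0
              rw [List.cons_append] at this
              rw [this, nbr_b_cons_zero]
          · rw [ioF_ne hu, ioF_ne hu, List.cons_append, nbr_b_cons_zero]
      · rw [nbr_b_three _ _ _ hv]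
        by_cases hu : u = 0
        · subst hu
          rcases List.eq_nil_or_concat l with rfl | ⟨m, w', rfl⟩
          · rw [ioF_nil]
            have := ioF_concat [] ⟨v, hv⟩ 0
            rw [List.nil_append] at this
            rw [this, nbr_r_three]
          · rw [List.concat_eq_append, ioF_concat, nbr_b_three _ _ _ hv]
            have := ioF_concat (⟨v, hv⟩ :: m) w' 0
            rw [List.cons_append] at this
            rw [this]
        · rw [ioF_ne hu, ioF_ne hu, nbr_b_three _ _ _ hv, List.cons_append]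
  · rcases x with v | ⟨u, l, v⟩
    · rw [nbr_r _ hj, ioF_r, ioF_r, nbr_b _ _ _ hj]
    · rw [nbr_b _ _ _ hj]
      by_cases hu : u = 0
      · subst hu
        rcases List.eq_nil_or_concat l with rfl | ⟨m, w', rfl⟩
        · rw [ioF_nil, ioF_nil, nbr_r _ hj]
        · rw [List.concat_eq_append, ioF_concat, ioF_concat, nbr_b _ _ _ hj]
      · rw [ioF_ne hu, ioF_ne hu, nbr_b _ _ _ hj]

theorem exists_io : ∃ σ : Vtx ≃ Vtx, IsAut σ ∧ σ rt = nbr rt 3 := by
  refine ⟨⟨ioF, ioF, ioF_ioF, ioF_ioF⟩, ?_, ?_⟩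
  · intro x j
    exact ioF_nbr x j
  · rfl

theorem exists_aut (x : Vtx) : ∃ σ : Vtx ≃ Vtx, IsAut σ ∧ σ rt = x := by
  refine vtx_induction (p := fun x => ∃ σ : Vtx ≃ Vtx, IsAut σ ∧ σ rt = x) ⟨Equiv.refl _, fun x j => rfl, rfl⟩ ?_ x
  rintro x j ⟨σ, hσ, rfl⟩
  have : ∃ τ : Vtx ≃ Vtx, IsAut τ ∧ τ rt = nbr rt j := by
    by_cases hj : j = 3
    · subst hj
      exact exists_io
    · obtain ⟨τ, hτ, h1, _⟩ := exists_tr (e j)
      refine ⟨τ, hτ, ?_⟩
      rw [rt, h1, nbr_r _ hj]
  obtain ⟨τ, hτ, h⟩ := this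
  refine ⟨τ.trans σ, hσ.mul hτ, ?_⟩
  rw [Equiv.trans_apply, h, hσ]

/-- automorphisms preserve the graph and the rotation system -/
theorem IsAut.adj {σ : Vtx ≃ Vtx} (hσ : IsAut σ) (x y : Vtx) : gr.Adj (σ x) (σ y) ↔ gr.Adj x y := by
  constructor
  · rintro ⟨j, h⟩
    refine ⟨j, ?_⟩
    rw [← hσ] at h
    exact σ.injective h
  · rintro ⟨j, rfl⟩
    exact ⟨j, hσ x j⟩

theorem IsAut.rot {σ : Vtx ≃ Vtx} (hσ : IsAut σ) (x y : Vtx) : rot (σ x) (σ y) = σ (rot x y) := by
  by_cases h : gr.Adj x y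
  · obtain ⟨j, rfl⟩ := h
    rw [hσ, rot_nbr, rot_nbr, hσ]
  · rw [rot_of_not_adj h, rot_of_not_adj]
    rwa [hσ.adj]

end Pool.Agent.Lib.MP_609849_pr
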