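import Pool.Agent.Lib.MP_609849_pr.A3

/-! Row B1. Transition probabilities of the walk on `gr` as real numbers.

`step gr x z = 1/5` if `z = nbr x j` for some `j`, `0` otherwise (`deg_eq`). `pn_succ`: the `tsum` over `z` is a finite sum over
the range of the injective `nbr x` (`tsum_eq_sum` with `Finset.univ.image (nbr x)` or `Function.Injective.tsum_eq`). -/

open scoped ENNReal

namespace Pool.Agent.Lib.MP_609849_pr

/-- real version of `pn gr` -/
noncomputable def qn : ℕ → Vtx → Vtx → ℝ
  | 0, x, y => if x = y then 1 else 0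
  | n + 1, x, y => (∑ j, qn n (nbr x j) y) / 5

theorem qn_zero (x y : Vtx) : qn 0 x y = if x = y then 1 else 0 := rfl

theorem qn_succ (n : ℕ) (x y : Vtx) : qn (n + 1) x y = (∑ j, qn n (nbr x j) y) / 5 := rfl

theorem qn_nonneg (n : ℕ) (x y : Vtx) : 0 ≤ qn n x y := by
  induction n generalizing x with
  | zero => rw [qn_zero]; split_ifs <;> norm_num
  | succ n ih =>
    rw [qn_succ]
    exact div_nonneg (Finset.sum_nonneg fun j _ => ih _) (by norm_num)

/-- a sum over the neighbours -/
theorem tsum_step (x : Vtx) (f : Vtx → ℝ≥0∞) : ∑' z, step gr x z * f z = (∑ j, f (nbr x j)) / 5 := by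
  have h1 : ∑' z, step gr x z * f z = ∑' j, step gr x (nbr x j) * f (nbr x j) := by
    refine ((nbr_inj x).tsum_eq ?_).symm
    intro z hz
    by_contra hn
    apply hz
    have : ¬ gr.Adj x z := by
      rintro ⟨j, rfl⟩
      exact hn ⟨j, rfl⟩
    simp [step, this]
  rw [h1, tsum_fintype]
  have h2 : ∀ j, step gr x (nbr x j) * f (nbr x j) = f (nbr x j) / 5 := by
    intro j
    have : gr.Adj x (nbr x j) := ⟨j, rfl⟩
    simp only [step, this, if_true, deg_eq]
    rw [mul_comm, ENNReal.div_eq_inv_mul, mul_comm]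
    norm_num
  simp only [h2, ENNReal.div_eq_inv_mul, Finset.mul_sum]

theorem pn_eq (n : ℕ) (x y : Vtx) : pn gr n x y = ENNReal.ofReal (qn n x y) := by
  induction n generalizing x with
  | zero =>
    rw [qn_zero]
    simp only [pn]
    split_ifs <;> simp
  | succ n ih =>
    simp only [pn]
    rw [tsum_step, qn_succ, ENNReal.ofReal_div_of_pos (by norm_num),
      ENNReal.ofReal_sum_of_nonneg (fun j _ => qn_nonneg n _ y)]
    simp only [ih]
    norm_num

/-- invariance under automorphisms -/
theorem qn_aut {σ : Vtx ≃ Vtx} (hσ : IsAut σ) (n : ℕ) (x y : Vtx) : qn n (σ x) (σ y) = qn n x y := by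
  induction n generalizing x with
  | zero =>
    rw [qn_zero, qn_zero]
    simp [σ.injective.eq_iff]
  | succ n ih =>
    rw [qn_succ, qn_succ]
    congr 1
    refine Finset.sum_congr rfl fun j _ => ?_
    rw [← hσ, ih]

end Pool.Agent.Lib.MP_609849_pr
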