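import Pool.Agent.Lib.MP_609849_pr.B1

/-! Row B2. The function `φ` with `P φ ≤ (39/40) φ`, transience, the isoperimetric inequality.

`sum_phi`: `r v`: `4 * (4/5) + 1/2 ≤ (39/8)(4/5) = 3.9`. `b u l 0`, `L = (1/2)^(length+1)`: the four neighbours in the grid are not `0`:
`(4/5) L` each, the fifth is `r u` (value `4/5 = 2 L * (4/5)`, `L = 1/2`) or `b u l' w` with `w ≠ 0` (value `2 L * (4/5)`): total
`(24/5) L ≤ (39/8) L`. `b u l v`, `v ≠ 0`: value `(4/5) L`; the four neighbours in the grid: at most one of them is `0`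
(`v + e j = 0` for at most one `j ≠ 3`), value `L`, the others `(4/5) L`; the fifth `L / 2`: total `≤ 3 (4/5) L + L + L/2 = 3.9 L
= (39/8)(4/5) L`.
`qn_le`: induction on `n`. Isoperimetric inequality (Schur test): for a finite set `K`,
`#{(x,j) : x ∈ K, nbr x j ∈ K} ≤ ∑ (φ(nbr x j)/φ(x) + φ(x)/φ(nbr x j)) / 2` over these pairs (`t + 1/t ≥ 2`), and the two halves are
equal by the involution `(x, j) ↦ (nbr x j, opp j)` of this set of pairs (`Finset.sum_nbij'`), so it is
`≤ ∑_{x ∈ K} ∑_j φ(nbr x j)/φ(x) ≤ (39/8) #K`. -/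

open scoped ENNReal

namespace Pool.Agent.Lib.MP_609849_pr

/-- a positive function with `P φ ≤ (39/40) φ` -/
noncomputable def phi : Vtx → ℝ
  | .r _ => 4 / 5
  | .b _ l v => (1 / 2) ^ (l.length + 1) * (if v = 0 then 1 else 4 / 5)

theorem phi_pos (x : Vtx) : 0 < phi x := by
  rcases x with v | ⟨u, l, v⟩
  · norm_num [phi]
  · simp only [phi]
    split_ifs <;> positivity

theorem phi_le_one (x : Vtx) : phi x ≤ 1 := by
  rcases x with v | ⟨u, l, v⟩
  · norm_num [phi]
  · simp only [phi]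
    have h : ((1 : ℝ) / 2) ^ (l.length + 1) ≤ 1 := pow_le_one₀ (by norm_num) (by norm_num)
    have h0 : (0 : ℝ) ≤ (1 / 2) ^ (l.length + 1) := by positivity
    split_ifs <;> nlinarith

theorem sum_five (f : Fin 5 → ℝ) : ∑ j, f j = f 0 + f 1 + f 2 + f 3 + f 4 := by
  rw [Fin.sum_univ_five]

theorem ind_bound (v : Pos) :
    (if v + e 0 = 0 then (1 : ℝ) else 4 / 5) + (if v + e 1 = 0 then (1 : ℝ) else 4 / 5) +
      (if v + e 2 = 0 then (1 : ℝ) else 4 / 5) + (if v + e 4 = 0 then (1 : ℝ) else 4 / 5) ≤ 17 / 5 := by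
  have key : ∀ j k : Fin 5, j ≠ 3 → k ≠ 3 → v + e j = 0 → v + e k = 0 → j = k := by
    intro j k hj hk h1 h2
    apply e_inj hj hk
    rw [← h2] at h1
    exact add_left_cancel h1
  by_cases h0 : v + e 0 = 0
  · have h1 : ¬ v + e 1 = 0 := fun h => absurd (key 0 1 (by decide) (by decide) h0 h) (by decide)
    have h2 : ¬ v + e 2 = 0 := fun h => absurd (key 0 2 (by decide) (by decide) h0 h) (by decide)
    have h4 : ¬ v + e 4 = 0 := fun h => absurd (key 0 4 (by decide) (by decide) h0 h) (by decide)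
    rw [if_pos h0, if_neg h1, if_neg h2, if_neg h4]
    norm_num
  · rw [if_neg h0]
    by_cases h1 : v + e 1 = 0
    · have h2 : ¬ v + e 2 = 0 := fun h => absurd (key 1 2 (by decide) (by decide) h1 h) (by decide)
      have h4 : ¬ v + e 4 = 0 := fun h => absurd (key 1 4 (by decide) (by decide) h1 h) (by decide)
      rw [if_pos h1, if_neg h2, if_neg h4]
      norm_num
    · rw [if_neg h1]
      by_cases h2 : v + e 2 = 0
      · have h4 : ¬ v + e 4 = 0 := fun h => absurd (key 2 4 (by decide) (by decide) h2 h) (by decide)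
        rw [if_pos h2, if_neg h4]
        norm_num
      · rw [if_neg h2]
        split_ifs <;> norm_num

theorem sum_phi (x : Vtx) : ∑ j, phi (nbr x j) ≤ 39 / 8 * phi x := by
  rw [sum_five]
  rcases x with v | ⟨u, l, v⟩
  · rw [nbr_r _ (by decide : (0 : Fin 5) ≠ 3), nbr_r _ (by decide : (1 : Fin 5) ≠ 3),
      nbr_r _ (by decide : (2 : Fin 5) ≠ 3), nbr_r _ (by decide : (4 : Fin 5) ≠ 3), nbr_r_three]
    norm_num [phi]
  · rw [nbr_b _ _ _ (by decide : (0 : Fin 5) ≠ 3), nbr_b _ _ _ (by decide : (1 : Fin 5) ≠ 3),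
      nbr_b _ _ _ (by decide : (2 : Fin 5) ≠ 3), nbr_b _ _ _ (by decide : (4 : Fin 5) ≠ 3)]
    have hL : (0 : ℝ) < (1 / 2) ^ (l.length + 1) := by positivity
    by_cases hv : v = 0
    · subst hv
      have h0 : ∀ j : Fin 5, j ≠ 3 → ¬ ((0 : Pos) + e j = 0) := by
        intro j hj
        rw [zero_add]
        exact e_ne_zero hj
      have h3 : phi (nbr (.b u l 0) 3) = 2 * (1 / 2) ^ (l.length + 1) * (4 / 5) := by
        rcases l with _ | ⟨w, l⟩
        · rw [nbr_b_nil_zero]
          norm_num [phi]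
        · rw [nbr_b_cons_zero]
          simp only [phi, if_neg w.2, List.length_cons]
          ring
      rw [h3]
      simp only [phi, if_neg (h0 0 (by decide)), if_neg (h0 1 (by decide)), if_neg (h0 2 (by decide)),
        if_neg (h0 4 (by decide)), if_true]
      nlinarith
    · have h3 : phi (nbr (.b u l v) 3) = (1 / 2) ^ (l.length + 1) * (1 / 2) := by
        rw [nbr_b_three _ _ _ hv]
        simp only [phi, if_true, List.length_cons]
        ring
      rw [h3]
      simp only [phi, if_neg hv]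
      have hb := ind_bound v
      have := mul_le_mul_of_nonneg_left hb hL.le
      nlinarith

theorem qn_le (n : ℕ) (x y : Vtx) : qn n x y ≤ (39 / 40) ^ n * (phi x / phi y) := by
  induction n generalizing x with
  | zero =>
    rw [qn_zero, pow_zero, one_mul]
    split_ifs with h
    · subst h
      rw [div_self (phi_pos x).ne']
    · exact (div_pos (phi_pos x) (phi_pos y)).le
  | succ n ih =>
    rw [qn_succ]
    have h1 : ∑ j, qn n (nbr x j) y ≤ ∑ j, (39 / 40) ^ n * (phi (nbr x j) / phi y) :=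
      Finset.sum_le_sum fun j _ => ih _
    have h2 : ∑ j, (39 / 40) ^ n * (phi (nbr x j) / phi y) = (39 / 40) ^ n * ((∑ j, phi (nbr x j)) / phi y) := by
      rw [← Finset.mul_sum, Finset.sum_div]
    rw [h2] at h1
    have h3 : (∑ j, phi (nbr x j)) / phi y ≤ (39 / 8 * phi x) / phi y :=
      div_le_div_of_nonneg_right (sum_phi x) (phi_pos y).le
    have h4 : ((39 : ℝ) / 40) ^ n * ((∑ j, phi (nbr x j)) / phi y) ≤ (39 / 40) ^ n * ((39 / 8 * phi x) / phi y) :=
      mul_le_mul_of_nonneg_left h3 (by positivity)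
    have h5 : ((39 : ℝ) / 40) ^ n * ((39 / 8 * phi x) / phi y) / 5 = (39 / 40) ^ (n + 1) * (phi x / phi y) := by
      ring
    rw [← h5]
    exact div_le_div_of_nonneg_right (h1.trans h4) (by norm_num)

theorem summable_qn (x y : Vtx) : Summable (fun n => qn n x y) := by
  refine Summable.of_nonneg_of_le (fun n => qn_nonneg n x y) (fun n => qn_le n x y) ?_
  exact (summable_geometric_of_lt_one (by norm_num) (by norm_num)).mul_right _

/-- the Green function as a real number -/
noncomputable def gf (x y : Vtx) : ℝ := ∑' n, qn n x y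

theorem green_eq (x y : Vtx) : green gr x y = ENNReal.ofReal (gf x y) := by
  unfold green gf
  rw [ENNReal.ofReal_tsum_of_nonneg (fun n => qn_nonneg n x y) (summable_qn x y)]
  simp only [pn_eq]

theorem transient_gr : Transient gr := by
  intro x
  rw [green_eq]
  exact ENNReal.ofReal_lt_top

theorem gf_nonneg (x y : Vtx) : 0 ≤ gf x y := tsum_nonneg fun n => qn_nonneg n x y

theorem gf_le (x y : Vtx) : gf x y ≤ 40 * (phi x / phi y) := by
  have h := Summable.tsum_le_tsum (fun n => qn_le n x y) (summable_qn x y)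
    ((summable_geometric_of_lt_one (by norm_num) (by norm_num)).mul_right _)
  rw [tsum_mul_right, tsum_geometric_of_lt_one (by norm_num) (by norm_num)] at h
  unfold gf
  refine h.trans (le_of_eq ?_)
  norm_num

theorem gf_eq (x y : Vtx) : gf x y = (if x = y then 1 else 0) + (∑ j, gf (nbr x j) y) / 5 := by
  unfold gf
  rw [(summable_qn x y).tsum_eq_zero_add, qn_zero]
  congr 1
  simp only [qn_succ]
  rw [tsum_div_const, Summable.tsum_finsetSum (fun j _ => summable_qn _ y)]

theorem gf_aut {σ : Vtx ≃ Vtx} (hσ : IsAut σ) (x y : Vtx) : gf (σ x) (σ y) = gf x y := by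
  unfold gf
  simp only [qn_aut hσ]

/-- the number of pairs `(x, j)` with both ends of the edge in `K` -/
theorem schur (K : Finset Vtx) :
    (((K ×ˢ (Finset.univ : Finset (Fin 5))).filter (fun p => nbr p.1 p.2 ∈ K)).card : ℝ) ≤ 39 / 8 * K.card := by
  set S := (K ×ˢ (Finset.univ : Finset (Fin 5))).filter (fun p => nbr p.1 p.2 ∈ K) with hS
  have hmem : ∀ p, p ∈ S ↔ p.1 ∈ K ∧ nbr p.1 p.2 ∈ K := by
    intro p
    simp [hS]
  have h1 : ∑ p ∈ S, phi p.1 / phi (nbr p.1 p.2) = ∑ p ∈ S, phi (nbr p.1 p.2) / phi p.1 := by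
    refine Finset.sum_nbij' (fun p => (nbr p.1 p.2, opp p.2)) (fun p => (nbr p.1 p.2, opp p.2)) ?_ ?_ ?_ ?_ ?_
    · intro p hp
      rw [hmem] at hp ⊢
      simp only [nbr_nbr]
      exact ⟨hp.2, hp.1⟩
    · intro p hp
      rw [hmem] at hp ⊢
      simp only [nbr_nbr]
      exact ⟨hp.2, hp.1⟩
    · intro p _
      simp [nbr_nbr, opp_opp]
    · intro p _
      simp [nbr_nbr, opp_opp]
    · intro p _
      simp [nbr_nbr]
  have h2 : (S.card : ℝ) ≤ ∑ p ∈ S, phi (nbr p.1 p.2) / phi p.1 := by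
    have h3 : ∑ p ∈ S, (2 : ℝ) ≤ ∑ p ∈ S, (phi p.1 / phi (nbr p.1 p.2) + phi (nbr p.1 p.2) / phi p.1) := by
      refine Finset.sum_le_sum fun p _ => ?_
      have ha := phi_pos p.1
      have hb := phi_pos (nbr p.1 p.2)
      rw [div_add_div _ _ hb.ne' ha.ne', le_div_iff₀ (mul_pos hb ha)]
      nlinarith [sq_nonneg (phi p.1 - phi (nbr p.1 p.2))]
    rw [Finset.sum_add_distrib, h1, Finset.sum_const, nsmul_eq_mul] at h3
    linarith
  have h4 : ∑ p ∈ S, phi (nbr p.1 p.2) / phi p.1 ≤
      ∑ p ∈ K ×ˢ (Finset.univ : Finset (Fin 5)), phi (nbr p.1 p.2) / phi p.1 := by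
    refine Finset.sum_le_sum_of_subset_of_nonneg (Finset.filter_subset _ _) fun p _ _ => ?_
    exact (div_pos (phi_pos _) (phi_pos _)).le
  have h5 : ∑ p ∈ K ×ˢ (Finset.univ : Finset (Fin 5)), phi (nbr p.1 p.2) / phi p.1 ≤ 39 / 8 * K.card := by
    rw [Finset.sum_product]
    have : ∀ x ∈ K, ∑ j, phi (nbr x j) / phi x ≤ 39 / 8 := by
      intro x _
      rw [← Finset.sum_div, div_le_iff₀ (phi_pos x)]
      exact sum_phi x
    have h6 := Finset.sum_le_sum this
    rw [Finset.sum_const, nsmul_eq_mul] at h6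
    linarith
  linarith

end Pool.Agent.Lib.MP_609849_pr
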