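import Pool.Agent.Lib.MP_609849_pr.B2

/-! Row B3. Harnack inequality, positivity, the Martin kernel.

`gf_nbr_le` from `gf_eq` (one term of the sum). `gf_pos`: `vtx_induction` on `x` after an automorphism? simpler: by
`vtx_induction` on the first variable with `nbr_nbr`: for fixed `y` let `p x := 0 < gf x y`; `gf y y ≥ 1` (`gf_eq`); from
`gf (nbr x j) y > 0` follows `gf x y > 0` and from `gf x y > 0` follows `gf (nbr x j) y > 0` (`x = nbr (nbr x j) (opp j)`), so
`p` is constant along edges; `gr_connected` (or `vtx_induction` twice: `p rt ↔ p x` for all `x`). `exists_harnack`: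
`vtx_induction`: for `x = nbr z j`, `gf (nbr z j) y ≤ 5 gf z y`. -/

open scoped ENNReal

namespace Pool.Agent.Lib.MP_609849_pr

theorem gf_nbr_le (x y : Vtx) (j : Fin 5) : gf (nbr x j) y ≤ 5 * gf x y := by
  have h := gf_eq x y
  have h1 : gf (nbr x j) y ≤ ∑ j, gf (nbr x j) y :=
    Finset.single_le_sum (f := fun j => gf (nbr x j) y) (fun j _ => gf_nonneg _ y) (Finset.mem_univ j)
  have h2 : (0 : ℝ) ≤ if x = y then 1 else 0 := by split_ifs <;> norm_num
  linarith

theorem gf_le_nbr (x y : Vtx) (j : Fin 5) : gf x y ≤ 5 * gf (nbr x j) y := by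
  have := gf_nbr_le (nbr x j) y (opp j)
  rwa [nbr_nbr] at this

theorem gf_pos (x y : Vtx) : 0 < gf x y := by
  have h0 : ∀ x, (0 < gf x y ↔ 0 < gf rt y) := by
    intro x
    refine vtx_induction (p := fun x => (0 < gf x y ↔ 0 < gf rt y)) Iff.rfl ?_ x
    intro x j h
    rw [← h]
    constructor
    · intro h1
      have := gf_nbr_le x y j
      linarith
    · intro h1
      have := gf_le_nbr x y j
      linarith
  have h1 : 0 < gf y y := by
    have h := gf_eq y y
    have h2 : 0 ≤ (∑ j, gf (nbr y j) y) / 5 :=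
      div_nonneg (Finset.sum_nonneg fun j _ => gf_nonneg _ y) (by norm_num)
    rw [if_pos rfl] at h
    linarith
  exact (h0 x).2 ((h0 y).1 h1)

theorem exists_harnack (x : Vtx) : ∃ C : ℝ, 0 < C ∧ ∀ y, gf x y ≤ C * gf rt y := by
  refine vtx_induction (p := fun x => ∃ C : ℝ, 0 < C ∧ ∀ y, gf x y ≤ C * gf rt y) ⟨1, one_pos, fun y => by simp⟩ ?_ x
  rintro x j ⟨C, hC, h⟩
  refine ⟨5 * C, by positivity, fun y => ?_⟩
  have h1 := gf_nbr_le x y j
  have h2 := h y
  nlinarith

theorem martinK_eq (x y : Vtx) : martinK gr rt x y = gf x y / gf rt y := by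
  unfold martinK
  rw [green_eq, green_eq, ← ENNReal.ofReal_div_of_pos (gf_pos rt y), ENNReal.toReal_ofReal]
  exact div_nonneg (gf_nonneg _ _) (gf_nonneg _ _)

theorem exists_bound (x : Vtx) : ∃ C : ℝ, ∀ y, |martinK gr rt x y| ≤ C := by
  obtain ⟨C, _, h⟩ := exists_harnack x
  refine ⟨C, fun y => ?_⟩
  rw [martinK_eq, abs_of_nonneg (div_nonneg (gf_nonneg _ _) (gf_nonneg _ _)), div_le_iff₀ (gf_pos _ _)]
  exact h y

end Pool.Agent.Lib.MP_609849_pr
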