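import Pool.Agent.Lib.MP_609849_pr.B3

/-! Row B4. First passage decomposition at the vertex `r u`.

`ft u k z` = probability that the walk from `z` visits `r u` at time `k` for the first time.
`qn_decomp`: for `z` with `rp z = u` and all `w`: `qn n z (r w) = ∑_{k ≤ n} ft u k z * qn (n - k) (r u) (r w)`. Induction on `n`: if
`z = r u` only `k = 0` contributes (`ft u k (r u) = 0` for `k > 0`). If `z = b u l v`: `z ≠ r w`, so for `n = 0` both sides are `0`; for
`n + 1`: `qn (n+1) z (r w) = (1/5) ∑_j qn n (nbr z j) (r w)`, all `nbr z j` have `rp = u` (`rp_nbr`), use the induction hypothesis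
and `ft u (k+1) z = (1/5) ∑_j ft u k (nbr z j)`, `ft u 0 z = 0`.
`gf_decomp`: sum over `n` (Cauchy product, `tsum_mul_tsum_eq_tsum_sum_range_of_summable_norm` or in `ℝ≥0∞`; `ft` is summable:
`∑_{k ≤ n} ft u k z ≤ 1`, or from `ft_sum_le`): `gf z (r w) = F u z * gf (r u) (r w)`.
`ft_sum_le`: `∑_{k < n} ft u k z ≤ phi z / phi (r u)`: induction on `n`: for `z = r u` it is `≤ 1`; otherwise
`∑_{k < n+1} ft u k z = (1/5) ∑_j ∑_{k < n} ft u k (nbr z j) ≤ (1/5) ∑_j phi (nbr z j) / phi (r u) ≤ phi z / phi (r u)`. -/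

open scoped ENNReal

namespace Pool.Agent.Lib.MP_609849_pr

/-- the vertex of the first copy at which the branch containing `x` hangs -/
def rp : Vtx → Pos
  | .r v => v
  | .b u _ _ => u

/-- first passage probabilities at `r u` -/
noncomputable def ft (u : Pos) : ℕ → Vtx → ℝ
  | 0, z => if z = .r u then 1 else 0
  | k + 1, z => if z = .r u then 0 else (∑ j, ft u k (nbr z j)) / 5

/-- hitting probability of `r u` -/
noncomputable def hit (u : Pos) (z : Vtx) : ℝ := ∑' k, ft u k z

theorem rp_nbr (u : Pos) (l : List NZ) (v : Pos) (j : Fin 5) : rp (nbr (.b u l v) j) = u := by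
  by_cases hj : j = 3
  · subst hj
    by_cases hv : v = 0
    · subst hv
      rcases l with _ | ⟨w, l⟩
      · rw [nbr_b_nil_zero]; rfl
      · rw [nbr_b_cons_zero]; rfl
    · rw [nbr_b_three _ _ _ hv]; rfl
  · rw [nbr_b _ _ _ hj]; rfl

theorem ft_nonneg (u : Pos) (k : ℕ) (z : Vtx) : 0 ≤ ft u k z := by
  induction k generalizing z with
  | zero => simp only [ft]; split_ifs <;> norm_num
  | succ k ih =>
    simp only [ft]
    split_ifs
    · exact le_rfl
    · exact div_nonneg (Finset.sum_nonneg fun j _ => ih _) (by norm_num)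

theorem ft_succ_self (u : Pos) (k : ℕ) : ft u (k + 1) (.r u) = 0 := by
  simp [ft]

theorem ft_sum_le (u : Pos) (n : ℕ) (z : Vtx) :
    ∑ k ∈ Finset.range n, ft u k z ≤ phi z / phi (.r u) := by
  induction n generalizing z with
  | zero =>
    simp only [Finset.range_zero, Finset.sum_empty]
    exact (div_pos (phi_pos _) (phi_pos _)).le
  | succ n ih =>
    rw [Finset.sum_range_succ']
    by_cases hz : z = .r u
    · subst hz
      rw [div_self (phi_pos _).ne']
      simp [ft]
    · have h1 : ∑ k ∈ Finset.range n, ft u (k + 1) z = (∑ j, ∑ k ∈ Finset.range n, ft u k (nbr z j)) / 5 := by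
        rw [Finset.sum_comm, Finset.sum_div]
        refine Finset.sum_congr rfl fun k _ => ?_
        simp [ft, hz]
      have h0 : ft u 0 z = 0 := by simp [ft, hz]
      rw [h1, h0, add_zero]
      have h2 : ∑ j, ∑ k ∈ Finset.range n, ft u k (nbr z j) ≤ ∑ j, phi (nbr z j) / phi (.r u) :=
        Finset.sum_le_sum fun j _ => ih _
      have h3 : ∑ j, phi (nbr z j) / phi (.r u) = (∑ j, phi (nbr z j)) / phi (.r u) := by
        rw [Finset.sum_div]
      have h4 : (∑ j, phi (nbr z j)) / phi (.r u) ≤ (39 / 8 * phi z) / phi (.r u) :=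
        div_le_div_of_nonneg_right (sum_phi z) (phi_pos _).le
      have h5 : (39 / 8 * phi z) / phi (.r u) = 39 / 8 * (phi z / phi (.r u)) := by ring
      have h6 : 0 < phi z / phi (.r u) := div_pos (phi_pos _) (phi_pos _)
      linarith

theorem summable_ft (u : Pos) (z : Vtx) : Summable (fun k => ft u k z) :=
  summable_of_sum_range_le (fun k => ft_nonneg u k z) (fun n => ft_sum_le u n z)

theorem hit_nonneg (u : Pos) (z : Vtx) : 0 ≤ hit u z := tsum_nonneg fun k => ft_nonneg u k z

theorem hit_le (u : Pos) (z : Vtx) : hit u z ≤ phi z / phi (.r u) :=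
  (summable_ft u z).tsum_le_of_sum_range_le (fun n => ft_sum_le u n z)

theorem qn_decomp (n : ℕ) (z : Vtx) (w : Pos) :
    qn n z (.r w) = ∑ k ∈ Finset.range (n + 1), ft (rp z) k z * qn (n - k) (.r (rp z)) (.r w) := by
  induction n generalizing z with
  | zero =>
    rw [Finset.sum_range_one]
    rcases z with v | ⟨u, l, v⟩
    · simp [ft, rp]
    · simp [ft, rp, qn]
  | succ n ih =>
    rw [Finset.sum_range_succ']
    rcases z with v | ⟨u, l, v⟩
    · have h1 : ∑ k ∈ Finset.range (n + 1), ft (rp (.r v)) (k + 1) (.r v) *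
          qn (n + 1 - (k + 1)) (.r (rp (.r v))) (.r w) = 0 := by
        refine Finset.sum_eq_zero fun k _ => ?_
        change ft v (k + 1) (.r v) * _ = 0
        rw [ft_succ_self, zero_mul]
      rw [h1]
      simp [ft, rp]
    · have h0 : ft (rp (.b u l v)) 0 (.b u l v) = 0 := by simp [ft]
      rw [h0, zero_mul, add_zero, qn_succ]
      have h1 : ∀ j, qn n (nbr (.b u l v) j) (.r w) =
          ∑ k ∈ Finset.range (n + 1), ft u k (nbr (.b u l v) j) * qn (n - k) (.r u) (.r w) := by
        intro j
        have := ih (nbr (.b u l v) j)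
        rwa [rp_nbr] at this
      simp only [h1]
      rw [Finset.sum_comm, Finset.sum_div]
      refine Finset.sum_congr rfl fun k _ => ?_
      rw [← Finset.sum_mul, Nat.add_sub_add_right]
      simp only [rp, ft, reduceCtorEq, if_false]
      ring

/-- a walk from the branch at `u` to the first copy passes through `r u` -/
theorem gf_decomp (z : Vtx) (w : Pos) : gf z (.r w) = hit (rp z) z * gf (.r (rp z)) (.r w) := by
  unfold gf hit
  rw [tsum_mul_tsum_eq_tsum_sum_range_of_summable_norm]
  · refine tsum_congr fun n => ?_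
    exact qn_decomp n z w
  · simpa [abs_of_nonneg, ft_nonneg] using summable_ft (rp z) z
  · simpa [abs_of_nonneg, qn_nonneg] using summable_qn (.r (rp z)) (.r w)

end Pool.Agent.Lib.MP_609849_pr
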