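import Pool.Agent.Lib.MP_609849_pr.Defs

/-!
# The map: the Cayley graph of `ℤ² * ℤ/2`

Copies of the square grid; every vertex is joined by one more edge to a vertex of another copy. `r v` is the vertex `v`
of the first copy, `b u l v` the vertex `v` of the copy with address `l` in the branch which hangs at the vertex `r u`:
`b u l v` is the element `u ι l_k ι ... ι l_1 ι v` of the group, where `l = [l_1, ..., l_k]` (all `l_i ≠ 0`).
Every copy `b u l ·` is attached at its vertex `b u l 0`.
-/

open MeasureTheory Set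
open scoped ENNReal NNReal Topology

namespace Pool.Agent.Lib.MP_609849_pr

/-- positions in a grid -/
abbrev Pos : Type := ℤ × ℤ

/-- nonzero positions -/
abbrev NZ : Type := {w : Pos // w ≠ 0}

/-- the vertices -/
inductive Vtx : Type
  | r (v : Pos)
  | b (u : Pos) (l : List NZ) (v : Pos)
  deriving DecidableEq

/-- the four steps in a grid: east, north, west, (not used), south -/
def e : Fin 5 → Pos := ![(1, 0), (0, 1), (-1, 0), (0, 0), (0, -1)]

/-- the neighbours of a vertex; number 3 is the neighbour in the other copy -/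
def nbr : Vtx → Fin 5 → Vtx
  | .r v, j => if j = 3 then .b v [] 0 else .r (v + e j)
  | .b u l v, j => if j = 3 then
      (if h : v = 0 then (match l with
        | [] => .r u
        | w :: l' => .b u l' w.1) else .b u (⟨v, h⟩ :: l) 0)
      else .b u l (v + e j)

/-- the label of the same edge at its other end -/
def opp : Fin 5 → Fin 5 := ![2, 4, 0, 3, 1]

@[simp] theorem nbr_r_three (v : Pos) : nbr (.r v) 3 = .b v [] 0 := rfl

theorem nbr_r (v : Pos) {j : Fin 5} (hj : j ≠ 3) : nbr (.r v) j = .r (v + e j) := by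
  simp [nbr, hj]

theorem nbr_b (u : Pos) (l : List NZ) (v : Pos) {j : Fin 5} (hj : j ≠ 3) :
    nbr (.b u l v) j = .b u l (v + e j) := by
  simp [nbr, hj]

theorem nbr_b_three (u : Pos) (l : List NZ) (v : Pos) (hv : v ≠ 0) :
    nbr (.b u l v) 3 = .b u (⟨v, hv⟩ :: l) 0 := by
  simp [nbr, hv]

@[simp] theorem nbr_b_nil_zero (u : Pos) : nbr (.b u [] 0) 3 = .r u := by
  simp [nbr]

@[simp] theorem nbr_b_cons_zero (u : Pos) (w : NZ) (l : List NZ) :
    nbr (.b u (w :: l) 0) 3 = .b u l w.1 := by
  simp [nbr]

theorem opp_ne_three {j : Fin 5} (hj : j ≠ 3) : opp j ≠ 3 := by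
  revert hj; revert j; decide

theorem e_opp (j : Fin 5) : e j + e (opp j) = 0 := by
  revert j; decide

theorem opp_opp (j : Fin 5) : opp (opp j) = j := by
  revert j; decide

theorem e_ne_zero {j : Fin 5} (hj : j ≠ 3) : e j ≠ 0 := by
  revert hj; revert j; decide

theorem e_inj {j k : Fin 5} (hj : j ≠ 3) (hk : k ≠ 3) (h : e j = e k) : j = k := by
  revert h; revert hk; revert hj; revert k; revert j; decide

theorem nbr_nbr (x : Vtx) (j : Fin 5) : nbr (nbr x j) (opp j) = x := by
  by_cases hj : j = 3
  · subst hj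
    change nbr (nbr x 3) 3 = x
    rcases x with v | ⟨u, l, v⟩
    · simp
    · by_cases hv : v = 0
      · subst hv
        rcases l with _ | ⟨w, l⟩
        · simp
        · rw [nbr_b_cons_zero, nbr_b_three _ _ _ w.2]
      · rw [nbr_b_three _ _ _ hv, nbr_b_cons_zero]
  · have hj' := opp_ne_three hj
    rcases x with v | ⟨u, l, v⟩
    · rw [nbr_r _ hj, nbr_r _ hj', add_assoc, e_opp, add_zero]
    · rw [nbr_b _ _ _ hj, nbr_b _ _ _ hj', add_assoc, e_opp, add_zero]

theorem nbr_ne (x : Vtx) (j : Fin 5) : nbr x j ≠ x := by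
  by_cases hj : j = 3
  · subst hj
    rcases x with v | ⟨u, l, v⟩
    · simp
    · by_cases hv : v = 0
      · subst hv
        rcases l with _ | ⟨w, l⟩
        · simp
        · rw [nbr_b_cons_zero]
          intro h
          have := congrArg (fun z => match z with | Vtx.r _ => 0 | Vtx.b _ l _ => l.length) h
          simp at this
      · rw [nbr_b_three _ _ _ hv]
        intro h
        have := congrArg (fun z => match z with | Vtx.r _ => 0 | Vtx.b _ l _ => l.length) h
        simp at this
  · rcases x with v | ⟨u, l, v⟩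
    · rw [nbr_r _ hj]
      intro h
      have h1 : v + e j = v := by injection h
      exact e_ne_zero hj (by simpa using h1)
    · rw [nbr_b _ _ _ hj]
      intro h
      have h1 : v + e j = v := by injection h
      exact e_ne_zero hj (by simpa using h1)

/-- the copy containing a vertex -/
def cpy : Vtx → Option (Pos × List NZ)
  | .r _ => none
  | .b u l _ => some (u, l)

theorem cpy_nbr (x : Vtx) {j : Fin 5} (hj : j ≠ 3) : cpy (nbr x j) = cpy x := by
  rcases x with v | ⟨u, l, v⟩
  · rw [nbr_r _ hj]; rfl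
  · rw [nbr_b _ _ _ hj]; rfl

theorem cpy_nbr_three (x : Vtx) : cpy (nbr x 3) ≠ cpy x := by
  rcases x with v | ⟨u, l, v⟩
  · simp [cpy]
  · by_cases hv : v = 0
    · subst hv
      rcases l with _ | ⟨w, l⟩
      · simp [cpy]
      · rw [nbr_b_cons_zero]
        simp [cpy]
    · rw [nbr_b_three _ _ _ hv]
      simp [cpy]

theorem nbr_inj (x : Vtx) : Function.Injective (nbr x) := by
  intro j k h
  by_cases hj : j = 3
  · by_cases hk : k = 3
    · rw [hj, hk]
    · subst hj
      exact absurd (by rw [h, cpy_nbr x hk]) (cpy_nbr_three x)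
  · by_cases hk : k = 3
    · subst hk
      exact absurd (by rw [← h, cpy_nbr x hj]) (cpy_nbr_three x)
    · rcases x with v | ⟨u, l, v⟩
      · rw [nbr_r _ hj, nbr_r _ hk] at h
        have h1 : v + e j = v + e k := by injection h
        exact e_inj hj hk (by simpa using h1)
      · rw [nbr_b _ _ _ hj, nbr_b _ _ _ hk] at h
        have h1 : v + e j = v + e k := by injection h
        exact e_inj hj hk (by simpa using h1)

/-- the graph -/
def gr : SimpleGraph Vtx where
  Adj x y := ∃ j, y = nbr x j
  symm := ⟨by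
    rintro x _ ⟨j, rfl⟩
    exact ⟨opp j, (nbr_nbr x j).symm⟩⟩
  loopless := ⟨by
    rintro x ⟨j, h⟩
    exact nbr_ne x j h.symm⟩

open Classical in
/-- the rotation system: east, north, west, the edge to the other copy, south -/
noncomputable def rot (x y : Vtx) : Vtx := if h : ∃ j, y = nbr x j then nbr x (h.choose + 1) else y

theorem adj_iff (x y : Vtx) : gr.Adj x y ↔ ∃ j, y = nbr x j := Iff.rfl

theorem adj_nbr (x : Vtx) (j : Fin 5) : gr.Adj x (nbr x j) := ⟨j, rfl⟩

theorem rot_nbr (x : Vtx) (j : Fin 5) : rot x (nbr x j) = nbr x (j + 1) := by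
  have h : ∃ k, nbr x j = nbr x k := ⟨j, rfl⟩
  unfold rot
  rw [dif_pos h]
  rw [← nbr_inj x h.choose_spec]

theorem rot_of_not_adj {x y : Vtx} (h : ¬ gr.Adj x y) : rot x y = y := by
  unfold rot
  rw [dif_neg]
  exact h

/-- the root -/
def rt : Vtx := .r 0

end Pool.Agent.Lib.MP_609849_pr
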