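import Pool.Agent.Lib.MP_609849_pr.C1
import Pool.Agent.Lib.MP_609849_pr.MDef

/-! Row C2. The Green function of simple random walk on `ℤ²` killed with probability `1 - s` in every step, in the coordinates
`a = n + m`, `b = n - m`: the coordinates `a`, `b` are independent one-dimensional walks.

Summable by comparison with `s^k`. `gg_eq`: `P (k+1) a * P (k+1) b = (1/4) ∑_{±,±} P k (a ± 1) P k (b ± 1)`. `gg_pos`: the term
`k = max |a| |b|` is positive. `gg_step`: one term of `gg_eq`. `bounded_eq_zero`: if `|h| ≤ C` then `|h| ≤ s C`, so `|h| ≤ s^n C`. -/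

namespace Pool.Agent.Lib.MP_609849_pr

/-- Green function in the coordinates `a`, `b` -/
noncomputable def gg (s : ℝ) (a b : ℤ) : ℝ := ∑' k : ℕ, s ^ k * (P k a * P k b)

/-- Green function in the usual coordinates -/
noncomputable def gpos (s : ℝ) (v : Pos) : ℝ := gg s (v.1 + v.2) (v.1 - v.2)

variable {s : ℝ}

theorem PP_nonneg (k : ℕ) (a b : ℤ) : 0 ≤ P k a * P k b := mul_nonneg (P_nonneg _ _) (P_nonneg _ _)

theorem PP_le_one (k : ℕ) (a b : ℤ) : P k a * P k b ≤ 1 := mul_le_one₀ (P_le_one _ _) (P_nonneg _ _) (P_le_one _ _)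

theorem summable_gg (h0 : 0 ≤ s) (h1 : s < 1) (a b : ℤ) : Summable (fun k : ℕ => s ^ k * (P k a * P k b)) := by
  refine Summable.of_nonneg_of_le (fun k => mul_nonneg (pow_nonneg h0 k) (PP_nonneg k a b)) (fun k => ?_)
    (summable_geometric_of_lt_one h0 h1)
  exact mul_le_of_le_one_right (pow_nonneg h0 k) (PP_le_one k a b)

theorem gg_nonneg (h0 : 0 ≤ s) (a b : ℤ) : 0 ≤ gg s a b :=
  tsum_nonneg fun k => mul_nonneg (pow_nonneg h0 k) (PP_nonneg k a b)

theorem gg_le (h0 : 0 ≤ s) (h1 : s < 1) (a b : ℤ) : gg s a b ≤ (1 - s)⁻¹ := by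
  rw [← tsum_geometric_of_lt_one h0 h1]
  refine Summable.tsum_le_tsum (fun k => ?_) (summable_gg h0 h1 a b) (summable_geometric_of_lt_one h0 h1)
  exact mul_le_of_le_one_right (pow_nonneg h0 k) (PP_le_one k a b)

theorem gg_pos (h0 : 0 < s) (h1 : s < 1) {a b : ℤ} (hab : 2 ∣ a - b) : 0 < gg s a b := by
  obtain ⟨N, hNa, hNb, hpa, hpb⟩ : ∃ N : ℕ, |a| ≤ N ∧ |b| ≤ N ∧ 2 ∣ (N : ℤ) - a ∧ 2 ∣ (N : ℤ) - b := by
    refine ⟨(max |a| |b|).toNat, ?_⟩
    have hm : ((max |a| |b|).toNat : ℤ) = max |a| |b| := Int.toNat_of_nonneg (le_max_of_le_left (abs_nonneg a))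
    rw [hm]
    refine ⟨le_max_left _ _, le_max_right _ _, ?_, ?_⟩
    · rcases max_choice |a| |b| with h | h <;> rw [h]
      · rcases abs_choice a with h | h <;> rw [h] <;> omega
      · rcases abs_choice b with h | h <;> rw [h] <;> omega
    · rcases max_choice |a| |b| with h | h <;> rw [h]
      · rcases abs_choice a with h | h <;> rw [h] <;> omega
      · rcases abs_choice b with h | h <;> rw [h] <;> omega
  have hP : 0 < s ^ N * (P N a * P N b) := mul_pos (pow_pos h0 N) (mul_pos (P_pos hNa hpa) (P_pos hNb hpb))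
  exact hP.trans_le ((summable_gg h0.le h1 a b).le_tsum N
    fun k _ => mul_nonneg (pow_nonneg h0.le k) (PP_nonneg k a b))

theorem gg_comm (a b : ℤ) : gg s a b = gg s b a := by
  unfold gg
  refine tsum_congr fun k => ?_
  rw [mul_comm (P k a)]

theorem gg_neg_left (a b : ℤ) : gg s (-a) b = gg s a b := by
  unfold gg
  simp only [P_neg]

theorem gg_eq (h0 : 0 ≤ s) (h1 : s < 1) (a b : ℤ) : gg s a b = (if a = 0 ∧ b = 0 then 1 else 0) +
    s / 4 * (gg s (a + 1) (b + 1) + gg s (a + 1) (b - 1) + gg s (a - 1) (b + 1) + gg s (a - 1) (b - 1)) := by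
  have hs := summable_gg h0 h1
  unfold gg
  rw [(hs a b).tsum_eq_zero_add]
  congr 1
  · rw [P_zero, P_zero]
    by_cases ha : a = 0
    · by_cases hb : b = 0
      · simp [ha, hb]
      · simp [ha, hb]
    · simp [ha]
  · rw [← (hs _ _).tsum_add (hs _ _), ← ((hs _ _).add (hs _ _)).tsum_add (hs _ _),
      ← (((hs _ _).add (hs _ _)).add (hs _ _)).tsum_add (hs _ _), ← tsum_mul_left]
    refine tsum_congr fun k => ?_
    rw [P_succ, P_succ]
    ring

/-- a neighbour has at least `s/4` times the value -/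
theorem gg_step (h0 : 0 ≤ s) (h1 : s < 1) (a b : ℤ) {x y : ℤ} (hx : |x| = 1) (hy : |y| = 1) :
    s / 4 * gg s (a + x) (b + y) ≤ gg s a b := by
  have h := gg_eq h0 h1 a b
  have n1 := gg_nonneg h0 (a + 1) (b + 1)
  have n2 := gg_nonneg h0 (a + 1) (b - 1)
  have n3 := gg_nonneg h0 (a - 1) (b + 1)
  have n4 := gg_nonneg h0 (a - 1) (b - 1)
  have h2 : (0 : ℝ) ≤ if a = 0 ∧ b = 0 then 1 else 0 := by split_ifs <;> norm_num
  have key : gg s (a + x) (b + y) ≤ gg s (a + 1) (b + 1) + gg s (a + 1) (b - 1) + gg s (a - 1) (b + 1) +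
      gg s (a - 1) (b - 1) := by
    rcases (abs_eq (by norm_num)).1 hx with rfl | rfl <;> rcases (abs_eq (by norm_num)).1 hy with rfl | rfl <;>
      (try simp only [← sub_eq_add_neg]) <;> linarith
  have := mul_le_mul_of_nonneg_left key (by positivity : (0 : ℝ) ≤ s / 4)
  linarith

/-- Harnack inequality: induction with `gg_step`; `(c, d) = p (1, 1) + q (1, -1)`, `p = (c+d)/2`, `q = (c-d)/2` -/
theorem gg_harnack (h0 : 0 < s) (h1 : s < 1) (c d : ℤ) (hcd : 2 ∣ c - d) :
    ∃ C : ℝ, 0 < C ∧ ∀ a b : ℤ, gg s (a + c) (b + d) ≤ C * gg s a b := by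
  -- steps
  have step : ∀ x y : ℤ, |x| = 1 → |y| = 1 → ∀ c d : ℤ, (∃ C : ℝ, 0 < C ∧ ∀ a b : ℤ, gg s (a + c) (b + d) ≤ C * gg s a b) →
      ∃ C : ℝ, 0 < C ∧ ∀ a b : ℤ, gg s (a + (c + x)) (b + (d + y)) ≤ C * gg s a b := by
    rintro x y hx hy c d ⟨C, hC, h⟩
    refine ⟨4 / s * C, by positivity, fun a b => ?_⟩
    have h2 := gg_step h0.le h1 (a + c) (b + d) hx hy
    have h3 := h a b
    rw [← add_assoc, ← add_assoc]
    have h4 : gg s (a + c + x) (b + d + y) = 4 / s * (s / 4 * gg s (a + c + x) (b + d + y)) := by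
      field_simp
    rw [h4, mul_assoc]
    exact mul_le_mul_of_nonneg_left (h2.trans h3) (by positivity)
  have h00 : ∃ C : ℝ, 0 < C ∧ ∀ a b : ℤ, gg s (a + 0) (b + 0) ≤ C * gg s a b := ⟨1, one_pos, fun a b => by simp⟩
  have hp : ∀ p : ℤ, ∃ C : ℝ, 0 < C ∧ ∀ a b : ℤ, gg s (a + p) (b + p) ≤ C * gg s a b := by
    intro p
    induction p using Int.induction_on with
    | zero => exact h00
    | succ n ih => exact step 1 1 (by simp) (by simp) _ _ ih
    | pred n ih => exact step (-1) (-1) (by simp) (by simp) _ _ ih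
  have hpq : ∀ p q : ℤ, ∃ C : ℝ, 0 < C ∧ ∀ a b : ℤ, gg s (a + (p + q)) (b + (p - q)) ≤ C * gg s a b := by
    intro p q
    induction q using Int.induction_on with
    | zero => simpa using hp p
    | succ n ih =>
      have := step 1 (-1) (by simp) (by simp) _ _ ih
      rwa [show p + (n : ℤ) + 1 = p + (n + 1) by ring, show p - (n : ℤ) + -1 = p - (n + 1) by ring] at this
    | pred n ih =>
      have := step (-1) 1 (by simp) (by simp) _ _ ih
      rwa [show p + (-(n : ℤ)) + -1 = p + (-n - 1) by ring, show p - (-(n : ℤ)) + 1 = p - (-n - 1) by ring] at this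
  obtain ⟨m, hm⟩ := hcd
  have := hpq (d + m) m
  rwa [show d + m + m = c by linarith, show d + m - m = d by ring] at this

theorem gpos_pos (h0 : 0 < s) (h1 : s < 1) (v : Pos) : 0 < gpos s v :=
  gg_pos h0 h1 ⟨v.2, by ring⟩

theorem gpos_le (h0 : 0 ≤ s) (h1 : s < 1) (v : Pos) : gpos s v ≤ (1 - s)⁻¹ := gg_le h0 h1 _ _

theorem gpos_neg (v : Pos) : gpos s (-v) = gpos s v := by
  unfold gpos
  rw [Prod.fst_neg, Prod.snd_neg, show -v.1 + -v.2 = -(v.1 + v.2) by ring, gg_neg_left, gg_comm,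
    show -v.1 - -v.2 = -(v.1 - v.2) by ring, gg_neg_left, gg_comm]

theorem gpos_eq (h0 : 0 ≤ s) (h1 : s < 1) (v : Pos) : gpos s v = (if v = 0 then 1 else 0) +
    s / 4 * (gpos s (v + e 0) + gpos s (v + e 1) + gpos s (v + e 2) + gpos s (v + e 4)) := by
  have h := gg_eq h0 h1 (v.1 + v.2) (v.1 - v.2)
  unfold gpos
  rw [h]
  rcases v with ⟨n, m⟩
  have h1 : (n + m = 0 ∧ n - m = 0) ↔ ((n, m) : Pos) = 0 := by
    rw [Prod.mk_eq_zero]
    constructor
    · rintro ⟨h1, h2⟩
      constructor <;> omega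
    · rintro ⟨rfl, rfl⟩
      simp
  simp only [h1]
  congr 2
  have e0 : e 0 = (1, 0) := rfl
  have e1 : e 1 = (0, 1) := rfl
  have e2 : e 2 = (-1, 0) := rfl
  have e4 : e 4 = (0, -1) := rfl
  simp only [e0, e1, e2, e4, Prod.mk_add_mk]
  rw [show n + 1 + (m + 0) = n + m + 1 by ring, show n + 1 - (m + 0) = n - m + 1 by ring,
    show n + 0 + (m + 1) = n + m + 1 by ring, show n + 0 - (m + 1) = n - m - 1 by ring,
    show n + -1 + (m + 0) = n + m - 1 by ring, show n + -1 - (m + 0) = n - m - 1 by ring,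
    show n + 0 + (m + -1) = n + m - 1 by ring, show n + 0 - (m + -1) = n - m + 1 by ring]
  ring

theorem bounded_eq_zero (h0 : 0 ≤ s) (h1 : s < 1) (h : Pos → ℝ) (C : ℝ) (hC : ∀ v, |h v| ≤ C)
    (hh : ∀ v, h v = s / 4 * (h (v + e 0) + h (v + e 1) + h (v + e 2) + h (v + e 4))) (v : Pos) : h v = 0 := by
  have key : ∀ n : ℕ, ∀ v, |h v| ≤ s ^ n * C := by
    intro n
    induction n with
    | zero => intro v; simpa using hC v
    | succ n ih =>
      intro v
      rw [hh v, abs_mul, abs_of_nonneg (by positivity : (0 : ℝ) ≤ s / 4)]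
      have a1 := ih (v + e 0)
      have a2 := ih (v + e 1)
      have a3 := ih (v + e 2)
      have a4 := ih (v + e 4)
      have h5 : |h (v + e 0) + h (v + e 1) + h (v + e 2) + h (v + e 4)| ≤ 4 * (s ^ n * C) := by
        rw [abs_le] at *
        constructor <;> linarith
      have := mul_le_mul_of_nonneg_left h5 (by positivity : (0 : ℝ) ≤ s / 4)
      calc _ ≤ s / 4 * (4 * (s ^ n * C)) := this
        _ = s ^ (n + 1) * C := by ring
  have hlim : Filter.Tendsto (fun n : ℕ => s ^ n * C) Filter.atTop (nhds (0 * C)) :=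
    (tendsto_pow_atTop_nhds_zero_of_lt_one h0 h1).mul_const C
  rw [zero_mul] at hlim
  have := ge_of_tendsto' hlim (fun n => key n v)
  exact abs_eq_zero.1 (le_antisymm this (abs_nonneg _))

end Pool.Agent.Lib.MP_609849_pr
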