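import Pool.Agent.Lib.MP_609849_pr.B4
import Pool.Agent.Lib.MP_609849_pr.C2

/-! Row B6. The Green function on the first copy.

Let `f = hit 0 (b 0 [] 0)`; `0 ≤ f ≤ phi (b 0 [] 0) / phi (r 0) = (1/2)/(4/5) = 5/8` (`hit_le`). By `gf_decomp` with
`z = b v [] 0`: `gf (b v [] 0) (r w) = hit v (b v [] 0) * gf (r v) (r w)`, and `hit v (b v [] 0) = f`: from `gf_decomp` and
`gf_aut` for the translation by `v` (`exists_tr`): `hit v (b v [] 0) = gf (b v [] 0) (r v) / gf (r v) (r v) =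
gf (b 0 [] 0) (r 0) / gf (r 0) (r 0)` (`gf_pos`). So `gf_eq` at `r v` reads
`(5 - f) gf (r v) (r w) = 5 [v = w] + ∑_{j ≠ 3} gf (r (v + e j)) (r w)`. Put `s = 4/(5 - f)`, `c = 5/(5 - f)`. The function
`h v = gf (r v) (r w) - c * gpos s (w - v)` is bounded (`gf_le`, `phi_le_one`; `gpos_le`) and satisfies
`h v = (s/4) ∑_{j ≠ 3} h (v + e j)` (`gpos_eq`), so `h = 0` (`bounded_eq_zero`). -/

open scoped ENNReal

namespace Pool.Agent.Lib.MP_609849_pr

theorem hit_const (v : Pos) : hit v (.b v [] 0) = hit 0 (.b 0 [] 0) := by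
  obtain ⟨σ, hσ, h1, h2⟩ := exists_tr v
  have a := gf_decomp (.b v [] 0) v
  have b := gf_decomp (.b 0 [] 0) 0
  change gf (.b v [] 0) (.r v) = hit v (.b v [] 0) * gf (.r v) (.r v) at a
  change gf (.b 0 [] 0) (.r 0) = hit 0 (.b 0 [] 0) * gf (.r 0) (.r 0) at b
  have c := gf_aut hσ (.b 0 [] 0) (.r 0)
  have d := gf_aut hσ (.r 0) (.r 0)
  rw [h1, h2, zero_add] at c
  rw [h1, zero_add] at d
  rw [c, d, b] at a
  exact (mul_right_cancel₀ (gf_pos _ _).ne' a).symm

theorem exists_gf_eq : ∃ s c : ℝ, 4 / 5 ≤ s ∧ s ≤ 32 / 35 ∧ 0 < c ∧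
    ∀ v w : Pos, gf (.r v) (.r w) = c * gpos s (w - v) := by
  set f := hit 0 (.b 0 [] 0) with hf
  have f0 : 0 ≤ f := hit_nonneg _ _
  have f1 : f ≤ 5 / 8 := by
    refine (hit_le 0 (.b 0 [] 0)).trans (le_of_eq ?_)
    norm_num [phi]
  have h5 : 0 < 5 - f := by linarith
  have hs1 : 4 / 5 ≤ 4 / (5 - f) := div_le_div_of_nonneg_left (by norm_num) h5 (by linarith)
  have hs2 : 4 / (5 - f) ≤ 32 / 35 := by
    rw [div_le_div_iff₀ h5 (by norm_num)]
    linarith
  set s := 4 / (5 - f) with hs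
  have s0 : 0 ≤ s := by linarith
  have s1 : s < 1 := by linarith
  refine ⟨s, 5 / (5 - f), hs1, hs2, by positivity, ?_⟩
  intro v w
  have hg : ∀ v, gf (.r v) (.r w) = 5 / (5 - f) * (if w - v = 0 then 1 else 0) + s / 4 * (gf (.r (v + e 0)) (.r w) +
      gf (.r (v + e 1)) (.r w) + gf (.r (v + e 2)) (.r w) + gf (.r (v + e 4)) (.r w)) := by
    intro v
    have h := gf_eq (.r v) (.r w)
    rw [sum_five, nbr_r _ (by decide : (0 : Fin 5) ≠ 3), nbr_r _ (by decide : (1 : Fin 5) ≠ 3),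
      nbr_r _ (by decide : (2 : Fin 5) ≠ 3), nbr_r _ (by decide : (4 : Fin 5) ≠ 3), nbr_r_three] at h
    have hd := gf_decomp (.b v [] 0) w
    change gf (.b v [] 0) (.r w) = hit v (.b v [] 0) * gf (.r v) (.r w) at hd
    rw [hit_const, ← hf] at hd
    rw [hd] at h
    have hi : (if (Vtx.r v) = (Vtx.r w) then (1 : ℝ) else 0) = if w - v = 0 then 1 else 0 := by
      by_cases hvw : w = v
      · simp [hvw]
      · have h1 : ¬ w - v = 0 := fun h => hvw (sub_eq_zero.1 h)
        have h2 : ¬ (Vtx.r v) = (Vtx.r w) := by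
          intro h
          injection h with h
          exact hvw h.symm
        rw [if_neg h1, if_neg h2]
    rw [hi] at h
    rw [hs]
    field_simp
    field_simp at h
    linarith
  have hb : ∀ v, gf (.r v) (.r w) - 5 / (5 - f) * gpos s (w - v) = 0 := by
    refine bounded_eq_zero s0 s1 (fun v => gf (.r v) (.r w) - 5 / (5 - f) * gpos s (w - v))
      (40 + 5 / (5 - f) * (1 - s)⁻¹) ?_ ?_
    · intro v
      have a1 : gf (.r v) (.r w) ≤ 40 := by
        have := gf_le (.r v) (.r w)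
        simpa [phi] using this
      have a2 := gf_nonneg (.r v) (.r w)
      have a3 : 5 / (5 - f) * gpos s (w - v) ≤ 5 / (5 - f) * (1 - s)⁻¹ :=
        mul_le_mul_of_nonneg_left (gpos_le s0 s1 _) (by positivity)
      have a4 : 0 ≤ 5 / (5 - f) * gpos s (w - v) := mul_nonneg (by positivity) (gg_nonneg s0 _ _)
      rw [abs_le]
      constructor <;> linarith
    · intro v
      have h1 := hg v
      have h2 := gpos_eq s0 s1 (w - v)
      have e0 : w - (v + e 0) = w - v + e 2 := by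
        have : e 0 + e 2 = 0 := by decide
        rw [eq_neg_of_add_eq_zero_left this]; abel
      have e1 : w - (v + e 1) = w - v + e 4 := by
        have : e 1 + e 4 = 0 := by decide
        rw [eq_neg_of_add_eq_zero_left this]; abel
      have e2 : w - (v + e 2) = w - v + e 0 := by
        have : e 2 + e 0 = 0 := by decide
        rw [eq_neg_of_add_eq_zero_left this]; abel
      have e4 : w - (v + e 4) = w - v + e 1 := by
        have : e 4 + e 1 = 0 := by decide
        rw [eq_neg_of_add_eq_zero_left this]; abel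
      rw [e0, e1, e2, e4, h1, h2]
      ring
  linarith [hb v]

/-- the Martin kernel on the first copy -/
theorem exists_martinK_eq : ∃ s : ℝ, 4 / 5 ≤ s ∧ s ≤ 32 / 35 ∧
    ∀ (x : Vtx), ∃ D : ℝ, 0 ≤ D ∧ (x = .r (rp x) → D = 1) ∧
      ∀ w : Pos, martinK gr rt x (.r w) = D * (gpos s (w - rp x) / gpos s w) := by
  obtain ⟨s, c, hs1, hs2, hc, h⟩ := exists_gf_eq
  refine ⟨s, hs1, hs2, fun x => ⟨hit (rp x) x, hit_nonneg _ _, ?_, ?_⟩⟩
  · intro hx
    have h1 := gf_decomp x (rp x)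
    have h2 : gf (.r (rp x)) (.r (rp x)) = gf x (.r (rp x)) := by rw [← hx]
    rw [h2] at h1
    have h3 := gf_pos x (.r (rp x))
    exact (mul_right_cancel₀ h3.ne' (by rw [one_mul]; exact h1)).symm
  · intro w
    rw [martinK_eq, gf_decomp x w, h, rt, h, sub_zero]
    have : gpos s w ≠ 0 := (gpos_pos (by linarith) (by linarith) w).ne'
    field_simp

end Pool.Agent.Lib.MP_609849_pr
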