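import Mathlib

/-! Row C1. One-dimensional simple random walk `P k a` (probability of being at `a` at time `k`).

`R1` by induction on `k` for all `a`: with `x = P k (a-1)`, `y = P k (a+1)`, `z = P k (a+3)` the hypotheses are
`(k+a+1) y = (k-a+1) x` and `(k+a+3) z = (k-a-1) y`; the claim for `k+1` is `(k+a+3)(y+z)/2 = (k+1-a)(x+y)/2`.
`R2`: `P (k+1) (a+1) = (P k a + P k (a+2))/2` and `R1`. `R3`: `R2` at `(k+1, a-1)` gives `(k+a+2) P (k+2) a = (k+2) P (k+1) (a-1)`;
`R2` and the symmetry `a ↦ -a` give `(k-a+2) P (k+1) (a-1) = (k+1) P k a`. Positivity: induction (one of `a-1`, `a+1` has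
absolute value `≤ k`). -/

namespace Pool.Agent.Lib.MP_609849_pr

/-- simple random walk on `ℤ` -/
noncomputable def P : ℕ → ℤ → ℝ
  | 0, a => if a = 0 then 1 else 0
  | k + 1, a => (P k (a - 1) + P k (a + 1)) / 2

theorem P_zero (a : ℤ) : P 0 a = if a = 0 then 1 else 0 := rfl

theorem P_succ (k : ℕ) (a : ℤ) : P (k + 1) a = (P k (a - 1) + P k (a + 1)) / 2 := rfl

theorem P_nonneg (k : ℕ) (a : ℤ) : 0 ≤ P k a := by
  induction k generalizing a with
  | zero => rw [P_zero]; split_ifs <;> norm_num
  | succ k ih =>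
    rw [P_succ]
    have h1 := ih (a - 1)
    have h2 := ih (a + 1)
    linarith

theorem P_le_one (k : ℕ) (a : ℤ) : P k a ≤ 1 := by
  induction k generalizing a with
  | zero => rw [P_zero]; split_ifs <;> norm_num
  | succ k ih =>
    rw [P_succ]
    have h1 := ih (a - 1)
    have h2 := ih (a + 1)
    linarith

theorem P_neg (k : ℕ) (a : ℤ) : P k (-a) = P k a := by
  induction k generalizing a with
  | zero => rw [P_zero, P_zero]; simp
  | succ k ih =>
    rw [P_succ, P_succ]
    have h1 := ih (a + 1)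
    have h2 := ih (a - 1)
    rw [show -a - 1 = -(a + 1) by ring, show -a + 1 = -(a - 1) by ring, h1, h2]
    ring

theorem P_eq_zero {k : ℕ} {a : ℤ} (h : (k : ℤ) < |a|) : P k a = 0 := by
  induction k generalizing a with
  | zero =>
    rw [P_zero, if_neg]
    rintro rfl
    simp at h
  | succ k ih =>
    rw [P_succ, ih, ih]
    · simp
    · push_cast at h
      rcases lt_abs.1 h with h | h
      · exact lt_abs.2 (Or.inl (by linarith))
      · exact lt_abs.2 (Or.inr (by linarith))
    · push_cast at h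
      rcases lt_abs.1 h with h | h
      · exact lt_abs.2 (Or.inl (by linarith))
      · exact lt_abs.2 (Or.inr (by linarith))

theorem P_pos {k : ℕ} {a : ℤ} (h : |a| ≤ k) (h2 : 2 ∣ (k : ℤ) - a) : 0 < P k a := by
  induction k generalizing a with
  | zero =>
    have : a = 0 := by simpa using h
    rw [P_zero, if_pos this]
    norm_num
  | succ k ih =>
    rw [P_succ]
    have h1 := P_nonneg k (a - 1)
    have h3 := P_nonneg k (a + 1)
    rcases abs_le.1 h with ⟨h4, h5⟩
    push_cast at h4 h5 h2
    by_cases ha : 0 < a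
    · have : 0 < P k (a - 1) := ih (abs_le.2 ⟨by omega, by omega⟩) (by omega)
      linarith
    · have : 0 < P k (a + 1) := by
        apply ih
        · rw [abs_le]
          constructor
          · omega
          · have : a + 1 ≤ 1 := by omega
            rcases Nat.eq_zero_or_pos k with hk | hk
            · subst hk
              push_cast at *
              omega
            · omega
        · omega
      linarith

theorem R1 (k : ℕ) (a : ℤ) : ((k : ℝ) + a + 2) * P k (a + 2) = ((k : ℝ) - a) * P k a := by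
  induction k generalizing a with
  | zero =>
    rw [P_zero, P_zero]
    by_cases h : a = 0
    · subst h
      norm_num
    · rw [if_neg h]
      by_cases h2 : a + 2 = 0
      · rw [if_pos h2]
        have : (a : ℝ) = -2 := by
          have : a = -2 := by omega
          rw [this]; norm_num
        rw [this]
        norm_num
      · rw [if_neg h2]
        ring
  | succ k ih =>
    rw [P_succ, P_succ]
    have h1 := ih (a - 1)
    have h2 := ih (a + 1)
    rw [show a - 1 + 2 = a + 1 by ring] at h1
    rw [show a + 1 + 2 = a + 3 by ring] at h2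
    rw [show a + 2 - 1 = a + 1 by ring, show a + 2 + 1 = a + 3 by ring]
    push_cast at h1 h2 ⊢
    linarith

theorem R2 (k : ℕ) (a : ℤ) : ((k : ℝ) + a + 2) * P (k + 1) (a + 1) = ((k : ℝ) + 1) * P k a := by
  rw [P_succ, show a + 1 - 1 = a by ring, show a + 1 + 1 = a + 2 by ring]
  have := R1 k a
  linarith

theorem R3 (k : ℕ) (a : ℤ) :
    (((k : ℝ) + 2) ^ 2 - (a : ℝ) ^ 2) * P (k + 2) a = ((k : ℝ) + 1) * ((k : ℝ) + 2) * P k a := by
  have h1 := R2 (k + 1) (a - 1)
  rw [show a - 1 + 1 = a by ring] at h1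
  have h2 := R2 k (-a)
  rw [show -a + 1 = -(a - 1) by ring, P_neg, P_neg] at h2
  push_cast at h1 h2
  have h3 : (((k : ℝ) + 2) ^ 2 - (a : ℝ) ^ 2) * P (k + 2) a =
      ((k : ℝ) - a + 2) * (((k : ℝ) + 1 + (a - 1) + 2) * P (k + 1 + 1) a) := by ring
  rw [h3, h1]
  have h4 : ((k : ℝ) - a + 2) * (((k : ℝ) + 1 + 1) * P (k + 1) (a - 1)) =
      ((k : ℝ) + 2) * (((k : ℝ) + -a + 2) * P (k + 1) (a - 1)) := by ring
  rw [h4, h2]
  ring

end Pool.Agent.Lib.MP_609849_pr
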