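import Pool.Agent.Lib.MP_609849_pr.C2

/-! Row C3. Second moment identity. `wt k = s^k P k a P k b`, `Z k = (1 - a²/k²)(1 - b²/k²)`, `N = max |a| |b| ≥ 1`.

`wt_shift`: `R3` for `a` and `b`, divided by `(k+2)^4`. `wt_eq_zero`: `P_eq_zero` for `k < N`. `moment`: sum `wt_shift * H (k+2)`
over `k`; the left side is `∑_{j ≥ 2} wt j Z j H j`; the terms `j = 0`, `j = 1` vanish (`wt 0 = 0` because `N ≥ 1`; if `wt 1 ≠ 0`
then `|a|, |b| ≤ 1` and `P 1 a, P 1 b ≠ 0`, so `|a| = |b| = 1` and `Z 1 = 0`). `0 ≤ Z k ≤ 1` for `k ≥ N`,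
`Z (k+2) ≤ Z k + 8/(k+2)`: `a²/k² - a²/(k+2)² ≤ (4k+4)/(k+2)² ≤ 4/(k+2)` as `a² ≤ k²`.
`var_Z`: with `E f = ∑ wt f / gg`: `E Z = s² E ((k+1)/(k+2))² ≥ s² (1 - 2/N)`, `≤ s²` (`1 - 2/(k+2) ≤ ((k+1)/(k+2))² ≤ 1`),
`E Z² = s² E [((k+1)/(k+2))² Z(k+2)] ≤ s² (E Z + 8/N) ≤ s⁴ + 8/N`, so
`E (Z - s²)² = E Z² - 2 s² E Z + s⁴ ≤ 8/N + 4/N`. -/

namespace Pool.Agent.Lib.MP_609849_pr

/-- weights -/
noncomputable def wt (s : ℝ) (a b : ℤ) (k : ℕ) : ℝ := s ^ k * (P k a * P k b)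

noncomputable def Zk (a b : ℤ) (k : ℕ) : ℝ := (1 - (a : ℝ) ^ 2 / (k : ℝ) ^ 2) * (1 - (b : ℝ) ^ 2 / (k : ℝ) ^ 2)

/-- `N = max |a| |b| ≥ 1` -/
structure IsMax (a b : ℤ) (N : ℕ) : Prop where
  one_le : 1 ≤ N
  left : |a| ≤ N
  right : |b| ≤ N
  max : |a| = N ∨ |b| = N

variable {s : ℝ} {a b : ℤ} {N : ℕ}

theorem wt_nonneg (h0 : 0 ≤ s) (k : ℕ) : 0 ≤ wt s a b k := mul_nonneg (pow_nonneg h0 k) (PP_nonneg k a b)

theorem summable_wt (h0 : 0 ≤ s) (h1 : s < 1) : Summable (wt s a b) := summable_gg h0 h1 a b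

theorem tsum_wt : ∑' k, wt s a b k = gg s a b := rfl

theorem wt_eq_zero (hN : IsMax a b N) {k : ℕ} (hk : k < N) : wt s a b k = 0 := by
  unfold wt
  have hk' : (k : ℤ) < N := by exact_mod_cast hk
  rcases hN.max with h | h
  · rw [P_eq_zero (a := a) (by rw [h]; exact hk')]
    ring
  · rw [P_eq_zero (a := b) (by rw [h]; exact hk')]
    ring

/-- bounded functions are summable with the weights `wt` (they have to be bounded only for `k ≥ N`) -/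
theorem summable_wt_mul (h0 : 0 ≤ s) (h1 : s < 1) (hN : IsMax a b N) (H : ℕ → ℝ) (B : ℝ)
    (hH : ∀ k, N ≤ k → |H k| ≤ B) : Summable (fun k => wt s a b k * H k) := by
  refine Summable.of_norm_bounded ((summable_wt (a := a) (b := b) h0 h1).mul_right B) (fun k => ?_)
  rw [Real.norm_eq_abs, abs_mul, abs_of_nonneg (wt_nonneg h0 k)]
  rcases lt_or_ge k N with hk | hk
  · rw [wt_eq_zero hN hk]
    simp
  · exact mul_le_mul_of_nonneg_left (hH k hk) (wt_nonneg h0 k)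

/-- termwise comparison, only for `k ≥ N` -/
theorem wt_mul_le (h0 : 0 ≤ s) (hN : IsMax a b N) {f g : ℕ → ℝ} (h : ∀ k, N ≤ k → f k ≤ g k) (k : ℕ) :
    wt s a b k * f k ≤ wt s a b k * g k := by
  rcases lt_or_ge k N with hk | hk
  · rw [wt_eq_zero hN hk]
    simp
  · exact mul_le_mul_of_nonneg_left (h k hk) (wt_nonneg h0 k)

theorem wt_shift (k : ℕ) :
    wt s a b (k + 2) * Zk a b (k + 2) = s ^ 2 * wt s a b k * (((k : ℝ) + 1) / ((k : ℝ) + 2)) ^ 2 := by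
  unfold wt Zk
  have ha := R3 k a
  have hb := R3 k b
  have hk : (k : ℝ) + 2 ≠ 0 := by positivity
  push_cast
  have e1 : (1 - (a : ℝ) ^ 2 / ((k : ℝ) + 2) ^ 2) * P (k + 2) a = ((k : ℝ) + 1) / ((k : ℝ) + 2) * P k a := by
    field_simp
    linarith
  have e2 : (1 - (b : ℝ) ^ 2 / ((k : ℝ) + 2) ^ 2) * P (k + 2) b = ((k : ℝ) + 1) / ((k : ℝ) + 2) * P k b := by
    field_simp
    linarith
  calc s ^ (k + 2) * (P (k + 2) a * P (k + 2) b) *
        ((1 - (a : ℝ) ^ 2 / ((k : ℝ) + 2) ^ 2) * (1 - (b : ℝ) ^ 2 / ((k : ℝ) + 2) ^ 2))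
      = s ^ (k + 2) * (((1 - (a : ℝ) ^ 2 / ((k : ℝ) + 2) ^ 2) * P (k + 2) a) *
        ((1 - (b : ℝ) ^ 2 / ((k : ℝ) + 2) ^ 2) * P (k + 2) b)) := by ring
    _ = _ := by
      rw [e1, e2]
      ring

theorem sq_div_le_one {a : ℤ} {k : ℕ} (h : |a| ≤ k) : (a : ℝ) ^ 2 / (k : ℝ) ^ 2 ≤ 1 := by
  have h1 : |(a : ℝ)| ≤ (k : ℝ) := by exact_mod_cast h
  have h2 : (a : ℝ) ^ 2 ≤ (k : ℝ) ^ 2 := by
    rw [← sq_abs]
    exact pow_le_pow_left₀ (abs_nonneg _) h1 2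
  exact div_le_one_of_le₀ h2 (sq_nonneg _)

theorem sq_div_nonneg (a : ℤ) (k : ℕ) : 0 ≤ (a : ℝ) ^ 2 / (k : ℝ) ^ 2 := by positivity

theorem IsMax.left' (hN : IsMax a b N) {k : ℕ} (hk : N ≤ k) : |a| ≤ k := hN.left.trans (by exact_mod_cast hk)

theorem IsMax.right' (hN : IsMax a b N) {k : ℕ} (hk : N ≤ k) : |b| ≤ k := hN.right.trans (by exact_mod_cast hk)

theorem Zk_nonneg (hN : IsMax a b N) {k : ℕ} (hk : N ≤ k) : 0 ≤ Zk a b k := by
  have h1 := sq_div_le_one (hN.left' hk)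
  have h2 := sq_div_le_one (hN.right' hk)
  exact mul_nonneg (by linarith) (by linarith)

theorem Zk_le_one (hN : IsMax a b N) {k : ℕ} (hk : N ≤ k) : Zk a b k ≤ 1 := by
  have h1 := sq_div_le_one (hN.left' hk)
  have h2 := sq_div_le_one (hN.right' hk)
  have h3 := sq_div_nonneg a k
  have h4 := sq_div_nonneg b k
  exact mul_le_one₀ (by linarith) (by linarith) (by linarith)

theorem moment (h0 : 0 < s) (h1 : s < 1) (hN : IsMax a b N) (H : ℕ → ℝ) (B : ℝ) (hH : ∀ k, |H k| ≤ B) :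
    ∑' k, wt s a b k * (Zk a b k * H k) =
      s ^ 2 * ∑' k, wt s a b k * ((((k : ℝ) + 1) / ((k : ℝ) + 2)) ^ 2 * H (k + 2)) := by
  have hB : 0 ≤ B := (abs_nonneg _).trans (hH 0)
  have hs : Summable (fun k => wt s a b k * (Zk a b k * H k)) := by
    refine summable_wt_mul h0.le h1 hN _ B fun k hk => ?_
    rw [abs_mul, abs_of_nonneg (Zk_nonneg hN hk)]
    calc Zk a b k * |H k| ≤ 1 * B := mul_le_mul (Zk_le_one hN hk) (hH k) (abs_nonneg _) zero_le_one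
      _ = B := one_mul B
  have hz0 : wt s a b 0 * (Zk a b 0 * H 0) = 0 := by
    rw [wt_eq_zero hN (Nat.lt_of_lt_of_le Nat.zero_lt_one hN.one_le), zero_mul]
  have hz1 : wt s a b 1 * (Zk a b 1 * H 1) = 0 := by
    rcases Nat.lt_or_ge 1 N with h | h
    · rw [wt_eq_zero hN h, zero_mul]
    · have hN1 : N = 1 := le_antisymm h hN.one_le
      have ha := hN.left
      rw [hN1] at ha
      by_cases h2 : a = 0
      · have : P 1 a = 0 := by
          rw [h2, P_succ, P_zero, P_zero]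
          norm_num
        unfold wt
        rw [this]
        ring
      · have h3 : |a| = 1 := by
          have : 0 < |a| := abs_pos.2 h2
          push_cast at ha
          omega
        have h4 : (a : ℝ) ^ 2 = 1 := by
          rw [← sq_abs]
          have : |(a : ℝ)| = 1 := by exact_mod_cast h3
          rw [this]; norm_num
        unfold Zk
        rw [h4]
        norm_num
  rw [← hs.sum_add_tsum_nat_add 2, Finset.sum_range_succ, Finset.sum_range_one, hz0, hz1, add_zero, zero_add,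
    ← tsum_mul_left]
  refine tsum_congr fun k => ?_
  have := wt_shift (s := s) (a := a) (b := b) k
  rw [← mul_assoc, this]
  ring

theorem sq_div_shift {a : ℤ} {k : ℕ} (hk : 1 ≤ k) (h : |a| ≤ k) :
    (a : ℝ) ^ 2 / ((k + 2 : ℕ) : ℝ) ^ 2 ≤ (a : ℝ) ^ 2 / (k : ℝ) ^ 2 ∧
    (a : ℝ) ^ 2 / (k : ℝ) ^ 2 - (a : ℝ) ^ 2 / ((k + 2 : ℕ) : ℝ) ^ 2 ≤ 4 / k := by
  have h1 : |(a : ℝ)| ≤ (k : ℝ) := by exact_mod_cast h
  have h2 : (a : ℝ) ^ 2 ≤ (k : ℝ) ^ 2 := by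
    rw [← sq_abs]
    exact pow_le_pow_left₀ (abs_nonneg _) h1 2
  have hk' : (1 : ℝ) ≤ k := by exact_mod_cast hk
  have hk0 : (0 : ℝ) < k := by linarith
  push_cast
  constructor
  · apply div_le_div_of_nonneg_left (sq_nonneg _) (by positivity)
    exact pow_le_pow_left₀ (by linarith) (by linarith) 2
  · have e1 : (a : ℝ) ^ 2 / (k : ℝ) ^ 2 - (a : ℝ) ^ 2 / ((k : ℝ) + 2) ^ 2 =
        (a : ℝ) ^ 2 / (k : ℝ) ^ 2 * ((4 * k + 4) / ((k : ℝ) + 2) ^ 2) := by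
      field_simp
      ring
    rw [e1]
    have e2 : (a : ℝ) ^ 2 / (k : ℝ) ^ 2 ≤ 1 := div_le_one_of_le₀ h2 (sq_nonneg _)
    have e3 : (4 * (k : ℝ) + 4) / ((k : ℝ) + 2) ^ 2 ≤ 4 / k := by
      rw [div_le_div_iff₀ (by positivity) hk0]
      nlinarith
    have e4 : 0 ≤ (4 * (k : ℝ) + 4) / ((k : ℝ) + 2) ^ 2 := by positivity
    calc _ ≤ 1 * ((4 * (k : ℝ) + 4) / ((k : ℝ) + 2) ^ 2) := mul_le_mul_of_nonneg_right e2 e4
      _ ≤ 4 / k := by rw [one_mul]; exact e3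

theorem Zk_shift (hN : IsMax a b N) {k : ℕ} (hk : N ≤ k) : Zk a b (k + 2) ≤ Zk a b k + 8 / N := by
  have hk1 : 1 ≤ k := hN.one_le.trans hk
  obtain ⟨a1, a2⟩ := sq_div_shift hk1 (hN.left' hk)
  obtain ⟨b1, b2⟩ := sq_div_shift hk1 (hN.right' hk)
  have a3 := sq_div_le_one (hN.left' hk)
  have b3 := sq_div_le_one (hN.right' hk)
  have a4 := sq_div_nonneg a (k + 2)
  have b4 := sq_div_nonneg b (k + 2)
  have hNk : (4 : ℝ) / k ≤ 4 / N := by
    apply div_le_div_of_nonneg_left (by norm_num)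
    · exact_mod_cast hN.one_le
    · exact_mod_cast hk
  unfold Zk
  set A := (a : ℝ) ^ 2 / (k : ℝ) ^ 2
  set A' := (a : ℝ) ^ 2 / ((k + 2 : ℕ) : ℝ) ^ 2
  set B := (b : ℝ) ^ 2 / (k : ℝ) ^ 2
  set B' := (b : ℝ) ^ 2 / ((k + 2 : ℕ) : ℝ) ^ 2
  have e1 : (A - A') * (1 - B') ≤ 4 / N * 1 :=
    mul_le_mul (a2.trans hNk) (by linarith) (by linarith) (by positivity)
  have e2 : (1 - A) * (B - B') ≤ 1 * (4 / N) :=
    mul_le_mul (by linarith [sq_div_nonneg a k]) (b2.trans hNk) (by linarith) (by norm_num)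
  have e3 : (8 : ℝ) / N = 4 / N + 4 / N := by ring
  rw [e3]
  nlinarith

theorem Zk_bound (a b : ℤ) (k : ℕ) : |Zk a b k| ≤ (1 + (a : ℝ) ^ 2) * (1 + (b : ℝ) ^ 2) := by
  have key : ∀ a : ℤ, |1 - (a : ℝ) ^ 2 / (k : ℝ) ^ 2| ≤ 1 + (a : ℝ) ^ 2 := by
    intro a
    have h1 : 0 ≤ (a : ℝ) ^ 2 / (k : ℝ) ^ 2 := by positivity
    have h2 : (a : ℝ) ^ 2 / (k : ℝ) ^ 2 ≤ (a : ℝ) ^ 2 := by
      rcases Nat.eq_zero_or_pos k with hk | hk
      · subst hk
        simp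
        positivity
      · apply div_le_self (sq_nonneg _)
        have : (1 : ℝ) ≤ k := by exact_mod_cast hk
        nlinarith
    rw [abs_le]
    constructor <;> linarith
  unfold Zk
  rw [abs_mul]
  exact mul_le_mul (key a) (key b) (abs_nonneg _) (by positivity)

theorem ck_le (k : ℕ) : (((k : ℝ) + 1) / ((k : ℝ) + 2)) ^ 2 ≤ 1 := by
  have h : ((k : ℝ) + 1) / ((k : ℝ) + 2) ≤ 1 := div_le_one_of_le₀ (by linarith) (by positivity)
  exact pow_le_one₀ (by positivity) h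

theorem ck_ge {k N : ℕ} (hN : 1 ≤ N) (hk : N ≤ k) : 1 - 2 / (N : ℝ) ≤ (((k : ℝ) + 1) / ((k : ℝ) + 2)) ^ 2 := by
  have hN' : (0 : ℝ) < N := by exact_mod_cast hN
  have hk' : (N : ℝ) ≤ k := by exact_mod_cast hk
  have h1 : ((k : ℝ) + 1) / ((k : ℝ) + 2) = 1 - 1 / ((k : ℝ) + 2) := by
    field_simp
    ring
  have h2 : 1 / ((k : ℝ) + 2) ≤ 1 / N := one_div_le_one_div_of_le hN' (by linarith)
  have h3 : 0 ≤ 1 / ((k : ℝ) + 2) := by positivity
  rw [h1]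
  have h4 : (2 : ℝ) / N = 2 * (1 / N) := by ring
  rw [h4]
  nlinarith [sq_nonneg (1 / ((k : ℝ) + 2))]

theorem var_Z (h0 : 0 < s) (h1 : s < 1) (hN : IsMax a b N) :
    ∑' k, wt s a b k * (Zk a b k - s ^ 2) ^ 2 ≤ 12 / N * gg s a b := by
  have hNpos : (0 : ℝ) < N := by exact_mod_cast hN.one_le
  have S0 : Summable (fun k => wt s a b k) := summable_wt h0.le h1
  have S1 : Summable (fun k => wt s a b k * Zk a b k) := by
    refine summable_wt_mul h0.le h1 hN _ 1 fun k hk => ?_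
    rw [abs_of_nonneg (Zk_nonneg hN hk)]
    exact Zk_le_one hN hk
  have S2 : Summable (fun k => wt s a b k * (Zk a b k * Zk a b k)) := by
    refine summable_wt_mul h0.le h1 hN _ 1 fun k hk => ?_
    rw [abs_of_nonneg (mul_nonneg (Zk_nonneg hN hk) (Zk_nonneg hN hk))]
    exact mul_le_one₀ (Zk_le_one hN hk) (Zk_nonneg hN hk) (Zk_le_one hN hk)
  have Sc : Summable (fun k => wt s a b k * (((k : ℝ) + 1) / ((k : ℝ) + 2)) ^ 2) := by
    refine summable_wt_mul h0.le h1 hN _ 1 fun k hk => ?_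
    rw [abs_of_nonneg (by positivity)]
    exact ck_le k
  have Sc2 : Summable (fun k => wt s a b k * ((((k : ℝ) + 1) / ((k : ℝ) + 2)) ^ 2 * Zk a b (k + 2))) := by
    refine summable_wt_mul h0.le h1 hN _ 1 fun k hk => ?_
    have h2 := Zk_nonneg hN (hk.trans (Nat.le_add_right k 2))
    have h3 := Zk_le_one hN (hk.trans (Nat.le_add_right k 2))
    rw [abs_of_nonneg (mul_nonneg (by positivity) h2)]
    exact mul_le_one₀ (ck_le k) h2 h3
  have m1 := moment h0 h1 hN (fun _ => 1) 1 (fun _ => by simp)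
  have m2 := moment h0 h1 hN (Zk a b) _ (Zk_bound a b)
  simp only [mul_one] at m1
  set g := gg s a b with hg
  set E1 := ∑' k, wt s a b k * Zk a b k with hE1
  set E2 := ∑' k, wt s a b k * (Zk a b k * Zk a b k) with hE2
  have g0 : 0 ≤ g := gg_nonneg h0.le a b
  -- `E1 ≥ s² (1 - 2/N) g`, `E2 ≤ s² (E1 + 8/N g)`
  have i1 : (1 - 2 / (N : ℝ)) * g ≤ ∑' k, wt s a b k * (((k : ℝ) + 1) / ((k : ℝ) + 2)) ^ 2 := by
    have : (1 - 2 / (N : ℝ)) * g = ∑' k, wt s a b k * (1 - 2 / (N : ℝ)) := by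
      rw [tsum_mul_right, tsum_wt, mul_comm]
    rw [this]
    refine Summable.tsum_le_tsum (wt_mul_le h0.le hN fun k hk => ck_ge hN.one_le hk) (S0.mul_right _) Sc
  have i2 : ∑' k, wt s a b k * ((((k : ℝ) + 1) / ((k : ℝ) + 2)) ^ 2 * Zk a b (k + 2)) ≤ E1 + 8 / N * g := by
    have : E1 + 8 / N * g = ∑' k, wt s a b k * (Zk a b k + 8 / N) := by
      rw [hE1, hg, ← tsum_wt, mul_comm (8 / (N : ℝ)), ← tsum_mul_right, ← S1.tsum_add (S0.mul_right _)]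
      refine tsum_congr fun k => ?_
      ring
    rw [this]
    refine Summable.tsum_le_tsum (wt_mul_le h0.le hN fun k hk => ?_) Sc2 ?_
    · have h2 := Zk_nonneg hN (hk.trans (Nat.le_add_right k 2))
      have h3 := Zk_shift hN hk
      calc _ ≤ 1 * Zk a b (k + 2) := mul_le_mul_of_nonneg_right (ck_le k) h2
        _ ≤ _ := by rw [one_mul]; exact h3
    · have : (fun k => wt s a b k * (Zk a b k + 8 / N)) = fun k => wt s a b k * Zk a b k + wt s a b k * (8 / N) := by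
        funext k; ring
      rw [this]
      exact S1.add (S0.mul_right _)
  have hexp : ∑' k, wt s a b k * (Zk a b k - s ^ 2) ^ 2 = E2 - 2 * s ^ 2 * E1 + s ^ 4 * g := by
    have h2 : (fun k => wt s a b k * (Zk a b k - s ^ 2) ^ 2) = fun k =>
        (wt s a b k * (Zk a b k * Zk a b k) - wt s a b k * Zk a b k * (2 * s ^ 2)) + wt s a b k * s ^ 4 := by
      funext k; ring
    rw [h2, (S2.sub (S1.mul_right _)).tsum_add (S0.mul_right _), S2.tsum_sub (S1.mul_right _), tsum_mul_right,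
      tsum_mul_right, tsum_wt]
    ring
  rw [hexp]
  have s2 : s ^ 2 ≤ 1 := pow_le_one₀ h0.le h1.le
  have s2' : 0 < s ^ 2 := by positivity
  have k1 : s ^ 2 * ((1 - 2 / (N : ℝ)) * g) ≤ E1 := by
    rw [m1]
    exact mul_le_mul_of_nonneg_left i1 s2'.le
  have k2 : E2 ≤ s ^ 2 * (E1 + 8 / N * g) := by
    rw [m2]
    exact mul_le_mul_of_nonneg_left i2 s2'.le
  have k3 : s ^ 2 * (s ^ 2 * ((1 - 2 / (N : ℝ)) * g)) ≤ s ^ 2 * E1 := mul_le_mul_of_nonneg_left k1 s2'.le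
  have gN : 0 ≤ g / N := div_nonneg g0 hNpos.le
  have e1 : s ^ 2 * (s ^ 2 * ((1 - 2 / (N : ℝ)) * g)) = s ^ 4 * g - 2 * s ^ 4 * (g / N) := by ring
  have e2 : s ^ 2 * (E1 + 8 / N * g) = s ^ 2 * E1 + 8 * s ^ 2 * (g / N) := by ring
  have e3 : 12 / (N : ℝ) * g = 12 * (g / N) := by ring
  have s4 : s ^ 4 ≤ 1 := pow_le_one₀ h0.le h1.le
  have f1 : s ^ 4 * (g / N) ≤ 1 * (g / N) := mul_le_mul_of_nonneg_right s4 gN
  have f2 : s ^ 2 * (g / N) ≤ 1 * (g / N) := mul_le_mul_of_nonneg_right s2 gN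
  rw [e3]
  linarith

end Pool.Agent.Lib.MP_609849_pr
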