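import Pool.Agent.Lib.MP_609849_pr.C3

/-! Row C4. Concentration of `α(k) = (k-a)/(k+a+2)`.

`exists_w`: `f(w) = (1 - a²w)(1 - b²w)` is continuous, `f(0) = 1`, `f(1/N²) = 0`, so `f(w) = s²` for some `w` in `(0, 1/N²]`
(`intermediate_value_Icc'`); `(1-x)(1-y) ≥ 1 - x - y` gives `1 - s² ≤ (a²+b²) w ≤ 2N²w`.
`w_dist`: for `k ≥ N`, `v = 1/k²`: `Z k - s² = f(v) - f(w) = (v - w)(a²b²(v+w) - (a²+b²))`. Let `|a| = N` (the other case is
symmetric): `a²v ≤ 1`, so `a²b²v ≤ b²`, and `(a²+b²) - a²b²(v+w) ≥ a² - a²b²w = a²(1 - b²w) ≥ a²s² = N²s²` because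
`(1-a²w)(1-b²w) = s²` with both factors in `[0,1]`. So `N²s²|v - w| ≤ |Z k - s²|`.
`var_al`: with `u = a/k`, `u₁ = a √w` (`0 ≤ u, u₁ ≤ 1`): `|u - u₁| = a|v - w|/(1/k + √w) ≤ N|v-w|/√w`,
`(u-u₁)² ≤ N²(v-w)²/w ≤ N⁴(v-w)² * 2/(1-s²)`, `2/(1-s²) ≤ 12.2`, and `∑ wt N⁴(v-w)² ≤ ∑ wt (Z-s²)²/s⁴ ≤ (12/(0.4096 N)) gg ≤ (30/N) gg`.
`(1-u)/(1+u) - (1-u₁)/(1+u₁) = 2(u₁-u)/((1+u)(1+u₁))`, `|α(k) - (1-u)/(1+u)| ≤ 2/(k+a+2) ≤ 2/N` (`(1-u)/(1+u) = (k-a)/(k+a)`). So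
`(α - α*)² ≤ 8/N² + 8 (u-u₁)²` and the sum is `≤ (8/N² + 8 * 366/N) gg ≤ (3000/N) gg`. (`k < N` has weight 0.) -/

namespace Pool.Agent.Lib.MP_609849_pr

noncomputable def al (a : ℤ) (k : ℕ) : ℝ := ((k : ℝ) - a) / ((k : ℝ) + a + 2)

/-- `w` is the inverse square of the typical time -/
structure IsW (s : ℝ) (a b : ℤ) (N : ℕ) (w : ℝ) : Prop where
  pos : 0 < w
  le : (N : ℝ) ^ 2 * w ≤ 1
  eq : (1 - (a : ℝ) ^ 2 * w) * (1 - (b : ℝ) ^ 2 * w) = s ^ 2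
  ge : 1 - s ^ 2 ≤ 2 * (N : ℝ) ^ 2 * w

/-- limit of `α` -/
noncomputable def als (a : ℤ) (w : ℝ) : ℝ := (1 - a * Real.sqrt w) / (1 + a * Real.sqrt w)

variable {s w : ℝ} {a b : ℤ} {N : ℕ}

theorem sq_le_of_abs {a : ℤ} {N : ℕ} (h : |a| ≤ N) : (a : ℝ) ^ 2 ≤ (N : ℝ) ^ 2 := by
  have h1 : |(a : ℝ)| ≤ (N : ℝ) := by exact_mod_cast h
  rw [← sq_abs]
  exact pow_le_pow_left₀ (abs_nonneg _) h1 2

theorem sq_eq_of_abs {a : ℤ} {N : ℕ} (h : |a| = N) : (a : ℝ) ^ 2 = (N : ℝ) ^ 2 := by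
  have h1 : |(a : ℝ)| = (N : ℝ) := by exact_mod_cast h
  rw [← sq_abs, h1]

theorem exists_w (h0 : 0 < s) (h1 : s < 1) (hN : IsMax a b N) : ∃ w, IsW s a b N w := by
  have hNpos : (0 : ℝ) < N := by exact_mod_cast hN.one_le
  have hN2 : (0 : ℝ) < (N : ℝ) ^ 2 := by positivity
  set f : ℝ → ℝ := fun w => (1 - (a : ℝ) ^ 2 * w) * (1 - (b : ℝ) ^ 2 * w) with hf
  have hc : ContinuousOn f (Set.Icc 0 (1 / (N : ℝ) ^ 2)) := by
    apply Continuous.continuousOn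
    fun_prop
  have f0 : f 0 = 1 := by simp [hf]
  have f1 : f (1 / (N : ℝ) ^ 2) = 0 := by
    rcases hN.max with h | h
    · simp only [hf, sq_eq_of_abs h, mul_one_div_cancel hN2.ne']
      simp
    · simp only [hf, sq_eq_of_abs h, mul_one_div_cancel hN2.ne']
      simp
  have hs2 : s ^ 2 ∈ Set.Icc (f (1 / (N : ℝ) ^ 2)) (f 0) := by
    rw [f0, f1]
    exact ⟨by positivity, pow_le_one₀ h0.le h1.le⟩
  obtain ⟨w, ⟨hw0, hw1⟩, hw⟩ := intermediate_value_Icc' (by positivity) hc hs2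
  have hs1 : s ^ 2 < 1 := pow_lt_one₀ h0.le h1 (by norm_num)
  have hwpos : 0 < w := by
    rcases hw0.lt_or_eq with h | h
    · exact h
    · rw [← h, f0] at hw
      linarith
  have hle : (N : ℝ) ^ 2 * w ≤ 1 := by
    rw [le_div_iff₀ hN2] at hw1
    linarith
  refine ⟨w, hwpos, hle, hw, ?_⟩
  have h2 : (1 - (a : ℝ) ^ 2 * w) * (1 - (b : ℝ) ^ 2 * w) = s ^ 2 := hw
  have ha := sq_le_of_abs hN.left
  have hb := sq_le_of_abs hN.right
  have h3 : 0 ≤ ((a : ℝ) ^ 2 * w) * ((b : ℝ) ^ 2 * w) := by positivity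
  have h4 : (a : ℝ) ^ 2 * w ≤ (N : ℝ) ^ 2 * w := mul_le_mul_of_nonneg_right ha hwpos.le
  have h5 : (b : ℝ) ^ 2 * w ≤ (N : ℝ) ^ 2 * w := mul_le_mul_of_nonneg_right hb hwpos.le
  nlinarith

theorem w_dist_aux {A B n s w v : ℝ} (hA : A = n) (hB0 : 0 ≤ B) (hn : 0 ≤ n) (hBn : B ≤ n) (hw0 : 0 ≤ w)
    (hv : n * v ≤ 1) (hw : n * w ≤ 1) (he : (1 - A * w) * (1 - B * w) = s ^ 2) :
    n * s ^ 2 * |v - w| ≤ |(1 - A * v) * (1 - B * v) - s ^ 2| := by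
  subst hA
  have e1 : (1 - A * v) * (1 - B * v) - s ^ 2 = (v - w) * (-((A + B) - A * B * (v + w))) := by
    rw [← he]; ring
  have e2 : s ^ 2 ≤ 1 - B * w := by
    have h1 : 0 ≤ 1 - B * w := by nlinarith
    have h2 : 1 - A * w ≤ 1 := by nlinarith
    rw [← he]
    nlinarith
  have e3 : A * s ^ 2 ≤ (A + B) - A * B * (v + w) := by
    have h1 : A * s ^ 2 ≤ A * (1 - B * w) := mul_le_mul_of_nonneg_left e2 hn
    have h2 : B * (A * v) ≤ B * 1 := mul_le_mul_of_nonneg_left hv hB0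
    nlinarith
  rw [e1, abs_mul, abs_neg, mul_comm]
  apply mul_le_mul_of_nonneg_left _ (abs_nonneg _)
  exact e3.trans (le_abs_self _)

theorem w_dist (h0 : 0 < s) (h1 : s < 1) (hN : IsMax a b N) (hw : IsW s a b N w) {k : ℕ} (hk : N ≤ k) :
    (N : ℝ) ^ 2 * s ^ 2 * |1 / (k : ℝ) ^ 2 - w| ≤ |Zk a b k - s ^ 2| := by
  have hNpos : (0 : ℝ) < N := by exact_mod_cast hN.one_le
  have hkN : (N : ℝ) ≤ k := by exact_mod_cast hk
  have hv : (N : ℝ) ^ 2 * (1 / (k : ℝ) ^ 2) ≤ 1 := by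
    rw [mul_one_div]
    apply div_le_one_of_le₀ _ (sq_nonneg _)
    exact pow_le_pow_left₀ hNpos.le hkN 2
  have hz : Zk a b k = (1 - (a : ℝ) ^ 2 * (1 / (k : ℝ) ^ 2)) * (1 - (b : ℝ) ^ 2 * (1 / (k : ℝ) ^ 2)) := by
    unfold Zk
    ring
  rw [hz]
  rcases hN.max with h | h
  · exact w_dist_aux (sq_eq_of_abs h) (sq_nonneg _) (sq_nonneg _) (sq_le_of_abs hN.right) hw.pos.le hv hw.le hw.eq
  · have := w_dist_aux (s := s) (sq_eq_of_abs h) (sq_nonneg (a : ℝ)) (sq_nonneg _) (sq_le_of_abs hN.left) hw.pos.le hv hw.le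
      (by rw [mul_comm]; exact hw.eq)
    rw [mul_comm (1 - (a : ℝ) ^ 2 * (1 / (k : ℝ) ^ 2))]
    exact this

theorem mob_diff {u v : ℝ} (hu : 0 ≤ u) (hv : 0 ≤ v) : |(1 - u) / (1 + u) - (1 - v) / (1 + v)| ≤ 2 * |u - v| := by
  have e1 : (1 - u) / (1 + u) - (1 - v) / (1 + v) = 2 * (v - u) / ((1 + u) * (1 + v)) := by
    field_simp
    ring
  rw [e1, abs_div, abs_mul, abs_of_pos (by norm_num : (0 : ℝ) < 2), abs_of_pos (by positivity : 0 < (1 + u) * (1 + v)),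
    abs_sub_comm v u]
  apply div_le_self (by positivity)
  nlinarith [mul_nonneg hu hv]

theorem al_bound (hs : 4 / 5 ≤ s) (hs' : s ≤ 32 / 35) (ha : 0 ≤ a) (hN : IsMax a b N)
    (hw : IsW s a b N w) {k : ℕ} (hk : N ≤ k) :
    (al a k - als a w) ^ 2 ≤ 8 / N + 240 * (Zk a b k - s ^ 2) ^ 2 := by
  have hN1 : (1 : ℝ) ≤ N := by exact_mod_cast hN.one_le
  have hNpos : (0 : ℝ) < N := by linarith
  have hkN : (N : ℝ) ≤ k := by exact_mod_cast hk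
  have hkpos : (0 : ℝ) < k := by linarith
  have ha' : (0 : ℝ) ≤ a := by exact_mod_cast ha
  have haN : (a : ℝ) ≤ N := by
    have := hN.left
    rw [abs_of_nonneg ha] at this
    exact_mod_cast this
  set r := Real.sqrt w with hr
  have hr0 : 0 < r := Real.sqrt_pos.2 hw.pos
  have hr2 : r ^ 2 = w := Real.sq_sqrt hw.pos.le
  set u := (a : ℝ) / k with hu
  set u1 := (a : ℝ) * r with hu1
  have u0 : 0 ≤ u := by positivity
  have u10 : 0 ≤ u1 := by positivity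
  have d1 : |al a k - (1 - u) / (1 + u)| ≤ 2 / N := by
    have e1 : (1 - u) / (1 + u) = ((k : ℝ) - a) / (k + a) := by
      rw [hu]
      field_simp
    have e2 : al a k - (1 - u) / (1 + u) = -(((k : ℝ) - a) / (k + a) * (2 / (k + a + 2))) := by
      rw [e1]
      unfold al
      field_simp
      ring
    rw [e2, abs_neg, abs_mul, abs_of_nonneg (by positivity : (0 : ℝ) ≤ 2 / (k + a + 2)),
      abs_of_nonneg (div_nonneg (by linarith) (by positivity))]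
    have e3 : ((k : ℝ) - a) / (k + a) ≤ 1 := div_le_one_of_le₀ (by linarith) (by positivity)
    have e4 : (2 : ℝ) / (k + a + 2) ≤ 2 / N := div_le_div_of_nonneg_left (by norm_num) hNpos (by linarith)
    calc _ ≤ 1 * (2 / ((k : ℝ) + a + 2)) := mul_le_mul_of_nonneg_right e3 (by positivity)
      _ ≤ _ := by rw [one_mul]; exact e4
  have d2 : |(1 - u) / (1 + u) - als a w| ≤ 2 * |u - u1| := mob_diff u0 u10
  have d3 : |al a k - als a w| ≤ 2 / N + 2 * |u - u1| := by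
    have := abs_sub_le (al a k) ((1 - u) / (1 + u)) (als a w)
    linarith
  have d4 : (al a k - als a w) ^ 2 ≤ 8 / (N : ℝ) ^ 2 + 8 * (u - u1) ^ 2 := by
    rw [← sq_abs (al a k - als a w), ← sq_abs (u - u1)]
    have h1 := pow_le_pow_left₀ (abs_nonneg _) d3 2
    have h2 : (2 / (N : ℝ) + 2 * |u - u1|) ^ 2 ≤ 8 / (N : ℝ) ^ 2 + 8 * |u - u1| ^ 2 := by
      have h3 : 8 / (N : ℝ) ^ 2 = 2 * (2 / (N : ℝ)) ^ 2 := by ring
      rw [h3]
      nlinarith [sq_nonneg (2 / (N : ℝ) - 2 * |u - u1|)]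
    exact h1.trans h2
  have d5 : 8 / (N : ℝ) ^ 2 ≤ 8 / N := by
    apply div_le_div_of_nonneg_left (by norm_num) hNpos
    nlinarith
  -- `(u - u1)² ≤ N² (v - w)² / w`
  set v := 1 / (k : ℝ) ^ 2 with hv
  have e5 : (u - u1) ^ 2 * w ≤ (N : ℝ) ^ 2 * (v - w) ^ 2 := by
    have h1 : u - u1 = a * (1 / k - r) := by rw [hu, hu1]; ring
    have h2 : v - w = (1 / k - r) * (1 / k + r) := by
      rw [hv, ← hr2]; ring
    rw [h1, h2, ← hr2]
    have h3 : (a : ℝ) ^ 2 ≤ (N : ℝ) ^ 2 := pow_le_pow_left₀ ha' haN 2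
    have h4 : r ^ 2 ≤ (1 / k + r) ^ 2 := pow_le_pow_left₀ hr0.le (by linarith [(by positivity : (0 : ℝ) < 1 / k)]) 2
    calc ((a : ℝ) * (1 / k - r)) ^ 2 * r ^ 2 = (a : ℝ) ^ 2 * (1 / k - r) ^ 2 * r ^ 2 := by ring
      _ ≤ (N : ℝ) ^ 2 * (1 / k - r) ^ 2 * (1 / k + r) ^ 2 := by
        apply mul_le_mul _ h4 (by positivity) (by positivity)
        exact mul_le_mul_of_nonneg_right h3 (sq_nonneg _)
      _ = _ := by ring
  have e6 := w_dist (by linarith) (by linarith) hN hw hk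
  have e7 : ((N : ℝ) ^ 2 * s ^ 2) ^ 2 * (v - w) ^ 2 ≤ (Zk a b k - s ^ 2) ^ 2 := by
    have h1 := pow_le_pow_left₀ (by positivity) e6 2
    rw [sq_abs, mul_pow, sq_abs] at h1
    exact h1
  -- `1 ≤ 2 N² w / (1 - s²)`
  have hs2 : s ^ 2 ≤ 1024 / 1225 := by
    have := pow_le_pow_left₀ (by linarith) hs' 2
    norm_num at this
    linarith
  have hs2' : 16 / 25 ≤ s ^ 2 := by
    have := pow_le_pow_left₀ (by norm_num) hs 2
    norm_num at this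
    linarith
  have e8 : 201 / 1225 ≤ 2 * (N : ℝ) ^ 2 * w := by
    have := hw.ge
    linarith
  have e9 : (u - u1) ^ 2 * (201 / 1225) ≤ 2 * (N : ℝ) ^ 4 * (v - w) ^ 2 := by
    have h1 : (u - u1) ^ 2 * (201 / 1225) ≤ (u - u1) ^ 2 * (2 * (N : ℝ) ^ 2 * w) :=
      mul_le_mul_of_nonneg_left e8 (sq_nonneg _)
    have h2 : 2 * (N : ℝ) ^ 2 * ((u - u1) ^ 2 * w) ≤ 2 * (N : ℝ) ^ 2 * ((N : ℝ) ^ 2 * (v - w) ^ 2) :=
      mul_le_mul_of_nonneg_left e5 (by positivity)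
    calc _ ≤ _ := h1
      _ = 2 * (N : ℝ) ^ 2 * ((u - u1) ^ 2 * w) := by ring
      _ ≤ _ := h2
      _ = _ := by ring
  have e10 : (N : ℝ) ^ 4 * (v - w) ^ 2 * (256 / 625) ≤ (Zk a b k - s ^ 2) ^ 2 := by
    have h1 : (256 : ℝ) / 625 ≤ (s ^ 2) ^ 2 := by nlinarith
    have h2 : (N : ℝ) ^ 4 * (v - w) ^ 2 * (256 / 625) ≤ (N : ℝ) ^ 4 * (v - w) ^ 2 * (s ^ 2) ^ 2 :=
      mul_le_mul_of_nonneg_left h1 (by positivity)
    calc _ ≤ _ := h2
      _ = ((N : ℝ) ^ 2 * s ^ 2) ^ 2 * (v - w) ^ 2 := by ring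
      _ ≤ _ := e7
  have e12 : 0 ≤ (Zk a b k - s ^ 2) ^ 2 := sq_nonneg _
  clear_value u1 v u
  have e11 : (u - u1) ^ 2 ≤ 30 * (Zk a b k - s ^ 2) ^ 2 := by
    have h9 : (u - u1) ^ 2 * (201 / 1225) ≤ 2 * ((N : ℝ) ^ 4 * (v - w) ^ 2) := by
      rw [← mul_assoc]
      exact e9
    generalize (N : ℝ) ^ 4 * (v - w) ^ 2 = Y at h9 e10
    generalize (u - u1) ^ 2 = X at h9 ⊢
    generalize (Zk a b k - s ^ 2) ^ 2 = Q at e10 e12 ⊢
    linarith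
  exact d4.trans (by linarith)

theorem summable_al_sq (hs : 4 / 5 ≤ s) (hs' : s ≤ 32 / 35) (ha : 0 ≤ a) (hN : IsMax a b N)
    (hw : IsW s a b N w) : Summable (fun k => wt s a b k * (al a k - als a w) ^ 2) := by
  refine summable_wt_mul (by linarith) (by linarith) hN _ (8 / N + 240) fun k hk => ?_
  rw [abs_of_nonneg (sq_nonneg _)]
  have h1 := al_bound hs hs' ha hN hw hk
  have h2 := Zk_nonneg hN hk
  have h3 := Zk_le_one hN hk
  have h4 : s ^ 2 ≤ 1 := pow_le_one₀ (by linarith) (by linarith)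
  have h5 : (Zk a b k - s ^ 2) ^ 2 ≤ 1 := by
    rw [sq_le_one_iff_abs_le_one, abs_le]
    constructor <;> nlinarith
  linarith

theorem var_al (hs : 4 / 5 ≤ s) (hs' : s ≤ 32 / 35) (ha : 0 ≤ a) (hb : 0 ≤ b) (hN : IsMax a b N)
    (hw : IsW s a b N w) : ∑' k, wt s a b k * (al a k - als a w) ^ 2 ≤ 3000 / N * gg s a b := by
  have h0 : 0 < s := by linarith
  have h1 : s < 1 := by linarith
  have S0 : Summable (fun k => wt s a b k) := summable_wt h0.le h1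
  have S1 : Summable (fun k => wt s a b k * (Zk a b k - s ^ 2) ^ 2) := by
    refine summable_wt_mul h0.le h1 hN _ 1 fun k hk => ?_
    have h2 := Zk_nonneg hN hk
    have h3 := Zk_le_one hN hk
    have h4 : s ^ 2 ≤ 1 := pow_le_one₀ (by linarith) (by linarith)
    rw [abs_of_nonneg (sq_nonneg _), sq_le_one_iff_abs_le_one, abs_le]
    constructor <;> nlinarith
  have e1 : ∑' k, wt s a b k * (8 / N + 240 * (Zk a b k - s ^ 2) ^ 2) =
      8 / N * gg s a b + 240 * ∑' k, wt s a b k * (Zk a b k - s ^ 2) ^ 2 := by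
    rw [← tsum_wt, ← tsum_mul_left, ← tsum_mul_left, ← (S0.mul_left _).tsum_add (S1.mul_left _)]
    refine tsum_congr fun k => ?_
    ring
  have e2 : ∑' k, wt s a b k * (al a k - als a w) ^ 2 ≤
      ∑' k, wt s a b k * (8 / N + 240 * (Zk a b k - s ^ 2) ^ 2) := by
    refine Summable.tsum_le_tsum (wt_mul_le h0.le hN fun k hk => al_bound hs hs' ha hN hw hk)
      (summable_al_sq hs hs' ha hN hw) ?_
    have : (fun k => wt s a b k * (8 / N + 240 * (Zk a b k - s ^ 2) ^ 2)) = fun k =>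
        8 / N * wt s a b k + 240 * (wt s a b k * (Zk a b k - s ^ 2) ^ 2) := by
      funext k; ring
    rw [this]
    exact (S0.mul_left _).add (S1.mul_left _)
  have e3 := var_Z h0 h1 hN (a := a) (b := b)
  have g0 : 0 ≤ gg s a b := gg_nonneg h0.le a b
  have hNpos : (0 : ℝ) < N := by exact_mod_cast hN.one_le
  have gN : 0 ≤ gg s a b / N := div_nonneg g0 hNpos.le
  have e4 : 12 / (N : ℝ) * gg s a b = 12 * (gg s a b / N) := by ring
  have e5 : 8 / (N : ℝ) * gg s a b = 8 * (gg s a b / N) := by ring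
  have e6 : 3000 / (N : ℝ) * gg s a b = 3000 * (gg s a b / N) := by ring
  rw [e6]
  rw [e4] at e3
  rw [e1, e5] at e2
  linarith

end Pool.Agent.Lib.MP_609849_pr
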