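import Pool.Agent.Lib.MP_609849_pr.C4

/-! Row C5. The ratio `A(a,b) = gg (a+2) b / gg a b` for `a, b ≥ 0` of the same parity, `N = max a b ≥ 1`.

`gg_al`: `R1` divided by `k+a+2 > 0`. `abs_mean` (Cauchy-Schwarz `(∑ wt |f|)² ≤ (∑ wt)(∑ wt f²)`, or `|f| ≤ (θ + f²/θ)/2` with
`θ = √(3000/N)`): `∑ wt |α - α*| ≤ √(3000/N) gg ≤ (55/√N) gg`. `A_near`: `A - α* = (∑ wt (α - α*))/gg`.
`A_ge`: two steps of `gg_step` (`(a,b) = (a+2,b) + (-1,1) + (-1,-1)`), `(s/4)² ≥ 1/25`. `A_le`: `α ≤ 1` for `k ≥ N` (`α ≥ 0` also).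
`A_step`: (1) `e = (2,0)`: `gg (a+4) b = ∑ wt X Y`, `X = α(k)`, `Y = (k-a-2)/(k+a+4)` (`R1` twice), `|Y - α| ≤ 4/(k+a+2) ≤ 4/N`.
(2) `e = (1,1)`: `gg (a+1) (b+1) = ∑_k s^(k+1) P (k+1) (a+1) P (k+1) (b+1)` (the term at time `0` vanishes, `a+1 ≥ 1`), so by `R2` it is
`∑ wt X`, `X = s (k+1)²/((k+a+2)(k+b+2)) ∈ [0,1]`; by `R1` at `(k+1, a+1)`: `gg (a+3) (b+1) = ∑ wt X Y`, `Y = (k-a)/(k+a+4)`,
`|Y - α| ≤ 2/N`. In both cases `A(a+e₁, b+e₂) = ∑ wt X Y / ∑ wt X`, `0 ≤ X ≤ 1`, so
`|A(a+e₁,b+e₂) - α*| ≤ (∑ wt |Y - α*|)/∑ wt X ≤ 25 (55/√N + 4/N) ≤ 1475/√N` (`∑ wt X ≥ gg/25` by `gg_step` twice or once), and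
`|A(a,b) - α*| ≤ 55/√N`. -/

namespace Pool.Agent.Lib.MP_609849_pr

/-- ratio of the Green function -/
noncomputable def rA (s : ℝ) (a b : ℤ) : ℝ := gg s (a + 2) b / gg s a b

variable {s w : ℝ} {a b : ℤ} {N : ℕ}

theorem wt_al (ha : 0 ≤ a) (k : ℕ) : wt s (a + 2) b k = wt s a b k * al a k := by
  have ha' : (0 : ℝ) ≤ a := by exact_mod_cast ha
  have h := R1 k a
  have hk : (k : ℝ) + a + 2 ≠ 0 := by positivity
  have h2 : P k (a + 2) = P k a * al a k := by
    unfold al
    field_simp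
    linarith
  unfold wt
  rw [h2]
  ring

theorem gg_al (ha : 0 ≤ a) : gg s (a + 2) b = ∑' k, wt s a b k * al a k := by
  rw [← tsum_wt]
  exact tsum_congr fun k => wt_al ha k

theorem al_le_one (ha : 0 ≤ a) (k : ℕ) : al a k ≤ 1 := by
  have ha' : (0 : ℝ) ≤ a := by exact_mod_cast ha
  unfold al
  exact div_le_one_of_le₀ (by linarith) (by positivity)

theorem abs_al_le (ha : 0 ≤ a) (k : ℕ) : |al a k| ≤ 1 := by
  have ha' : (0 : ℝ) ≤ a := by exact_mod_cast ha
  have hk : (0 : ℝ) ≤ k := by positivity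
  unfold al
  rw [abs_div, abs_of_nonneg (by positivity : (0 : ℝ) ≤ (k : ℝ) + a + 2)]
  apply div_le_one_of_le₀ _ (by positivity)
  rw [abs_le]
  constructor <;> linarith

theorem al_nonneg (ha : 0 ≤ a) {k : ℕ} (hk : a ≤ k) : 0 ≤ al a k := by
  have ha' : (0 : ℝ) ≤ a := by exact_mod_cast ha
  have hk' : (a : ℝ) ≤ k := by exact_mod_cast hk
  unfold al
  exact div_nonneg (by linarith) (by positivity)

theorem abs_als_le (ha : 0 ≤ a) : |als a w| ≤ 1 := by
  have ha' : (0 : ℝ) ≤ a := by exact_mod_cast ha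
  have h : 0 ≤ (a : ℝ) * Real.sqrt w := mul_nonneg ha' (Real.sqrt_nonneg _)
  unfold als
  rw [abs_div, abs_of_nonneg (by positivity : 0 ≤ 1 + (a : ℝ) * Real.sqrt w)]
  apply div_le_one_of_le₀ _ (by positivity)
  rw [abs_le]
  constructor <;> linarith

theorem IsMax.a_le (ha : 0 ≤ a) (hN : IsMax a b N) : a ≤ N := by
  have := hN.left
  rwa [abs_of_nonneg ha] at this

theorem IsMax.b_le (hb : 0 ≤ b) (hN : IsMax a b N) : b ≤ N := by
  have := hN.right
  rwa [abs_of_nonneg hb] at this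

theorem sqrt_facts {N : ℕ} (hN : 1 ≤ N) : 0 < Real.sqrt N ∧ Real.sqrt N ^ 2 = N ∧ 1 ≤ Real.sqrt N := by
  have h : (1 : ℝ) ≤ N := by exact_mod_cast hN
  refine ⟨Real.sqrt_pos.2 (by linarith), Real.sq_sqrt (by linarith), ?_⟩
  rw [Real.one_le_sqrt]
  exact h

theorem summable_abs_al (hs : 4 / 5 ≤ s) (hs' : s ≤ 32 / 35) (ha : 0 ≤ a) (hN : IsMax a b N) :
    Summable (fun k => wt s a b k * |al a k - als a w|) := by
  refine summable_wt_mul (by linarith) (by linarith) hN _ 2 fun k _ => ?_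
  rw [abs_abs]
  have h1 := abs_al_le ha k
  have h2 := abs_als_le (w := w) ha
  rw [abs_le] at *
  constructor <;> linarith

theorem abs_mean (hs : 4 / 5 ≤ s) (hs' : s ≤ 32 / 35) (ha : 0 ≤ a) (hb : 0 ≤ b)
    (hN : IsMax a b N) (hw : IsW s a b N w) :
    ∑' k, wt s a b k * |al a k - als a w| ≤ 55 / Real.sqrt N * gg s a b := by
  have h0 : 0 < s := by linarith
  have h1 : s < 1 := by linarith
  obtain ⟨q0, q2, q1⟩ := sqrt_facts hN.one_le
  set q := Real.sqrt N with hq
  have S0 : Summable (fun k => wt s a b k) := summable_wt h0.le h1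
  have S2 := summable_al_sq hs hs' ha hN hw
  have S1 := summable_abs_al (w := w) hs hs' ha hN
  have e1 : ∑' k, wt s a b k * |al a k - als a w| ≤
      ∑' k, (55 / (2 * q) * wt s a b k + q / 110 * (wt s a b k * (al a k - als a w) ^ 2)) := by
    refine Summable.tsum_le_tsum (fun k => ?_) S1 ((S0.mul_left _).add (S2.mul_left _))
    have hk := wt_nonneg (a := a) (b := b) h0.le k
    have h2 : |al a k - als a w| ≤ 55 / (2 * q) + q / 110 * (al a k - als a w) ^ 2 := by
      rw [← sq_abs (al a k - als a w)]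
      set x := |al a k - als a w|
      have h3 : 0 ≤ q / 110 * (x - 55 / q) ^ 2 := by positivity
      have h4 : q / 110 * (x - 55 / q) ^ 2 = q / 110 * x ^ 2 - x + 55 / (2 * q) := by
        field_simp
        ring
      linarith
    calc _ ≤ wt s a b k * (55 / (2 * q) + q / 110 * (al a k - als a w) ^ 2) := mul_le_mul_of_nonneg_left h2 hk
      _ = _ := by ring
  rw [(S0.mul_left _).tsum_add (S2.mul_left _), tsum_mul_left, tsum_mul_left, tsum_wt] at e1
  have e2 := var_al hs hs' ha hb hN hw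
  have g0 : 0 ≤ gg s a b := gg_nonneg h0.le a b
  have e3 : q / 110 * ∑' k, wt s a b k * (al a k - als a w) ^ 2 ≤ q / 110 * (3000 / N * gg s a b) :=
    mul_le_mul_of_nonneg_left e2 (by positivity)
  have e4 : q / 110 * (3000 / N * gg s a b) = 300 / 11 * (gg s a b / q) := by
    rw [← q2]
    field_simp
    ring
  have e5 : 55 / (2 * q) * gg s a b = 55 / 2 * (gg s a b / q) := by
    field_simp
  have e6 : 55 / q * gg s a b = 55 * (gg s a b / q) := by
    field_simp
  have gq : 0 ≤ gg s a b / q := by positivity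
  rw [e6]
  rw [e5] at e1
  rw [e4] at e3
  linarith

theorem A_near (hs : 4 / 5 ≤ s) (hs' : s ≤ 32 / 35) (ha : 0 ≤ a) (hb : 0 ≤ b) (hab : 2 ∣ a - b)
    (hN : IsMax a b N) (hw : IsW s a b N w) : |rA s a b - als a w| ≤ 55 / Real.sqrt N := by
  have h0 : 0 < s := by linarith
  have h1 : s < 1 := by linarith
  have g0 : 0 < gg s a b := gg_pos h0 h1 hab
  have S0 : Summable (fun k => wt s a b k) := summable_wt h0.le h1
  have Sa : Summable (fun k => wt s a b k * al a k) :=
    summable_wt_mul h0.le h1 hN _ 1 fun k _ => abs_al_le ha k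
  have S1 := summable_abs_al (w := w) hs hs' ha hN
  have e1 : rA s a b - als a w = (∑' k, wt s a b k * (al a k - als a w)) / gg s a b := by
    have h2 : (fun k => wt s a b k * (al a k - als a w)) = fun k => wt s a b k * al a k - wt s a b k * als a w := by
      funext k; ring
    rw [h2, Sa.tsum_sub (S0.mul_right _), tsum_mul_right, tsum_wt, ← gg_al ha]
    unfold rA
    field_simp
  rw [e1, abs_div, abs_of_pos g0, div_le_iff₀ g0]
  have e2 : |∑' k, wt s a b k * (al a k - als a w)| ≤ ∑' k, wt s a b k * |al a k - als a w| := by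
    have h3 : (fun k => ‖wt s a b k * (al a k - als a w)‖) = fun k => wt s a b k * |al a k - als a w| := by
      funext k
      rw [Real.norm_eq_abs, abs_mul, abs_of_nonneg (wt_nonneg h0.le k)]
    have h4 := norm_tsum_le_tsum_norm (f := fun k => wt s a b k * (al a k - als a w)) (by rw [h3]; exact S1)
    rw [h3, Real.norm_eq_abs] at h4
    exact h4
  exact e2.trans (abs_mean hs hs' ha hb hN hw)

theorem A_ge_aux (hs : 4 / 5 ≤ s) (hs' : s ≤ 32 / 35) : 1 / 25 * gg s a b ≤ gg s (a + 2) b := by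
  have h0 : 0 < s := by linarith
  have h1 : s < 1 := by linarith
  have e1 := gg_step h0.le h1 (a + 2) b (x := -1) (y := 1) (by norm_num) (by norm_num)
  have e2 := gg_step h0.le h1 (a + 2 + -1) (b + 1) (x := -1) (y := -1) (by norm_num) (by norm_num)
  rw [show a + 2 + -1 + -1 = a by ring, show b + 1 + -1 = b by ring] at e2
  have g0 : 0 ≤ gg s a b := gg_nonneg h0.le a b
  have g1 : 0 ≤ gg s (a + 2 + -1) (b + 1) := gg_nonneg h0.le _ _
  have s4 : 1 / 5 ≤ s / 4 := by linarith
  have e3 : 1 / 5 * gg s a b ≤ s / 4 * gg s a b := mul_le_mul_of_nonneg_right s4 g0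
  have e4 : 1 / 5 * gg s (a + 2 + -1) (b + 1) ≤ s / 4 * gg s (a + 2 + -1) (b + 1) := mul_le_mul_of_nonneg_right s4 g1
  linarith

theorem A_ge (hs : 4 / 5 ≤ s) (hs' : s ≤ 32 / 35) (hab : 2 ∣ a - b) : 1 / 25 ≤ rA s a b := by
  have g0 : 0 < gg s a b := gg_pos (by linarith) (by linarith) hab
  unfold rA
  rw [le_div_iff₀ g0]
  exact A_ge_aux hs hs'

theorem A_le (hs : 4 / 5 ≤ s) (hs' : s ≤ 32 / 35) (ha : 0 ≤ a) (hab : 2 ∣ a - b) : rA s a b ≤ 1 := by
  have h0 : 0 < s := by linarith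
  have h1 : s < 1 := by linarith
  have g0 : 0 < gg s a b := gg_pos h0 h1 hab
  unfold rA
  rw [div_le_one g0, gg_al ha, ← tsum_wt]
  have S0 : Summable (fun k => wt s a b k) := summable_wt h0.le h1
  have hb : ∀ k, wt s a b k * al a k ≤ wt s a b k := fun k =>
    mul_le_of_le_one_right (wt_nonneg h0.le k) (al_le_one ha k)
  have Sa : Summable (fun k => wt s a b k * al a k) := by
    refine Summable.of_norm_bounded S0 fun k => ?_
    rw [Real.norm_eq_abs, abs_mul, abs_of_nonneg (wt_nonneg h0.le k)]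
    exact mul_le_of_le_one_right (wt_nonneg h0.le k) (abs_al_le ha k)
  exact Summable.tsum_le_tsum hb Sa S0

/-- perturbation of the mean -/
theorem ratio_aux (hs : 4 / 5 ≤ s) (hs' : s ≤ 32 / 35) (ha : 0 ≤ a) (hb : 0 ≤ b) (hab : 2 ∣ a - b)
    (hN : IsMax a b N) (X Y : ℕ → ℝ) (hX0 : ∀ k, N ≤ k → 0 ≤ X k) (hX1 : ∀ k, N ≤ k → X k ≤ 1)
    (hY : ∀ k, N ≤ k → |Y k - al a k| ≤ 4 / N) (hG : 1 / 25 * gg s a b ≤ ∑' k, wt s a b k * X k) :
    |(∑' k, wt s a b k * (X k * Y k)) / (∑' k, wt s a b k * X k) - rA s a b| ≤ 1600 / Real.sqrt N := by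
  have h0 : 0 < s := by linarith
  have h1 : s < 1 := by linarith
  obtain ⟨w, hw⟩ := exists_w h0 h1 hN
  obtain ⟨q0, q2, q1⟩ := sqrt_facts hN.one_le
  have hnear := A_near hs hs' ha hb hab hN hw
  have hmean := abs_mean hs hs' ha hb hN hw
  set q := Real.sqrt N with hq
  have hNpos : (0 : ℝ) < N := by exact_mod_cast hN.one_le
  have g0 : 0 < gg s a b := gg_pos h0 h1 hab
  have hN4 : (4 : ℝ) / N ≤ 4 / q := by
    apply div_le_div_of_nonneg_left (by norm_num) q0
    rw [← q2]
    nlinarith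
  have hN4' : (4 : ℝ) / N ≤ 4 := by
    rw [div_le_iff₀ hNpos]
    have : (1 : ℝ) ≤ N := by exact_mod_cast hN.one_le
    linarith
  have hYb : ∀ k, N ≤ k → |Y k| ≤ 5 := by
    intro k hk
    have e1 := hY k hk
    have e2 := abs_al_le ha k
    rw [abs_le] at *
    constructor <;> linarith
  have S0 : Summable (fun k => wt s a b k) := summable_wt h0.le h1
  have SX : Summable (fun k => wt s a b k * X k) :=
    summable_wt_mul h0.le h1 hN _ 1 fun k hk => by rw [abs_of_nonneg (hX0 k hk)]; exact hX1 k hk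
  have SXY : Summable (fun k => wt s a b k * (X k * Y k)) :=
    summable_wt_mul h0.le h1 hN _ 5 fun k hk => by
      rw [abs_mul, abs_of_nonneg (hX0 k hk)]
      calc X k * |Y k| ≤ 1 * 5 := mul_le_mul (hX1 k hk) (hYb k hk) (abs_nonneg _) zero_le_one
        _ = 5 := one_mul 5
  have S1 := summable_abs_al (w := w) hs hs' ha hN
  have Sd : Summable (fun k => wt s a b k * (X k * |Y k - als a w|)) :=
    summable_wt_mul h0.le h1 hN _ 6 fun k hk => by
      have e1 := hYb k hk
      have e2 := abs_als_le (w := w) ha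
      have e3 : |Y k - als a w| ≤ 6 := by
        rw [abs_le] at *
        constructor <;> linarith
      rw [abs_mul, abs_of_nonneg (hX0 k hk), abs_abs]
      calc X k * |Y k - als a w| ≤ 1 * 6 := mul_le_mul (hX1 k hk) e3 (abs_nonneg _) zero_le_one
        _ = 6 := one_mul 6
  set G1 := ∑' k, wt s a b k * X k with hG1
  set G2 := ∑' k, wt s a b k * (X k * Y k) with hG2
  have hG1pos : 0 < G1 := by linarith
  have e1 : G2 - als a w * G1 = ∑' k, wt s a b k * (X k * (Y k - als a w)) := by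
    have h2 : (fun k => wt s a b k * (X k * (Y k - als a w))) =
        fun k => wt s a b k * (X k * Y k) - als a w * (wt s a b k * X k) := by
      funext k; ring
    rw [h2, SXY.tsum_sub (SX.mul_left _), tsum_mul_left]
  have e2 : |∑' k, wt s a b k * (X k * (Y k - als a w))| ≤ ∑' k, wt s a b k * (X k * |Y k - als a w|) := by
    have h3 : ∀ k, ‖wt s a b k * (X k * (Y k - als a w))‖ = wt s a b k * (X k * |Y k - als a w|) := by
      intro k
      rcases lt_or_ge k N with hk | hk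
      · rw [wt_eq_zero hN hk]
        simp
      · rw [Real.norm_eq_abs, abs_mul, abs_mul, abs_of_nonneg (wt_nonneg h0.le k), abs_of_nonneg (hX0 k hk)]
    have h4 := norm_tsum_le_tsum_norm (f := fun k => wt s a b k * (X k * (Y k - als a w)))
      (by simp only [h3]; exact Sd)
    simp only [h3] at h4
    rwa [Real.norm_eq_abs] at h4
  have e3 : ∑' k, wt s a b k * (X k * |Y k - als a w|) ≤ 59 / q * gg s a b := by
    have h5 : ∑' k, wt s a b k * (X k * |Y k - als a w|) ≤
        ∑' k, (wt s a b k * |al a k - als a w| + wt s a b k * (4 / q)) := by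
      have h6 : ∀ k, wt s a b k * (X k * |Y k - als a w|) ≤ wt s a b k * (|al a k - als a w| + 4 / q) := by
        refine wt_mul_le h0.le hN fun k hk => ?_
        have i1 := hY k hk
        have i2 := abs_sub_le (Y k) (al a k) (als a w)
        calc X k * |Y k - als a w| ≤ 1 * |Y k - als a w| := mul_le_mul_of_nonneg_right (hX1 k hk) (abs_nonneg _)
          _ ≤ _ := by rw [one_mul]; linarith
      refine Summable.tsum_le_tsum (fun k => ?_) Sd (S1.add (S0.mul_right _))
      have := h6 k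
      rwa [mul_add] at this
    rw [S1.tsum_add (S0.mul_right _), tsum_mul_right, tsum_wt] at h5
    have h7 : 59 / q * gg s a b = 55 / q * gg s a b + gg s a b * (4 / q) := by ring
    rw [h7]
    linarith
  have e4 : |G2 / G1 - als a w| ≤ 1475 / q := by
    have h8 : G2 / G1 - als a w = (G2 - als a w * G1) / G1 := by field_simp
    rw [h8, abs_div, abs_of_pos hG1pos, div_le_iff₀ hG1pos, e1]
    refine e2.trans (e3.trans ?_)
    have h9 : 59 / q * gg s a b = 1475 / q * (1 / 25 * gg s a b) := by ring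
    rw [h9]
    exact mul_le_mul_of_nonneg_left hG (by positivity)
  have e5 := abs_sub_le (G2 / G1) (als a w) (rA s a b)
  rw [abs_sub_comm (als a w)] at e5
  have e6 : 1600 / q = 1475 / q + 55 / q + 70 / q := by ring
  have e7 : 0 ≤ 70 / q := by positivity
  linarith

theorem A_step_two (hs : 4 / 5 ≤ s) (hs' : s ≤ 32 / 35) (ha : 0 ≤ a) (hb : 0 ≤ b) (hab : 2 ∣ a - b)
    (hN : IsMax a b N) : |rA s (a + 2) b - rA s a b| ≤ 1600 / Real.sqrt N := by
  have h0 : 0 < s := by linarith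
  have haN := hN.a_le ha
  have ha' : (0 : ℝ) ≤ a := by exact_mod_cast ha
  have hNpos : (0 : ℝ) < N := by exact_mod_cast hN.one_le
  have e1 : gg s (a + 2) b = ∑' k, wt s a b k * al a k := gg_al ha
  have e2 : gg s (a + 2 + 2) b = ∑' k, wt s a b k * (al a k * al (a + 2) k) := by
    rw [gg_al (by omega)]
    refine tsum_congr fun k => ?_
    rw [wt_al ha, mul_assoc]
  have h := ratio_aux hs hs' ha hb hab hN (fun k => al a k) (fun k => al (a + 2) k)
    (fun k hk => al_nonneg ha (haN.trans (by exact_mod_cast hk))) (fun k _ => al_le_one ha k) ?_ ?_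
  · have e3 : rA s (a + 2) b = (∑' k, wt s a b k * (al a k * al (a + 2) k)) / ∑' k, wt s a b k * al a k := by
      unfold rA
      rw [e2, e1]
    rw [e3]
    exact h
  · intro k hk
    have hk' : (N : ℝ) ≤ k := by exact_mod_cast hk
    have hak : (a : ℝ) ≤ k := by
      have : (a : ℝ) ≤ N := by exact_mod_cast haN
      linarith
    have h2 : al (a + 2) k - al a k = -((4 * k + 4) / (((k : ℝ) + a + 2) * (k + a + 4))) := by
      unfold al
      push_cast
      have h3 : (k : ℝ) + (a + 2) + 2 = k + a + 4 := by ring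
      rw [h3]
      field_simp
      ring
    rw [h2, abs_neg, abs_of_nonneg (by positivity), div_le_div_iff₀ (by positivity) hNpos]
    nlinarith
  · rw [← e1]
    exact A_ge_aux hs hs'

theorem A_step_one (hs : 4 / 5 ≤ s) (hs' : s ≤ 32 / 35) (ha : 0 ≤ a) (hb : 0 ≤ b) (hab : 2 ∣ a - b)
    (hN : IsMax a b N) : |rA s (a + 1) (b + 1) - rA s a b| ≤ 1600 / Real.sqrt N := by
  have h0 : 0 < s := by linarith
  have h1 : s < 1 := by linarith
  have haN := hN.a_le ha
  have ha' : (0 : ℝ) ≤ a := by exact_mod_cast ha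
  have hb' : (0 : ℝ) ≤ b := by exact_mod_cast hb
  have hNpos : (0 : ℝ) < N := by exact_mod_cast hN.one_le
  set X : ℕ → ℝ := fun k => s * (((k : ℝ) + 1) / (k + a + 2)) * (((k : ℝ) + 1) / (k + b + 2)) with hX
  set Y : ℕ → ℝ := fun k => ((k : ℝ) - a) / (k + a + 4) with hY
  have w0 : wt s (a + 1) (b + 1) 0 = 0 := by
    unfold wt
    rw [P_zero (a + 1), if_neg (by omega)]
    ring
  have w1 : ∀ k, wt s (a + 1) (b + 1) (k + 1) = wt s a b k * X k := by
    intro k
    have r1 := R2 k a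
    have r2 := R2 k b
    have n1 : (k : ℝ) + a + 2 ≠ 0 := by positivity
    have n2 : (k : ℝ) + b + 2 ≠ 0 := by positivity
    have p1 : P (k + 1) (a + 1) = ((k : ℝ) + 1) / (k + a + 2) * P k a := by
      field_simp
      linarith
    have p2 : P (k + 1) (b + 1) = ((k : ℝ) + 1) / (k + b + 2) * P k b := by
      field_simp
      linarith
    unfold wt
    rw [p1, p2, hX]
    ring
  have S1 : Summable (wt s (a + 1) (b + 1)) := summable_wt h0.le h1
  have e1 : gg s (a + 1) (b + 1) = ∑' k, wt s a b k * X k := by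
    rw [← tsum_wt, S1.tsum_eq_zero_add, w0, zero_add]
    exact tsum_congr w1
  have e2 : gg s (a + 1 + 2) (b + 1) = ∑' k, wt s a b k * (X k * Y k) := by
    rw [gg_al (by omega), Summable.tsum_eq_zero_add, w0, zero_mul, zero_add]
    · refine tsum_congr fun k => ?_
      rw [w1, mul_assoc]
      congr 2
      unfold al
      rw [hY]
      push_cast
      congr 1 <;> ring
    · refine Summable.of_norm_bounded S1 fun k => ?_
      rw [Real.norm_eq_abs, abs_mul, abs_of_nonneg (wt_nonneg h0.le k)]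
      exact mul_le_of_le_one_right (wt_nonneg h0.le k) (abs_al_le (by omega) k)
  have h := ratio_aux hs hs' ha hb hab hN X Y ?_ ?_ ?_ ?_
  · unfold rA
    rw [e2, e1]
    exact h
  · intro k _
    rw [hX]
    positivity
  · intro k _
    have i1 : ((k : ℝ) + 1) / (k + a + 2) ≤ 1 := div_le_one_of_le₀ (by linarith) (by positivity)
    have i2 : ((k : ℝ) + 1) / (k + b + 2) ≤ 1 := div_le_one_of_le₀ (by linarith) (by positivity)
    have i3 : s * (((k : ℝ) + 1) / (k + a + 2)) ≤ 1 := mul_le_one₀ h1.le (by positivity) i1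
    exact mul_le_one₀ i3 (by positivity) i2
  · intro k hk
    have hk' : (N : ℝ) ≤ k := by exact_mod_cast hk
    have hak : (a : ℝ) ≤ k := by
      have : (a : ℝ) ≤ N := by exact_mod_cast haN
      linarith
    have h2 : Y k - al a k = -((2 * ((k : ℝ) - a)) / (((k : ℝ) + a + 2) * (k + a + 4))) := by
      rw [hY]
      unfold al
      field_simp
      ring
    rw [h2, abs_neg, abs_of_nonneg (div_nonneg (by linarith) (by positivity)), div_le_div_iff₀ (by positivity) hNpos]
    nlinarith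
  · rw [← e1]
    have e3 := gg_step h0.le h1 (a + 1) (b + 1) (x := -1) (y := -1) (by norm_num) (by norm_num)
    rw [show a + 1 + -1 = a by ring, show b + 1 + -1 = b by ring] at e3
    have g0 : 0 ≤ gg s a b := gg_nonneg h0.le a b
    have s4 : 1 / 25 ≤ s / 4 := by linarith
    exact (mul_le_mul_of_nonneg_right s4 g0).trans e3

end Pool.Agent.Lib.MP_609849_pr
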