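import Pool.Agent.Lib.MP_609849_pr.C5

/-! Row C6. Slow variation of `gg(a - xa, b - xb)/gg(a, b)`.

`A_shift`: the set of the `(c,d)` with the property is closed under addition and negation (replace `a, b` by `a + c, b + d`,
enlarge `M`), contains `(2,0)` and `(1,1)` (`A_step_two`, `A_step_one`, `N = max a b ≥ M`, `1600/√N → 0`), and
`(c,d) = d (1,1) + ((c-d)/2) (2,0)`.
`slow_T`: put `a = 2i`, `b = 2(5t - i - 1) ≥ 2t`. The first value is `T(a+2, b)`, the second `T(a, b+2)`, and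
`T(a+2,b) = T(a,b+2) * (A(a-xa, b-xb)/A(a,b)) * (A(b,a)/A(b-xb, a-xa))` (`gg_comm`). `T` is bounded (`gg_harnack`), the four `A` are in
`[1/25, 1]` (`A_ge`, `A_le`) and the differences tend to `0` (`A_shift` for `(-xa,-xb)` and for `(-xb,-xa)`).
`gap_T`: `Tq 2 0 a b = 1/A(a-2,b)`. At `(2t, 8t)`, `N = 8t`: `u = 2t √w ≤ 1/4` (`(8t)² w ≤ 1`), `als ≥ (3/4)/(5/4) = 3/5`. At `(8t, 2t)`:
`u = 8t√w`, `(1-u²)(1-u²/16) = s²`, so `(17/16)u² ≥ 1 - s² ≥ 201/1225`, `u² ≥ 0.1521 = 0.39²`, `als ≤ 0.61/1.39 ≤ 0.44`. With `A_near` and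
`A_shift` for `(-2, 0)` the values `A(2t-2,8t)`, `A(8t-2,2t)` differ by at least `0.1` for large `t`, and
`|1/A - 1/A'| ≥ |A - A'|` as `A, A' ≤ 1`. -/

namespace Pool.Agent.Lib.MP_609849_pr

variable {s : ℝ}

noncomputable def Tq (s : ℝ) (xa xb a b : ℤ) : ℝ := gg s (a - xa) (b - xb) / gg s a b

/-- the property of the shift `(c, d)` -/
def Shift (s : ℝ) (c d : ℤ) : Prop :=
  ∀ ε > 0, ∃ M : ℤ, ∀ a b, M ≤ a → M ≤ b → 2 ∣ a - b → |rA s (a + c) (b + d) - rA s a b| < ε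

theorem Shift.zero : Shift s 0 0 := by
  intro ε hε
  exact ⟨0, fun a b _ _ _ => by simpa using hε⟩

theorem Shift.add {c d c' d' : ℤ} (hcd : 2 ∣ c - d) (h : Shift s c d) (h' : Shift s c' d') :
    Shift s (c + c') (d + d') := by
  intro ε hε
  obtain ⟨M, hM⟩ := h (ε / 2) (by linarith)
  obtain ⟨M', hM'⟩ := h' (ε / 2) (by linarith)
  refine ⟨max M (M' + |c| + |d|), fun a b ha hb hab => ?_⟩
  have hc := neg_abs_le c
  have hd := neg_abs_le d
  have hc' := abs_nonneg c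
  have hd' := abs_nonneg d
  have ha1 := (le_max_left M (M' + |c| + |d|)).trans ha
  have ha2 := (le_max_right M (M' + |c| + |d|)).trans ha
  have hb1 := (le_max_left M (M' + |c| + |d|)).trans hb
  have hb2 := (le_max_right M (M' + |c| + |d|)).trans hb
  have h1 := hM a b ha1 hb1 hab
  have h2 := hM' (a + c) (b + d) (by linarith) (by linarith) (by omega)
  have h3 := abs_sub_le (rA s (a + (c + c')) (b + (d + d'))) (rA s (a + c) (b + d)) (rA s a b)
  rw [add_assoc, add_assoc] at h2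
  linarith

theorem Shift.neg {c d : ℤ} (hcd : 2 ∣ c - d) (h : Shift s c d) : Shift s (-c) (-d) := by
  intro ε hε
  obtain ⟨M, hM⟩ := h ε hε
  refine ⟨M + |c| + |d|, fun a b ha hb hab => ?_⟩
  have hc := le_abs_self c
  have hd := le_abs_self d
  have hc' := abs_nonneg c
  have hd' := abs_nonneg d
  have h1 := hM (a + -c) (b + -d) (by linarith) (by linarith) (by omega)
  rw [neg_add_cancel_right, neg_add_cancel_right] at h1
  rw [abs_sub_comm]
  exact h1

theorem isMax_toNat {a b : ℤ} {M : ℤ} (hM : 1 ≤ M) (ha : M ≤ a) (hb : M ≤ b) :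
    IsMax a b (max a b).toNat ∧ M ≤ (max a b).toNat := by
  have h0 : 0 ≤ max a b := by
    have := le_max_left a b
    linarith
  have h1 : ((max a b).toNat : ℤ) = max a b := Int.toNat_of_nonneg h0
  have ha0 : |a| = a := abs_of_nonneg (by linarith)
  have hb0 : |b| = b := abs_of_nonneg (by linarith)
  refine ⟨⟨?_, ?_, ?_, ?_⟩, ?_⟩
  · have := le_max_left a b
    omega
  · rw [h1, ha0]; exact le_max_left _ _
  · rw [h1, hb0]; exact le_max_right _ _
  · rw [h1, ha0, hb0]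
    rcases max_choice a b with h | h
    · left; rw [h]
    · right; rw [h]
  · rw [h1]
    exact ha.trans (le_max_left _ _)

/-- `C/√N` is small for large `N` -/
theorem exists_sqrt_lt (C : ℝ) (ε : ℝ) (hε : 0 < ε) : ∃ M : ℤ, 1 ≤ M ∧ ∀ N : ℕ, M ≤ N → C / Real.sqrt N < ε := by
  obtain ⟨m, hm⟩ := exists_nat_gt ((C / ε) ^ 2)
  refine ⟨max 1 m, le_max_left _ _, fun N hN => ?_⟩
  have h1 : (1 : ℤ) ≤ N := (le_max_left _ _).trans hN
  have h2 : (m : ℤ) ≤ N := (le_max_right _ _).trans hN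
  have h3 : (m : ℝ) ≤ N := by exact_mod_cast h2
  have h4 : (0 : ℝ) < N := by exact_mod_cast (by omega : (0 : ℤ) < N)
  have h5 : 0 < Real.sqrt N := Real.sqrt_pos.2 h4
  rw [div_lt_iff₀ h5, ← div_lt_iff₀' hε]
  apply Real.lt_sqrt_of_sq_lt
  linarith

theorem shift_two (hs : 4 / 5 ≤ s) (hs' : s ≤ 32 / 35) : Shift s 2 0 := by
  intro ε hε
  obtain ⟨M, hM1, hM⟩ := exists_sqrt_lt 1600 ε hε
  refine ⟨M, fun a b ha hb hab => ?_⟩
  obtain ⟨h1, h2⟩ := isMax_toNat hM1 ha hb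
  rw [add_zero]
  exact (A_step_two hs hs' (by linarith) (by linarith) hab h1).trans_lt (hM _ h2)

theorem shift_one (hs : 4 / 5 ≤ s) (hs' : s ≤ 32 / 35) : Shift s 1 1 := by
  intro ε hε
  obtain ⟨M, hM1, hM⟩ := exists_sqrt_lt 1600 ε hε
  refine ⟨M, fun a b ha hb hab => ?_⟩
  obtain ⟨h1, h2⟩ := isMax_toNat hM1 ha hb
  exact (A_step_one hs hs' (by linarith) (by linarith) hab h1).trans_lt (hM _ h2)

theorem A_shift (hs : 4 / 5 ≤ s) (hs' : s ≤ 32 / 35) (c d : ℤ) (hcd : 2 ∣ c - d) :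
    ∀ ε > 0, ∃ M : ℤ, ∀ a b, M ≤ a → M ≤ b → 2 ∣ a - b → |rA s (a + c) (b + d) - rA s a b| < ε := by
  have h1 : ∀ d : ℤ, Shift s d d := by
    intro d
    induction d using Int.induction_on with
    | zero => exact Shift.zero
    | succ n ih => exact ih.add (by simp) (shift_one hs hs')
    | pred n ih => exact ih.add (by simp) ((shift_one hs hs').neg (by simp))
  have h2 : ∀ m : ℤ, Shift s (d + 2 * m) d := by
    intro m
    induction m using Int.induction_on with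
    | zero => simpa using h1 d
    | succ n ih =>
      have := ih.add ⟨n, by ring⟩ (shift_two hs hs')
      rwa [add_zero, show d + 2 * (n : ℤ) + 2 = d + 2 * (n + 1) by ring] at this
    | pred n ih =>
      have := ih.add ⟨-n, by ring⟩ ((shift_two hs hs').neg (by norm_num))
      rwa [neg_zero, add_zero, show d + 2 * (-(n : ℤ)) + -2 = d + 2 * (-n - 1) by ring] at this
  obtain ⟨m, hm⟩ := hcd
  have := h2 m
  rw [← hm, add_sub_cancel] at this
  exact this

/-- quotient of two nearby numbers in `[1/25, 1]` -/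
theorem quot_near {x y δ : ℝ} (hy : 1 / 25 ≤ y) (h : |x - y| < δ) : |x / y - 1| < 25 * δ := by
  have hy0 : 0 < y := by linarith
  have h1 : x / y - 1 = (x - y) / y := by field_simp
  rw [h1, abs_div, abs_of_pos hy0, div_lt_iff₀ hy0]
  have h2 : 0 < δ := (abs_nonneg _).trans_lt h
  nlinarith

theorem slow_T (hs : 4 / 5 ≤ s) (hs' : s ≤ 32 / 35) (xa xb : ℤ) (hx : 2 ∣ xa - xb) :
    ∀ ε > 0, ∃ T : ℕ, ∀ t : ℕ, T ≤ t → ∀ i : ℕ, t ≤ i → i < 4 * t →
      |Tq s xa xb (2 * ((i : ℤ) + 1)) (2 * (5 * t - (i + 1))) - Tq s xa xb (2 * i) (2 * (5 * t - i))| < ε := by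
  intro ε hε
  have h0 : 0 < s := by linarith
  have h1 : s < 1 := by linarith
  obtain ⟨C, hC, hCb⟩ := gg_harnack h0 h1 (-xa) (-xb) (by omega)
  set δ := ε / (51 * C) with hδ
  have hδ0 : 0 < δ := by positivity
  obtain ⟨M1, hM1⟩ := A_shift hs hs' (-xa) (-xb) (by omega) δ hδ0
  obtain ⟨M2, hM2⟩ := A_shift hs hs' (-xb) (-xa) (by omega) δ hδ0
  refine ⟨(max M1 M2).toNat, fun t ht i hi1 hi2 => ?_⟩
  have ht1 : M1 ≤ t := by
    have := le_max_left M1 M2
    omega
  have ht2 : M2 ≤ t := by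
    have := le_max_right M1 M2
    omega
  set a : ℤ := 2 * i with ha
  set b : ℤ := 2 * (5 * t - (i + 1)) with hb
  have e1 : (2 : ℤ) * ((i : ℤ) + 1) = a + 2 := by rw [ha]; ring
  have e2 : (2 : ℤ) * (5 * t - i) = b + 2 := by rw [hb]; ring
  rw [e1, e2]
  have hab : 2 ∣ a - b := ⟨i - (5 * t - (i + 1)), by rw [ha, hb]; ring⟩
  have hba : 2 ∣ b - a := ⟨(5 * t - (i + 1)) - i, by rw [ha, hb]; ring⟩
  have hat : (t : ℤ) ≤ a := by omega
  have hbt : (t : ℤ) ≤ b := by omega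
  have q1 := hM1 a b (by omega) (by omega) hab
  have q2 := hM2 b a (by omega) (by omega) hba
  have p1 := quot_near (A_ge hs hs' hab) q1
  have p2 := quot_near (A_ge hs hs' hba) q2
  have g1 : 0 < gg s a b := gg_pos h0 h1 hab
  have g2 : 0 < gg s (a + -xa) (b + -xb) := gg_pos h0 h1 (by omega)
  have g3 : 0 < gg s (a + 2) b := gg_pos h0 h1 (by omega)
  have g4 : 0 < gg s (b + 2) a := gg_pos h0 h1 (by omega)
  have t1 : Tq s xa xb (a + 2) b = rA s (a + -xa) (b + -xb) / rA s a b * (gg s (a + -xa) (b + -xb) / gg s a b) := by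
    unfold Tq rA
    rw [show a + 2 - xa = a + -xa + 2 by ring, show b - xb = b + -xb by ring]
    field_simp
  have t2 : Tq s xa xb a (b + 2) = rA s (b + -xb) (a + -xa) / rA s b a * (gg s (a + -xa) (b + -xb) / gg s a b) := by
    unfold Tq rA
    rw [show b + 2 - xb = b + -xb + 2 by ring, show a - xa = a + -xa by ring, gg_comm a (b + 2),
      gg_comm (a + -xa) (b + -xb + 2), gg_comm (b + -xb) (a + -xa), gg_comm b a]
    field_simp
  rw [t1, t2, ← sub_mul, abs_mul]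
  have hT : |gg s (a + -xa) (b + -xb) / gg s a b| ≤ C := by
    rw [abs_of_pos (div_pos g2 g1), div_le_iff₀ g1]
    exact hCb a b
  have hd : |rA s (a + -xa) (b + -xb) / rA s a b - rA s (b + -xb) (a + -xa) / rA s b a| < 50 * δ := by
    have h5 := abs_sub_le (rA s (a + -xa) (b + -xb) / rA s a b) 1 (rA s (b + -xb) (a + -xa) / rA s b a)
    rw [abs_sub_comm 1] at h5
    linarith
  calc _ ≤ 50 * δ * C := mul_le_mul hd.le hT (abs_nonneg _) (by positivity)
    _ = 50 / 51 * ε := by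
      rw [hδ]
      field_simp
    _ < ε := by linarith

theorem s_sq (hs : 4 / 5 ≤ s) (hs' : s ≤ 32 / 35) : 201 / 1225 ≤ 1 - s ^ 2 := by
  have := pow_le_pow_left₀ (by linarith) hs' 2
  norm_num at this
  linarith

theorem gap_T (hs : 4 / 5 ≤ s) (hs' : s ≤ 32 / 35) : ∃ δ > 0, ∃ T : ℕ, ∀ t : ℕ, T ≤ t →
    δ ≤ |Tq s 2 0 (2 * t) (8 * t) - Tq s 2 0 (8 * t) (2 * t)| := by
  have h0 : 0 < s := by linarith
  have h1 : s < 1 := by linarith
  obtain ⟨M1, hM1⟩ := A_shift hs hs' (-2) 0 (by norm_num) (1 / 100) (by norm_num)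
  obtain ⟨M2, hM21, hM2⟩ := exists_sqrt_lt 55 (1 / 100) (by norm_num)
  refine ⟨1 / 10, by norm_num, (max M1 M2).toNat, fun t ht => ?_⟩
  have ht1 : M1 ≤ t := by
    have := le_max_left M1 M2
    omega
  have ht2 : M2 ≤ t := by
    have := le_max_right M1 M2
    omega
  have htpos : (1 : ℤ) ≤ t := by omega
  have htpos' : (1 : ℝ) ≤ t := by exact_mod_cast htpos
  have hN1 : IsMax (2 * (t : ℤ)) (8 * t) (8 * t) := by
    refine ⟨by omega, ?_, ?_, Or.inr ?_⟩
    · rw [abs_of_nonneg (by omega)]; push_cast; omega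
    · rw [abs_of_nonneg (by omega)]; push_cast; omega
    · rw [abs_of_nonneg (by omega)]; push_cast; omega
  have hN2 : IsMax (8 * (t : ℤ)) (2 * t) (8 * t) := by
    refine ⟨by omega, ?_, ?_, Or.inl ?_⟩
    · rw [abs_of_nonneg (by omega)]; push_cast; omega
    · rw [abs_of_nonneg (by omega)]; push_cast; omega
    · rw [abs_of_nonneg (by omega)]; push_cast; omega
  have hN8 : (55 : ℝ) / Real.sqrt ((8 * t : ℕ) : ℝ) < 1 / 100 := hM2 (8 * t) (by push_cast; omega)
  obtain ⟨w1, hw1⟩ := exists_w h0 h1 hN1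
  obtain ⟨w2, hw2⟩ := exists_w h0 h1 hN2
  have par1 : (2 : ℤ) ∣ 2 * (t : ℤ) - 8 * t := ⟨-3 * t, by ring⟩
  have par2 : (2 : ℤ) ∣ 8 * (t : ℤ) - 2 * t := ⟨3 * t, by ring⟩
  have n1 := A_near hs hs' (by omega) (by omega) par1 hN1 hw1
  have n2 := A_near hs hs' (by omega) (by omega) par2 hN2 hw2
  have m1 := hM1 (2 * t) (8 * t) (by omega) (by omega) par1
  have m2 := hM1 (8 * t) (2 * t) (by omega) (by omega) par2
  rw [add_zero] at m1 m2
  -- the two limits
  have l1 : 3 / 5 ≤ als (2 * t) w1 := by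
    have hr0 := Real.sqrt_nonneg w1
    have hr2 : Real.sqrt w1 ^ 2 = w1 := Real.sq_sqrt hw1.pos.le
    have hle := hw1.le
    push_cast at hle
    have hu : (8 * (t : ℝ)) * Real.sqrt w1 ≤ 1 := by
      have : ((8 * (t : ℝ)) * Real.sqrt w1) ^ 2 ≤ 1 := by rw [mul_pow, hr2]; exact hle
      rw [sq_le_one_iff_abs_le_one] at this
      exact (le_abs_self _).trans this
    unfold als
    push_cast
    set u := 2 * (t : ℝ) * Real.sqrt w1 with hu'
    have hu4 : u ≤ 1 / 4 := by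
      rw [hu']
      linarith
    have hu0 : 0 ≤ u := by positivity
    rw [le_div_iff₀ (by linarith)]
    linarith
  have l2 : als (8 * t) w2 ≤ 44 / 100 := by
    have hr0 := Real.sqrt_nonneg w2
    have hr2 : Real.sqrt w2 ^ 2 = w2 := Real.sq_sqrt hw2.pos.le
    have heq := hw2.eq
    push_cast at heq
    unfold als
    push_cast
    set u := 8 * (t : ℝ) * Real.sqrt w2 with hu'
    have hu0 : 0 ≤ u := by positivity
    have hu2 : u ^ 2 = (8 * (t : ℝ)) ^ 2 * w2 := by rw [hu', mul_pow, hr2]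
    have hu3 : (2 * (t : ℝ)) ^ 2 * w2 = u ^ 2 / 16 := by rw [hu2]; ring
    rw [← hu2, hu3] at heq
    have hss := s_sq hs hs'
    have hu5 : (39 / 100 : ℝ) ^ 2 ≤ u ^ 2 := by nlinarith [sq_nonneg (u ^ 2)]
    have hu6 : 39 / 100 ≤ u := by
      by_contra hlt
      rw [not_le] at hlt
      have := pow_lt_pow_left₀ hlt hu0 (by norm_num : (2 : ℕ) ≠ 0)
      linarith
    rw [div_le_iff₀ (by linarith)]
    linarith
  -- the ratios
  have a1 : 58 / 100 ≤ rA s (2 * t + -2) (8 * t) := by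
    rw [abs_lt] at m1
    rw [abs_le] at n1
    linarith
  have a2 : rA s (8 * t + -2) (2 * t) ≤ 46 / 100 := by
    rw [abs_lt] at m2
    rw [abs_le] at n2
    linarith
  have a3 : rA s (2 * t + -2) (8 * t) ≤ 1 := A_le hs hs' (by omega) (by omega)
  have a4 : 1 / 25 ≤ rA s (8 * t + -2) (2 * t) := A_ge hs hs' (by omega)
  have t1 : Tq s 2 0 (2 * t) (8 * t) = 1 / rA s (2 * t + -2) (8 * t) := by
    unfold Tq rA
    rw [sub_zero, show 2 * (t : ℤ) + -2 + 2 = 2 * t by ring, show 2 * (t : ℤ) - 2 = 2 * t + -2 by ring, one_div_div]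
  have t2 : Tq s 2 0 (8 * t) (2 * t) = 1 / rA s (8 * t + -2) (2 * t) := by
    unfold Tq rA
    rw [sub_zero, show 8 * (t : ℤ) + -2 + 2 = 8 * t by ring, show 8 * (t : ℤ) - 2 = 8 * t + -2 by ring, one_div_div]
  rw [t1, t2]
  set A1 := rA s (2 * t + -2) (8 * t)
  set A2 := rA s (8 * t + -2) (2 * t)
  have hA1 : 0 < A1 := by linarith
  have hA2 : 0 < A2 := by linarith
  have h5 : 1 / A1 - 1 / A2 = -((A1 - A2) / (A1 * A2)) := by
    field_simp
    ring
  rw [h5, abs_neg, abs_of_pos (div_pos (by linarith) (mul_pos hA1 hA2)), le_div_iff₀ (mul_pos hA1 hA2)]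
  nlinarith

end Pool.Agent.Lib.MP_609849_pr
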