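import Pool.Agent.Lib.MP_609849_pr.C6
import Pool.Agent.Lib.MP_609849_pr.B6

/-! Row C8. Slow variation and gap for the Martin kernel of `gr`.

`exists_martinK_eq`: `martinK gr rt x (Fv t i) = D * (gpos s (w - rp x) / gpos s w)`, `w = (5t, 2i - 5t)`; in the coordinates
`a = w.1 + w.2 = 2i`, `b = w.1 - w.2 = 2(5t - i)` this is `D * Tq s xa xb a b` with `xa = v.1 + v.2`, `xb = v.1 - v.2`, `v = rp x`,
`xa - xb = 2 v.2`. `gap_K`: `x = r (1,1)`: `xa = 2`, `xb = 0`, `D = 1`; `i = t`: `a = 2t`, `b = 8t`; `i = 4t`: `a = 8t`, `b = 2t`. -/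

namespace Pool.Agent.Lib.MP_609849_pr

/-- the vertices with `a = 2i`, `b = 2(5t - i)` of the first copy -/
def Fv (t i : ℕ) : Vtx := .r (5 * t, 2 * i - 5 * t)

theorem gpos_Fv (s : ℝ) (v : Pos) (t i : ℕ) :
    gpos s (((5 * t, 2 * i - 5 * t) : Pos) - v) / gpos s ((5 * t, 2 * i - 5 * t) : Pos) =
      Tq s (v.1 + v.2) (v.1 - v.2) (2 * i) (2 * (5 * t - i)) := by
  unfold gpos Tq
  simp only [Prod.fst_sub, Prod.snd_sub]
  congr 2 <;> ring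

theorem slow_K (x : Vtx) : ∀ ε > 0, ∃ T : ℕ, ∀ t : ℕ, T ≤ t → ∀ i : ℕ, t ≤ i → i < 4 * t →
    |martinK gr rt x (Fv t (i + 1)) - martinK gr rt x (Fv t i)| < ε := by
  intro ε hε
  obtain ⟨s, hs, hs', h⟩ := exists_martinK_eq
  obtain ⟨D, hD, _, hx⟩ := h x
  obtain ⟨T, hT⟩ := slow_T hs hs' ((rp x).1 + (rp x).2) ((rp x).1 - (rp x).2) ⟨(rp x).2, by ring⟩ (ε / (D + 1))
    (by positivity)
  refine ⟨T, fun t ht i hi1 hi2 => ?_⟩
  have h1 := hT t ht i hi1 hi2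
  unfold Fv
  rw [hx, hx, gpos_Fv, gpos_Fv, ← mul_sub, abs_mul, abs_of_nonneg hD]
  push_cast
  rw [lt_div_iff₀ (by positivity)] at h1
  have h2 := abs_nonneg (Tq s ((rp x).1 + (rp x).2) ((rp x).1 - (rp x).2) (2 * ((i : ℤ) + 1)) (2 * (5 * t - (i + 1))) -
    Tq s ((rp x).1 + (rp x).2) ((rp x).1 - (rp x).2) (2 * i) (2 * (5 * t - i)))
  linarith

theorem gap_K : ∃ x : Vtx, ∃ δ > 0, ∃ T : ℕ, ∀ t : ℕ, T ≤ t →
    δ ≤ |martinK gr rt x (Fv t t) - martinK gr rt x (Fv t (4 * t))| := by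
  obtain ⟨s, hs, hs', h⟩ := exists_martinK_eq
  obtain ⟨D, _, hD1, hx⟩ := h (.r (1, 1))
  have hD : D = 1 := hD1 rfl
  obtain ⟨δ, hδ, T, hT⟩ := gap_T hs hs'
  refine ⟨.r (1, 1), δ, hδ, T, fun t ht => ?_⟩
  have h1 := hT t ht
  unfold Fv
  rw [hx, hx, gpos_Fv, gpos_Fv, hD, one_mul, one_mul]
  have e1 : (rp (.r (1, 1))).1 + (rp (.r (1, 1))).2 = 2 := by norm_num [rp]
  have e2 : (rp (.r (1, 1))).1 - (rp (.r (1, 1))).2 = 0 := by norm_num [rp]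
  rw [e1, e2]
  push_cast
  rw [show (2 : ℤ) * (5 * t - t) = 8 * t by ring, show (2 : ℤ) * (4 * t) = 8 * t by ring,
    show (2 : ℤ) * (5 * t - 4 * t) = 2 * t by ring]
  exact h1

/-- the vertices leave every finite set -/
theorem Fv_infty (S : Set Vtx) (hS : S.Finite) : ∃ T : ℕ, ∀ t : ℕ, T ≤ t → ∀ i : ℕ, Fv t i ∉ S := by
  obtain ⟨B, hB⟩ := (hS.image (fun x => match x with | .r v => v.1 | .b _ _ _ => (0 : ℤ))).bddAbove
  refine ⟨B.toNat + 1, fun t ht i hm => ?_⟩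
  have h1 := hB ⟨_, hm, rfl⟩
  simp only [Fv] at h1
  omega

end Pool.Agent.Lib.MP_609849_pr
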