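import Pool.Agent.Lib.MP_609849_pr.Defs

/-! Row D1. General facts about compactifications, existence of the smallest one. -/

open Set Filter
open scoped Topology

namespace Pool.Agent.Lib.MP_609849_pr

variable {V : Type}

theorem eq_singleton_of_dense {Z : Type} [TopologicalSpace Z] [T2Space Z] {i : V → Z} (hd : DenseRange i) {v : V}
    {O : Set Z} (hO : IsOpen O) (h : O ∩ range i = {i v}) : O = {i v} := by
  have hv : i v ∈ O := by
    have : i v ∈ O ∩ range i := by rw [h]; exact mem_singleton _
    exact this.1
  refine Subset.antisymm ?_ (singleton_subset_iff.2 hv)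
  intro z hz
  by_contra hne
  have h1 : IsOpen (O \ {i v}) := hO.sdiff isClosed_singleton
  obtain ⟨y, hy⟩ := hd.exists_mem_open h1 ⟨z, hz, hne⟩
  have h2 : i y ∈ O ∩ range i := ⟨hy.1, mem_range_self y⟩
  rw [h] at h2
  exact hy.2 h2

/-- points of `V` are isolated -/
theorem isOpen_singleton_i (c : Compactification V) (v : V) : IsOpen ({c.i v} : Set c.Z) := by
  obtain ⟨O, hO, h⟩ := c.discr v
  rw [← eq_singleton_of_dense c.dense hO h]
  exact hO

/-- the concrete compactification: closure of the points `(y, K(·, y))` in `OnePoint V × (V → ℝ)` -/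
theorem exists_concrete [Infinite V] (K : V → V → ℝ) (hK : ∀ x, ∃ C : ℝ, ∀ y, |K x y| ≤ C) :
    ∃ (c : Compactification V) (f : V → c.Z → ℝ), (∀ x, Continuous (f x)) ∧ (∀ x y, f x (c.i y) = K x y) ∧
      (∀ z z' : c.Z, z ∉ range c.i → z' ∉ range c.i → (∀ x, f x z = f x z') → z = z') ∧ IsSmallest K c := by
  classical
  letI : TopologicalSpace V := ⊥
  haveI : DiscreteTopology V := ⟨rfl⟩
  let j : V → OnePoint V × (V → ℝ) := fun y => ((y : OnePoint V), fun x => K x y)
  let S : Set (OnePoint V × (V → ℝ)) := closure (range j)
  choose C hC using hK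
  have hScomp : IsCompact S := by
    have h1 : IsCompact ((univ : Set (OnePoint V)) ×ˢ (Set.pi univ fun x => Icc (-C x) (C x))) :=
      isCompact_univ.prod (isCompact_univ_pi fun x => isCompact_Icc)
    refine h1.of_isClosed_subset isClosed_closure ?_
    refine closure_minimal ?_ h1.isClosed
    rintro _ ⟨y, rfl⟩
    refine ⟨mem_univ _, fun x _ => ?_⟩
    exact abs_le.1 (hC x y)
  haveI : CompactSpace S := isCompact_iff_compactSpace.1 hScomp
  let i : V → S := fun y => ⟨j y, subset_closure ⟨y, rfl⟩⟩
  have hinj : Function.Injective i := by
    intro y y' h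
    have h1 : j y = j y' := congrArg Subtype.val h
    have h2 : ((y : OnePoint V)) = (y' : OnePoint V) := congrArg Prod.fst h1
    exact OnePoint.coe_injective h2
  have hOopen : ∀ v : V, IsOpen {z : S | z.1.1 = (v : OnePoint V)} := by
    intro v
    have h1 : IsOpen ({(v : OnePoint V)} : Set (OnePoint V)) := by
      rw [← image_singleton, OnePoint.isOpen_image_coe]
      exact isOpen_discrete _
    exact h1.preimage (continuous_fst.comp continuous_subtype_val)
  have hOr : ∀ v : V, {z : S | z.1.1 = (v : OnePoint V)} ∩ range i = {i v} := by
    intro v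
    ext z
    constructor
    · rintro ⟨h1, y, rfl⟩
      have h2 : ((y : OnePoint V)) = (v : OnePoint V) := h1
      rw [OnePoint.coe_injective h2]
      exact mem_singleton _
    · intro h
      rw [mem_singleton_iff] at h
      subst h
      exact ⟨rfl, v, rfl⟩
  have hdense : DenseRange i := by
    intro z
    rw [closure_subtype, ← range_comp]
    exact z.2
  let c : Compactification V :=
    { Z := S
      i := i
      inj := hinj
      discr := fun v => ⟨_, hOopen v, hOr v⟩
      dense := hdense }
  have hrem : ∀ z : S, z ∉ range i → z.1.1 = OnePoint.infty := by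
    intro z hz
    by_contra hne
    obtain ⟨v, hv⟩ := OnePoint.ne_infty_iff_exists.1 hne
    have h1 := eq_singleton_of_dense hdense (hOopen v) (hOr v)
    have h2 : z ∈ {z : S | z.1.1 = (v : OnePoint V)} := hv.symm
    rw [h1, mem_singleton_iff] at h2
    exact hz ⟨v, h2.symm⟩
  have hfc : ∀ x : V, Continuous (fun z : S => z.1.2 x) := fun x =>
    (continuous_apply x).comp (continuous_snd.comp continuous_subtype_val)
  refine ⟨c, fun x z => z.1.2 x, hfc, fun x y => rfl, ?_, ?_, ?_⟩
  · intro z z' hz hz' h
    apply Subtype.ext
    apply Prod.ext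
    · rw [hrem z hz, hrem z' hz']
    · funext x
      exact h x
  · intro x
    exact ⟨fun z => z.1.2 x, hfc x, fun y => rfl⟩
  · intro c' hc'
    choose f' hf'c hf' using hc'
    let g : c'.Z → OnePoint V := fun z => if h : ∃ v, z = c'.i v then ((h.choose : V) : OnePoint V) else OnePoint.infty
    have hgi : ∀ v, g (c'.i v) = (v : OnePoint V) := by
      intro v
      have h : ∃ w, c'.i v = c'.i w := ⟨v, rfl⟩
      have h2 : g (c'.i v) = ((h.choose : V) : OnePoint V) := dif_pos h
      rw [h2, ← c'.inj h.choose_spec]
    have hgo : ∀ z, z ∉ range c'.i → g z = OnePoint.infty := by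
      intro z hz
      apply dif_neg
      rintro ⟨v, rfl⟩
      exact hz ⟨v, rfl⟩
    have hgc : Continuous g := by
      rw [continuous_def]
      intro U hU
      by_cases hi : OnePoint.infty ∈ U
      · obtain ⟨-, h1⟩ := (OnePoint.isOpen_iff_of_mem hi).1 hU
        have h2 := isCompact_iff_finite.1 h1
        have h3 : (g ⁻¹' U)ᶜ = c'.i '' ((fun v : V => (v : OnePoint V)) ⁻¹' U)ᶜ := by
          ext z
          constructor
          · intro hz
            by_cases hr : z ∈ range c'.i
            · obtain ⟨v, rfl⟩ := hr
              refine ⟨v, ?_, rfl⟩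
              intro hv
              apply hz
              change g (c'.i v) ∈ U
              rw [hgi]
              exact hv
            · exfalso
              apply hz
              change g z ∈ U
              rw [hgo z hr]
              exact hi
          · rintro ⟨v, hv, rfl⟩ hz
            apply hv
            change g (c'.i v) ∈ U at hz
            rw [hgi] at hz
            exact hz
        rw [← isClosed_compl_iff, h3]
        exact (h2.image _).isClosed
      · have h3 : g ⁻¹' U = ⋃ v ∈ (fun v : V => (v : OnePoint V)) ⁻¹' U, {c'.i v} := by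
          ext z
          simp only [mem_preimage, mem_iUnion, mem_singleton_iff, exists_prop]
          constructor
          · intro hz
            by_cases hr : z ∈ range c'.i
            · obtain ⟨v, rfl⟩ := hr
              rw [hgi] at hz
              exact ⟨v, hz, rfl⟩
            · rw [hgo z hr] at hz
              exact absurd hz hi
          · rintro ⟨v, hv, rfl⟩
            rw [hgi]
            exact hv
        rw [h3]
        exact isOpen_biUnion fun v _ => isOpen_singleton_i c' v
    let G : c'.Z → OnePoint V × (V → ℝ) := fun z => (g z, fun x => f' x z)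
    have hGc : Continuous G := hgc.prodMk (continuous_pi fun x => hf'c x)
    have hGi : ∀ v, G (c'.i v) = j v := by
      intro v
      refine Prod.ext (hgi v) ?_
      funext x
      exact hf' x v
    have hGm : ∀ z, G z ∈ S := by
      intro z
      have h1 : z ∈ closure (range c'.i) := c'.dense z
      have h2 := image_closure_subset_closure_image hGc (mem_image_of_mem G h1)
      have h3 : G '' range c'.i = range j := by
        rw [← range_comp]
        congr 1
        funext v
        exact hGi v
      rwa [h3] at h2
    refine ⟨fun z => ⟨G z, hGm z⟩, hGc.subtype_mk _, fun v => Subtype.ext (hGi v)⟩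

end Pool.Agent.Lib.MP_609849_pr
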