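import Pool.Agent.Lib.MP_609849_pr.D1

/-! Row D3. Limits along ultrafilters in a smallest compactification. -/

open Set Filter
open scoped Topology

namespace Pool.Agent.Lib.MP_609849_pr

variable {V : Type}

/-- limits of vertices which leave all finite sets are in the remainder -/
theorem limit_mem_remainder (c : Compactification V) {ι : Type} (U : Ultrafilter ι) (f : ι → V)
    (hf : ∀ v, ∀ᶠ n in U, f n ≠ v) (z : c.Z) (hz : Tendsto (fun n => c.i (f n)) U (𝓝 z)) : z ∈ c.remainder := by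
  rintro ⟨v, rfl⟩
  have h1 : ∀ᶠ n in (U : Filter ι), c.i (f n) ∈ ({c.i v} : Set c.Z) :=
    hz.eventually ((isOpen_singleton_i c v).mem_nhds (mem_singleton _))
  have h2 : ∀ᶠ n in (U : Filter ι), False := by
    filter_upwards [h1, hf v] with n a b
    exact b (c.inj a)
  exact absurd (eventually_false_iff_eq_bot.1 h2) U.neBot.ne

theorem exists_lim {Z : Type} [TopologicalSpace Z] [CompactSpace Z] {ι : Type} (U : Ultrafilter ι) (f : ι → Z) :
    ∃ z, Tendsto f U (𝓝 z) := ⟨_, (U.map f).le_nhds_lim⟩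

/-- in a smallest compactification, two sequences with asymptotically equal kernels have the same limit -/
theorem limit_unique [Infinite V] (K : V → V → ℝ) (hK : ∀ x, ∃ C : ℝ, ∀ y, |K x y| ≤ C) (c : Compactification V)
    (hc : IsSmallest K c) {ι : Type} (U : Ultrafilter ι) (f f' : ι → V)
    (hf : ∀ v, ∀ᶠ n in U, f n ≠ v) (hf' : ∀ v, ∀ᶠ n in U, f' n ≠ v)
    (h : ∀ x, Tendsto (fun n => K x (f n) - K x (f' n)) U (𝓝 0)) (z z' : c.Z)
    (hz : Tendsto (fun n => c.i (f n)) U (𝓝 z)) (hz' : Tendsto (fun n => c.i (f' n)) U (𝓝 z')) : z = z' := by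
  obtain ⟨c0, φ, hφc, hφ, huniq, hs⟩ := exists_concrete K hK
  obtain ⟨π, hπc, hπ⟩ := hc.2 c0 hs.1
  obtain ⟨y, hy⟩ := exists_lim U (fun n => c0.i (f n))
  obtain ⟨y', hy'⟩ := exists_lim U (fun n => c0.i (f' n))
  have m1 := limit_mem_remainder c0 U f hf y hy
  have m2 := limit_mem_remainder c0 U f' hf' y' hy'
  have heq : y = y' := by
    apply huniq y y' m1 m2
    intro x
    have t1 : Tendsto (fun n => K x (f n)) U (𝓝 (φ x y)) := by
      have := ((hφc x).tendsto y).comp hy
      simpa only [Function.comp_def, hφ] using this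
    have t2 : Tendsto (fun n => K x (f' n)) U (𝓝 (φ x y')) := by
      have := ((hφc x).tendsto y').comp hy'
      simpa only [Function.comp_def, hφ] using this
    have t3 := tendsto_nhds_unique (t1.sub t2) (h x)
    linarith
  have t4 : Tendsto (fun n => c.i (f n)) U (𝓝 (π y)) := by
    have := (hπc.tendsto y).comp hy
    simpa only [Function.comp_def, hπ] using this
  have t5 : Tendsto (fun n => c.i (f' n)) U (𝓝 (π y')) := by
    have := (hπc.tendsto y').comp hy'
    simpa only [Function.comp_def, hπ] using this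
  rw [tendsto_nhds_unique hz t4, tendsto_nhds_unique hz' t5, heq]

/-- discrete intermediate value theorem -/
theorem exists_switch (Q : ℕ → Prop) {lo hi : ℕ} (hlh : lo ≤ hi) (h1 : Q lo) (h2 : ¬ Q hi) :
    ∃ i, lo ≤ i ∧ i < hi ∧ Q i ∧ ¬ Q (i + 1) := by
  by_contra hn
  push Not at hn
  have : ∀ n, lo ≤ n → n ≤ hi → Q n := by
    intro n hn1
    induction n, hn1 using Nat.le_induction with
    | base => intro _; exact h1
    | succ n hn1 ih =>
      intro hn2
      exact hn n hn1 hn2 (ih (Nat.le_of_succ_le hn2))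
  exact h2 (this hi hlh le_rfl)

/-- a family of finite paths, leaving every finite set, along which the kernels vary slowly, but the kernels of the two ends of
a path are not asymptotically equal: then the remainder is not totally separated -/
theorem not_totallySeparated [Infinite V] (K : V → V → ℝ) (hK : ∀ x, ∃ C : ℝ, ∀ y, |K x y| ≤ C)
    (c : Compactification V) (hc : IsSmallest K c) (F : ℕ → ℕ → V) (lo hi : ℕ → ℕ) (hlh : ∀ t, lo t ≤ hi t)
    (hinf : ∀ v, ∃ T : ℕ, ∀ t, T ≤ t → ∀ i, F t i ≠ v)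
    (hslow : ∀ x, ∀ ε > 0, ∃ T : ℕ, ∀ t, T ≤ t → ∀ i, lo t ≤ i → i < hi t → |K x (F t (i + 1)) - K x (F t i)| < ε)
    (hgap : ∃ x, ∃ δ > 0, ∃ T : ℕ, ∀ t, T ≤ t → δ ≤ |K x (F t (lo t)) - K x (F t (hi t))|) :
    ¬ TotallySeparatedSpace c.remainder := by
  classical
  intro hts
  let U : Ultrafilter ℕ := Filter.hyperfilter ℕ
  have hU : ∀ T : ℕ, ∀ᶠ t in (U : Filter ℕ), T ≤ t := by
    intro T
    have h1 : (U : Filter ℕ) ≤ atTop := by
      rw [← Nat.cofinite_eq_atTop]
      exact Filter.hyperfilter_le_cofinite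
    exact h1 (eventually_ge_atTop T)
  have hinfU : ∀ g : ℕ → ℕ, ∀ v, ∀ᶠ t in (U : Filter ℕ), F t (g t) ≠ v := by
    intro g v
    obtain ⟨T, hT⟩ := hinf v
    filter_upwards [hU T] with t ht
    exact hT t ht _
  obtain ⟨z1, hz1⟩ := exists_lim U (fun t => c.i (F t (lo t)))
  obtain ⟨z2, hz2⟩ := exists_lim U (fun t => c.i (F t (hi t)))
  have r1 := limit_mem_remainder c U (fun t => F t (lo t)) (hinfU lo) z1 hz1
  have r2 := limit_mem_remainder c U (fun t => F t (hi t)) (hinfU hi) z2 hz2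
  have hne : z1 ≠ z2 := by
    intro he
    obtain ⟨x, δ, hδ, T, hT⟩ := hgap
    obtain ⟨φ, hφc, hφ⟩ := hc.1 x
    have t1 : Tendsto (fun t => K x (F t (lo t))) U (𝓝 (φ z1)) := by
      have := (hφc.tendsto z1).comp hz1
      simpa only [Function.comp_def, hφ] using this
    have t2 : Tendsto (fun t => K x (F t (hi t))) U (𝓝 (φ z2)) := by
      have := (hφc.tendsto z2).comp hz2
      simpa only [Function.comp_def, hφ] using this
    have t3 := (t1.sub t2).abs
    rw [he, sub_self, abs_zero] at t3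
    have h4 : δ ≤ 0 := by
      refine ge_of_tendsto t3 ?_
      filter_upwards [hU T] with t ht
      exact hT t ht
    linarith
  -- separation
  have hcl : IsClosed c.remainder := by
    unfold Compactification.remainder
    rw [isClosed_compl_iff, ← Set.iUnion_singleton_eq_range]
    exact isOpen_iUnion (isOpen_singleton_i c)
  obtain ⟨W, hW, hW1, hW2⟩ := exists_isClopen_of_totally_separated
    (show (⟨z1, r1⟩ : c.remainder) ≠ ⟨z2, r2⟩ from fun h => hne (congrArg Subtype.val h))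
  set C : Set c.Z := Subtype.val '' W with hC
  set D : Set c.Z := Subtype.val '' Wᶜ with hD
  have hCc : IsClosed C := hcl.isClosedEmbedding_subtypeVal.isClosedMap _ hW.1
  have hDc : IsClosed D := hcl.isClosedEmbedding_subtypeVal.isClosedMap _ hW.compl.1
  have hCD : Disjoint C D := by
    rw [Set.disjoint_left]
    rintro _ ⟨a, ha, rfl⟩ ⟨b, hb, hab⟩
    exact hb (by rw [Subtype.ext hab]; exact ha)
  have hun : ∀ z ∈ c.remainder, z ∈ C ∨ z ∈ D := by
    intro z hz
    by_cases hw : (⟨z, hz⟩ : c.remainder) ∈ W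
    · exact Or.inl ⟨_, hw, rfl⟩
    · exact Or.inr ⟨_, hw, rfl⟩
  obtain ⟨O1, O2, hO1, hO2, hCO, hDO, hO⟩ := normal_separation hCc hDc hCD
  -- all points far out are in `O1 ∪ O2`
  have hfin : {v | c.i v ∉ O1 ∪ O2}.Finite := by
    have hcomp : IsCompact (O1 ∪ O2)ᶜ := (hO1.union hO2).isClosed_compl.isCompact
    have hcov : (O1 ∪ O2)ᶜ ⊆ ⋃ v : V, {c.i v} := by
      intro z hz
      by_contra hn
      have hzr : z ∈ c.remainder := by
        rintro ⟨v, rfl⟩
        exact hn (mem_iUnion.2 ⟨v, rfl⟩)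
      rcases hun z hzr with h | h
      · exact hz (Or.inl (hCO h))
      · exact hz (Or.inr (hDO h))
    obtain ⟨t, ht⟩ := hcomp.elim_finite_subcover (fun v => {c.i v}) (isOpen_singleton_i c) hcov
    refine t.finite_toSet.subset ?_
    intro v hv
    have h1 := ht hv
    simp only [mem_iUnion, mem_singleton_iff, exists_prop] at h1
    obtain ⟨w, hw, hvw⟩ := h1
    rw [c.inj hvw]
    exact hw
  have hfar : ∃ T : ℕ, ∀ t, T ≤ t → ∀ i, c.i (F t i) ∈ O1 ∪ O2 := by
    choose Tv hTv using hinf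
    refine ⟨hfin.toFinset.sup Tv, fun t ht i => ?_⟩
    by_contra hn
    have h1 : F t i ∈ hfin.toFinset := by
      rw [Set.Finite.mem_toFinset]
      exact hn
    exact hTv (F t i) t ((Finset.le_sup h1).trans ht) i rfl
  obtain ⟨T0, hT0⟩ := hfar
  have hO1z : z1 ∈ O1 := hCO ⟨_, hW1, rfl⟩
  have hO2z : z2 ∈ O2 := hDO ⟨_, hW2, rfl⟩
  have hsw : ∀ᶠ t in (U : Filter ℕ), ∃ i, lo t ≤ i ∧ i < hi t ∧ c.i (F t i) ∈ O1 ∧ c.i (F t (i + 1)) ∈ O2 := by
    filter_upwards [hz1.eventually (hO1.mem_nhds hO1z), hz2.eventually (hO2.mem_nhds hO2z), hU T0] with t a b ht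
    obtain ⟨i, hi1, hi2, hi3, hi4⟩ := exists_switch (fun i => c.i (F t i) ∈ O1) (hlh t) a
      (fun h => (Set.disjoint_left.1 hO h) b)
    refine ⟨i, hi1, hi2, hi3, ?_⟩
    rcases hT0 t ht (i + 1) with h | h
    · exact absurd h hi4
    · exact h
  let I : ℕ → ℕ := fun t => if h : ∃ i, lo t ≤ i ∧ i < hi t ∧ c.i (F t i) ∈ O1 ∧ c.i (F t (i + 1)) ∈ O2 then h.choose else 0
  have hI : ∀ᶠ t in (U : Filter ℕ), lo t ≤ I t ∧ I t < hi t ∧ c.i (F t (I t)) ∈ O1 ∧ c.i (F t (I t + 1)) ∈ O2 := by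
    filter_upwards [hsw] with t ht
    have h1 : I t = ht.choose := dif_pos ht
    rw [h1]
    exact ht.choose_spec
  obtain ⟨z3, hz3⟩ := exists_lim U (fun t => c.i (F t (I t)))
  obtain ⟨z4, hz4⟩ := exists_lim U (fun t => c.i (F t (I t + 1)))
  have r3 := limit_mem_remainder c U (fun t => F t (I t)) (hinfU I) z3 hz3
  have r4 := limit_mem_remainder c U (fun t => F t (I t + 1)) (hinfU (fun t => I t + 1)) z4 hz4
  have m3 : z3 ∈ O2ᶜ := by
    refine hO2.isClosed_compl.mem_of_tendsto hz3 ?_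
    filter_upwards [hI] with t ht
    exact fun h => (Set.disjoint_left.1 hO ht.2.2.1) h
  have m4 : z4 ∈ O1ᶜ := by
    refine hO1.isClosed_compl.mem_of_tendsto hz4 ?_
    filter_upwards [hI] with t ht
    exact fun h => (Set.disjoint_left.1 hO h) ht.2.2.2
  have hsl : ∀ x, Tendsto (fun t => K x (F t (I t + 1)) - K x (F t (I t))) U (𝓝 0) := by
    intro x
    rw [Metric.tendsto_nhds]
    intro ε hε
    obtain ⟨T, hT⟩ := hslow x ε hε
    filter_upwards [hI, hU T] with t ht1 ht2
    rw [dist_zero_right]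
    exact hT t ht2 (I t) ht1.1 ht1.2.1
  have h34 : z4 = z3 := limit_unique K hK c hc U (fun t => F t (I t + 1)) (fun t => F t (I t)) (hinfU (fun t => I t + 1))
    (hinfU I) hsl z4 z3 hz4 hz3
  rcases hun z3 r3 with h | h
  · rcases hun z4 r4 with h' | h'
    · exact m4 (hCO h')
    · rw [h34] at h'
      exact Set.disjoint_left.1 hCD h h'
  · exact m3 (hDO h)

end Pool.Agent.Lib.MP_609849_pr
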