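import Mathlib

/-!
# Martin boundary of reversible random planar maps: definitions

All maps have a countable vertex set `V`; a map is a simple graph on `V` together with a rotation system
(the counterclockwise order of the edges at every vertex) which comes from a crossing free drawing of the graph,
properly embedded in an open subset of the plane.
-/

open MeasureTheory Set
open scoped ENNReal NNReal Topology

namespace Pool.Agent.Lib.MP_609849_pr

variable {V : Type}

/-! ### Random walk, Green function, Martin kernel -/

section walk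

/-- the degree of a vertex -/
noncomputable def deg (G : SimpleGraph V) (x : V) : ℕ := (G.neighborSet x).ncard

open Classical in
/-- transition probability of simple random walk -/
noncomputable def step (G : SimpleGraph V) (x y : V) : ℝ≥0∞ := if G.Adj x y then (deg G x : ℝ≥0∞)⁻¹ else 0

open Classical in
/-- `n`-step transition probabilities of simple random walk -/
noncomputable def pn (G : SimpleGraph V) : ℕ → V → V → ℝ≥0∞
  | 0, x, y => if x = y then 1 else 0
  | n + 1, x, y => ∑' z, step G x z * pn G n z y

/-- the Green function -/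
noncomputable def green (G : SimpleGraph V) (x y : V) : ℝ≥0∞ := ∑' n, pn G n x y

/-- (for a connected graph one vertex is enough) -/
def Transient (G : SimpleGraph V) : Prop := ∀ x, green G x x < ∞

/-- the Martin kernel `K(x,y) = G(x,y) / G(ρ,y)` -/
noncomputable def martinK (G : SimpleGraph V) (ρ x y : V) : ℝ := (green G x y / green G ρ y).toReal

end walk

/-! ### Compactifications of a discrete space, the Martin compactification -/

/-- a compactification of the discrete space `V` -/
structure Compactification (V : Type) where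
  Z : Type
  [top : TopologicalSpace Z]
  [compact : CompactSpace Z]
  [t2 : T2Space Z]
  i : V → Z
  inj : Function.Injective i
  /-- the image of `V` is a discrete subspace -/
  discr : ∀ v, ∃ O : Set Z, IsOpen O ∧ O ∩ range i = {i v}
  dense : DenseRange i

attribute [instance] Compactification.top Compactification.compact Compactification.t2

/-- every function `K x` extends continuously to the compactification -/
def Extends (K : V → V → ℝ) (c : Compactification V) : Prop :=
  ∀ x, ∃ f : c.Z → ℝ, Continuous f ∧ ∀ y, f (c.i y) = K x y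

/-- the smallest compactification to which all functions `K x` extend continuously -/
def IsSmallest (K : V → V → ℝ) (c : Compactification V) : Prop :=
  Extends K c ∧ ∀ c' : Compactification V, Extends K c' →
    ∃ π : c'.Z → c.Z, Continuous π ∧ ∀ v, π (c'.i v) = c.i v

/-- the remainder `V^ ∖ V` -/
def Compactification.remainder (c : Compactification V) : Set c.Z := (range c.i)ᶜ

/-- `X` is (homeomorphic to) the Martin boundary of `(G, ρ)`; one point if `G` is recurrent -/
def IsMartinBoundary (G : SimpleGraph V) (ρ : V) (X : Type) [TopologicalSpace X] : Prop :=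
  (Transient G → ∃ c : Compactification V, IsSmallest (martinK G ρ) c ∧ Nonempty (X ≃ₜ c.remainder)) ∧
  (¬ Transient G → Nonempty (X ≃ₜ PUnit.{1}))

/-! ### Ends -/

/-- the space of ends: Mathlib's `G.end` (compatible choices of a component of the complement of every finite set of
vertices) with the topology of pointwise equality -/
def Ends (G : SimpleGraph V) : Type := G.end

instance (G : SimpleGraph V) : TopologicalSpace (Ends G) :=
  TopologicalSpace.induced (fun e : Ends G => (e.1 : ∀ j, G.componentComplFunctor.obj j))
    (@Pi.topologicalSpace _ _ (fun _ => ⊥))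

/-! ### Planar maps -/

/-- a drawing of `G` without crossings, properly embedded in the open subset `U` of the plane. Edges are arcs,
`arc x y : [0,1] → U` goes from `x` to `y` and leaves `x` in the direction `dir x y`. -/
structure Drawing (G : SimpleGraph V) where
  U : Set ℂ
  isOpen : IsOpen U
  pos : V → ℂ
  arc : V → V → ℝ → ℂ
  dir : V → V → ℂ
  cont : ∀ x y, G.Adj x y → ContinuousOn (arc x y) (Icc 0 1)
  arc_zero : ∀ x y, G.Adj x y → arc x y 0 = pos x
  arc_symm : ∀ x y, G.Adj x y → ∀ t ∈ Icc (0 : ℝ) 1, arc y x t = arc x y (1 - t)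
  pos_mem : ∀ x, pos x ∈ U
  arc_mem : ∀ x y, G.Adj x y → ∀ t ∈ Icc (0 : ℝ) 1, arc x y t ∈ U
  /-- different vertices are different points -/
  pos_inj : Function.Injective pos
  /-- the interior of an edge contains no vertex -/
  arc_ne_pos : ∀ x y z, G.Adj x y → ∀ t ∈ Ioo (0 : ℝ) 1, arc x y t ≠ pos z
  /-- edges are injective arcs, and the interiors of different edges are disjoint -/
  arc_inj : ∀ x y x' y', G.Adj x y → G.Adj x' y' → ∀ s ∈ Ioo (0 : ℝ) 1, ∀ t ∈ Ioo (0 : ℝ) 1,
    arc x y s = arc x' y' t → (x' = x ∧ y' = y ∧ t = s) ∨ (x' = y ∧ y' = x ∧ t = 1 - s)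
  /-- the embedding into `U` is proper: every compact subset of `U` meets only finitely many edges -/
  proper : ∀ K ⊆ U, IsCompact K →
    {p : V × V | G.Adj p.1 p.2 ∧ ∃ t ∈ Icc (0 : ℝ) 1, arc p.1 p.2 t ∈ K}.Finite
  hasDir : ∀ x y, G.Adj x y → HasDerivWithinAt (arc x y) (dir x y) (Ici 0) 0
  dir_ne : ∀ x y, G.Adj x y → dir x y ≠ 0
  /-- different edges leave a vertex in different directions -/
  dir_inj : ∀ x y z, G.Adj x y → G.Adj x z → SameRay ℝ (dir x y) (dir x z) → y = z

/-- the counterclockwise angle in `(0, 2π]` from the direction `u` to the direction `v` -/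
noncomputable def ccw (u v : ℂ) : ℝ := toIocMod Real.two_pi_pos 0 (Complex.arg (v / u))

/-- `rot x y` is the neighbour of `x` which follows `y` in the counterclockwise order of the edges at `x`
(and `rot x y = y` if `y` is not a neighbour of `x`) -/
def Drawing.Induces {G : SimpleGraph V} (D : Drawing G) (rot : V → V → V) : Prop :=
  (∀ x y, ¬ G.Adj x y → rot x y = y) ∧
  ∀ x y, G.Adj x y → G.Adj x (rot x y) ∧
    ∀ z, G.Adj x z → ccw (D.dir x y) (D.dir x (rot x y)) ≤ ccw (D.dir x y) (D.dir x z)

/-- an (infinite) planar map: connected, locally finite, with a proper embedding in an open subset of the plane which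
gives the rotation system -/
structure IsPlanarMap (G : SimpleGraph V) (rot : V → V → V) : Prop where
  connected : G.Connected
  locFin : ∀ x, (G.neighborSet x).Finite
  drawing : ∃ D : Drawing G, D.Induces rot

/-! ### Random rooted planar maps -/

/-- a map with a set of edges `H` (as a graph) and two vertices -/
structure Data (V : Type) where
  G : SimpleGraph V
  rot : V → V → V
  H : SimpleGraph V
  x : V
  y : V

/-- the σ-algebra generated by the events `a ∼ b`, `rot a b = c`, `ab ∈ H`, `x = a`, `y = a` -/
instance (V : Type) : MeasurableSpace (Data V) := MeasurableSpace.generateFrom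
  {S | (∃ a b, S = {d | d.G.Adj a b}) ∨ (∃ a b c, S = {d | d.rot a b = c}) ∨
    (∃ a b, S = {d | d.H.Adj a b}) ∨ (∃ a, S = {d | d.x = a}) ∨ (∃ a, S = {d | d.y = a})}

/-- transport of the structure by a bijection of the vertices -/
def Data.map (σ : V ≃ V) (d : Data V) : Data V where
  G := d.G.comap σ.symm
  rot := fun a b => σ (d.rot (σ.symm a) (σ.symm b))
  H := d.H.comap σ.symm
  x := σ d.x
  y := σ d.y

/-- measurable functions of the isomorphism class -/
def IsClassFun (F : Data V → ℝ≥0∞) : Prop := Measurable F ∧ ∀ (σ : V ≃ V) (d : Data V), F (d.map σ) = F d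

/-- a random rooted planar map with vertex set `V` -/
structure RandomMap (V : Type) where
  Ω : Type
  [meas : MeasurableSpace Ω]
  P : Measure Ω
  [prob : IsProbabilityMeasure P]
  G : Ω → SimpleGraph V
  rot : Ω → V → V → V
  root : Ω → V
  meas_G : ∀ a b, MeasurableSet {ω | (G ω).Adj a b}
  meas_rot : ∀ a b c, MeasurableSet {ω | rot ω a b = c}
  meas_root : ∀ a, MeasurableSet {ω | root ω = a}
  planar : ∀ ω, IsPlanarMap (G ω) (rot ω)

attribute [instance] RandomMap.meas RandomMap.prob

namespace RandomMap

open Classical in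
/-- a random set `H` of edges, defined jointly with `M`, is an invariant percolation if `(M, H, X₀, X₁)` and
`(M, H, X₁, X₀)` have the same law (equality of the expectations of all measurable functions of the isomorphism class);
`X₀` is the root, `X₁` the first step of simple random walk -/
structure InvPerc (M : RandomMap V) (H : M.Ω → SimpleGraph V) : Prop where
  le : ∀ ω, H ω ≤ M.G ω
  measurable : ∀ a b, MeasurableSet {ω | (H ω).Adj a b}
  inv : ∀ F : Data V → ℝ≥0∞, IsClassFun F →
    ∫⁻ ω, ∑' y, step (M.G ω) (M.root ω) y * F ⟨M.G ω, M.rot ω, H ω, M.root ω, y⟩ ∂M.P =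
    ∫⁻ ω, ∑' y, step (M.G ω) (M.root ω) y * F ⟨M.G ω, M.rot ω, H ω, y, M.root ω⟩ ∂M.P

/-- `(M, X₀, X₁)` and `(M, X₁, X₀)` have the same law -/
def Reversible (M : RandomMap V) : Prop := M.InvPerc (fun _ => ⊥)

/-- `(M, ρ)` is ergodic: every measurable function of the isomorphism class of the map which does not depend on the
root is almost surely constant -/
def Ergodic (M : RandomMap V) : Prop := ∀ F : Data V → ℝ≥0∞, IsClassFun F →
  (∀ (d : Data V) (x y : V), F { d with x := x, y := y } = F d) →
  ∃ c, ∀ᵐ ω ∂M.P, F ⟨M.G ω, M.rot ω, ⊥, M.root ω, M.root ω⟩ = c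

/-- the rooted maps have the same law (as isomorphism classes) -/
def SameLaw (M M' : RandomMap V) : Prop := ∀ F : Data V → ℝ≥0∞, IsClassFun F →
  ∫⁻ ω, F ⟨M.G ω, M.rot ω, ⊥, M.root ω, M.root ω⟩ ∂M.P =
  ∫⁻ ω, F ⟨M'.G ω, M'.rot ω, ⊥, M'.root ω, M'.root ω⟩ ∂M'.P

end RandomMap

/-- the cluster of `x` -/
def cluster (H : SimpleGraph V) (x : V) : Set V := {y | H.Reachable x y}

/-- the number of edges with exactly one endpoint in `K` -/
noncomputable def bdry (G : SimpleGraph V) (K : Set V) : ℕ := {p : V × V | p.1 ∈ K ∧ p.2 ∉ K ∧ G.Adj p.1 p.2}.ncard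

/-- the sum of the degrees of the vertices of `K` -/
noncomputable def vol (G : SimpleGraph V) (K : Set V) : ℕ := ∑ᶠ x ∈ K, deg G x

/-- for every `ε` there is an invariant percolation (on a map with the same law) with finite clusters and
`E (|∂K| / vol K) < ε`, `K` the cluster of the root -/
def RandomMap.InvAmenable (M : RandomMap V) : Prop := ∀ ε : ℝ≥0∞, 0 < ε →
  ∃ M' : RandomMap V, M.SameLaw M' ∧ ∃ H : M'.Ω → SimpleGraph V, M'.InvPerc H ∧
    (∀ᵐ ω ∂M'.P, ∀ x, (cluster (H ω) x).Finite) ∧
    ∫⁻ ω, (bdry (M'.G ω) (cluster (H ω) (M'.root ω)) : ℝ≥0∞) / vol (M'.G ω) (cluster (H ω) (M'.root ω)) ∂M'.P < ε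

/-- **The statement of the problem** for ergodic reversible random planar maps which are simple graphs -/
def Statement : Prop := ∀ (V : Type) [Countable V] [Infinite V] (M : RandomMap V), M.Reversible → M.Ergodic →
  ∀ᵐ ω ∂M.P, ∀ (X : Type) [TopologicalSpace X], IsMartinBoundary (M.G ω) (M.root ω) X →
    (M.InvAmenable → Nonempty (X ≃ₜ PUnit.{1})) ∧
    (¬ M.InvAmenable → Nat.card (Ends (M.G ω)) = 1 → Nonempty (X ≃ₜ Circle)) ∧
    (¬ M.InvAmenable → Infinite (Ends (M.G ω)) → Nonempty (X ≃ₜ Ends (M.G ω)))

end Pool.Agent.Lib.MP_609849_pr
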