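import Pool.Agent.Lib.MP_609849_pr.B4

/-! Rows E1, E2. The ends. -/

open Set Filter
open scoped Topology

namespace Pool.Agent.Lib.MP_609849_pr

/-- the space of ends is totally separated -/
theorem ends_totallySeparated {V : Type} (G : SimpleGraph V) : TotallySeparatedSpace (Ends G) := by
  rw [totallySeparatedSpace_iff_exists_isClopen]
  intro x y hxy
  have h : ∃ j, x.1 j ≠ y.1 j := by
    by_contra h
    push Not at h
    exact hxy (Subtype.ext (funext h))
  obtain ⟨j, hj⟩ := h
  have h1 : @Continuous (Ends G) (∀ j, G.componentComplFunctor.obj j) _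
      (@Pi.topologicalSpace _ _ (fun _ => ⊥)) (fun e => e.1) := continuous_induced_dom
  have h2 : @Continuous (∀ j, G.componentComplFunctor.obj j) (G.componentComplFunctor.obj j)
      (@Pi.topologicalSpace _ _ (fun _ => ⊥)) ⊥ (fun f => f j) := @continuous_apply _ _ (fun _ => ⊥) j
  have h3 : @Continuous (Ends G) (G.componentComplFunctor.obj j) _ ⊥ (fun e => e.1 j) :=
    @Continuous.comp _ _ _ _ (@Pi.topologicalSpace _ _ (fun _ => ⊥)) ⊥ _ _ h2 h1
  let _ : TopologicalSpace (G.componentComplFunctor.obj j) := ⊥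
  have : DiscreteTopology (G.componentComplFunctor.obj j) := ⟨rfl⟩
  refine ⟨(fun e : Ends G => e.1 j) ⁻¹' {x.1 j}, (isClopen_discrete _).preimage h3, rfl, ?_⟩
  intro he
  exact hj he.symm

/-- a ray in the branch at `r u` -/
def ray (u : Pos) (k : ℕ) : Vtx := .b u [] (k, 0)

theorem ray_adj (u : Pos) (k : ℕ) : gr.Adj (ray u k) (ray u (k + 1)) := by
  refine ⟨0, ?_⟩
  unfold ray
  rw [nbr_b _ _ _ (by decide)]
  have : e 0 = (1, 0) := rfl
  rw [this]
  simp

theorem ray_inj (u : Pos) : Function.Injective (ray u) := by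
  intro k l h
  unfold ray at h
  injection h with _ _ h
  have := congrArg Prod.fst h
  simpa using this

theorem ray_far (u : Pos) (K : Finset Vtx) : ∃ N, ∀ k, N ≤ k → ray u k ∉ K := by
  have h1 : {k | ray u k ∈ K}.Finite := K.finite_toSet.preimage (ray_inj u).injOn
  obtain ⟨B, hB⟩ := h1.bddAbove
  refine ⟨B + 1, fun k hk hm => ?_⟩
  have : k ≤ B := hB hm
  omega

theorem ray_comp (u : Pos) (K : Set Vtx) (N : ℕ) (h : ∀ k, N ≤ k → ray u k ∉ K) (k : ℕ) (hk : N ≤ k) :
    gr.componentComplMk (h k hk) = gr.componentComplMk (h N le_rfl) := by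
  induction k, hk using Nat.le_induction with
  | base => rfl
  | succ k hk ih =>
    rw [← ih]
    exact (gr.componentComplMk_eq_of_adj _ _ (ray_adj u k)).symm

/-- the end of the ray -/
noncomputable def rayEnd (u : Pos) : Ends gr :=
  ⟨fun K => gr.componentComplMk (K := (K.unop : Set Vtx)) ((ray_far u K.unop).choose_spec _ le_rfl), by
    intro K L f
    have hLK : L.unop ⊆ K.unop := CategoryTheory.le_of_op_hom f
    have h1 : ∀ k, (ray_far u K.unop).choose ≤ k → ray u k ∉ (L.unop : Set Vtx) := fun k hk hm =>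
      (ray_far u K.unop).choose_spec k hk (hLK hm)
    have hm := SimpleGraph.ComponentCompl.hom_mk (G := gr) (K := (L.unop : Set Vtx)) (L := (K.unop : Set Vtx))
      ((ray_far u K.unop).choose_spec _ le_rfl) (CategoryTheory.le_of_op_hom f)
    refine Eq.trans hm ?_
    have a := ray_comp u (L.unop : Set Vtx) _ h1 (max (ray_far u K.unop).choose (ray_far u L.unop).choose) (le_max_left _ _)
    have b := ray_comp u (L.unop : Set Vtx) _ (ray_far u L.unop).choose_spec
      (max (ray_far u K.unop).choose (ray_far u L.unop).choose) (le_max_right _ _)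
    exact a.symm.trans b⟩

theorem rp_adj {u : Pos} {x y : Vtx} (hx : x ≠ .r u) (h : gr.Adj x y) (hr : rp x = u) : rp y = u := by
  obtain ⟨j, rfl⟩ := h
  rcases x with v | ⟨u', l, v⟩
  · exact absurd (congrArg Vtx.r hr) hx
  · rw [rp_nbr]
    exact hr

theorem infinite_ends : Infinite (Ends gr) := by
  refine Infinite.of_injective rayEnd ?_
  intro u u' h
  by_contra hne
  have h1 : (rayEnd u).1 (Opposite.op {Vtx.r u}) = (rayEnd u').1 (Opposite.op {Vtx.r u}) := by rw [h]
  let φ : gr.ComponentCompl ((({Vtx.r u} : Finset Vtx) : Set Vtx)) → Prop :=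
    SimpleGraph.ComponentCompl.lift (fun v _ => rp v = u) (by
      intro v w hv hw ha
      have hv' : v ≠ .r u := fun h => hv (by simp [h])
      have hw' : w ≠ .r u := fun h => hw (by simp [h])
      exact propext ⟨rp_adj hv' ha, rp_adj hw' ha.symm⟩)
  have h2 := congrArg φ h1
  have h3 : φ ((rayEnd u).1 (Opposite.op {Vtx.r u})) = (rp (ray u (ray_far u {Vtx.r u}).choose) = u) := rfl
  have h4 : φ ((rayEnd u').1 (Opposite.op {Vtx.r u})) = (rp (ray u' (ray_far u' {Vtx.r u}).choose) = u) := rfl
  rw [h3, h4] at h2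
  have h5 : rp (ray u' (ray_far u' {Vtx.r u}).choose) = u := by
    rw [← h2]
    rfl
  exact hne h5.symm

end Pool.Agent.Lib.MP_609849_pr
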