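import Pool.Agent.Lib.MP_609849_pr.MDef

/-! Row F1. The drawing: definitions and elementary estimates.

`pc = (1+i)/2`, `io z = i/(16 z)` (an involution of `ℂ ∖ {0}`), `cz v = v.1 + i v.2`. The copy `none` is drawn with its vertices at
`cz v + pc`; the copy `(u, l)` is the image of this picture by `z ↦ cz u + io (Bm l z)`. `Qs` is the complement of the open square
`(-1/2, 1/2)²`; `HV` are the grid lines, `Gts` the (open) edges from the vertices `cz v + pc` towards `cz v`.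

* `io_io`, `io_inj`: field_simp. `norm_io`: `‖io z‖ = 1/(16 ‖z‖)`.
* `io_gate`: `io pc = pc/8` because `I / (8 (1+I)) = (1+I)/16` (`(1+I)^2 = 2I`); `8^τ * (pc/8) = 8^(-(1-τ)) pc`.
* `Qs_step`: `‖io z‖ ≤ 1/8`, and `|w.1| ≥ 1` or `|w.2| ≥ 1`, `|re| , |im| ≤ ‖·‖`.
* `Bm_Qs`: induction on `l`.
* `ne_of_loc`: with `d = io z'`, `|d.re|, |d.im| ≤ 1/8`. `z ∈ HV`: `z.re = n + 1/2` (or `z.im`), `z.re = w.1 + d.re`, so
  `|n - w.1 + 1/2| ≤ 1/8`, impossible for integers. `z ∈ Gts`: `z = cz v + t pc`: `d.re = v.1 - w.1 + t/2`, `|d.re| ≤ 1/8`, `0 < t/2 ≤ 1/2`, so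
  `v.1 = w.1` and likewise `v.2 = w.2`; then `io z' = t pc`, `z' = io (t pc) = pc/(8t)`, `|z'.re| = |z'.im| = 1/(16 t) < 1/2`. -/

open Set Filter
open scoped Topology

namespace Pool.Agent.Lib.MP_609849_pr

noncomputable def pc : ℂ := ⟨1 / 2, 1 / 2⟩

noncomputable def io (z : ℂ) : ℂ := Complex.I / (16 * z)

noncomputable def cz (v : Pos) : ℂ := ⟨v.1, v.2⟩

noncomputable def Bm : List NZ → ℂ → ℂ
  | [], z => z
  | w :: l, z => Bm l (cz w.1 + io z)

/-- the coordinates of the copies -/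
noncomputable def Am : Option (Pos × List NZ) → ℂ → ℂ
  | none, z => z
  | some (u, l), z => cz u + io (Bm l z)

/-- the complement of the open square -/
def Qs : Set ℂ := {z | 1 / 2 ≤ |z.re| ∨ 1 / 2 ≤ |z.im|}

/-- the grid lines -/
def HV : Set ℂ := {z | (∃ n : ℤ, z.re = n + 1 / 2) ∨ ∃ n : ℤ, z.im = n + 1 / 2}

/-- the edges between copies, drawn from the vertex `cz v + pc` (`t = 1`) towards `cz v` -/
def Gts : Set ℂ := {z | ∃ (v : Pos) (t : ℝ), 1 / 8 < t ∧ t ≤ 1 ∧ z = cz v + t * pc}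

theorem io_io {z : ℂ} (hz : z ≠ 0) : io (io z) = z := by
  unfold io
  have hI : Complex.I ≠ 0 := Complex.I_ne_zero
  field_simp

theorem io_inj {z z' : ℂ} (hz : z ≠ 0) (hz' : z' ≠ 0) (h : io z = io z') : z = z' := by
  rw [← io_io hz, h, io_io hz']

theorem norm_io (z : ℂ) : ‖io z‖ = 1 / (16 * ‖z‖) := by
  unfold io
  rw [norm_div, norm_mul, Complex.norm_I]
  norm_num

theorem pc_sq : pc * pc = Complex.I / 2 := by
  apply Complex.ext
  · simp [pc]
  · simp [pc]
    norm_num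

theorem pc_ne : pc ≠ 0 := by
  intro h
  have := congrArg Complex.re h
  simp [pc] at this

theorem io_smul {t : ℝ} (ht : 0 < t) : io (t * pc) = ((1 / (8 * t) : ℝ) : ℂ) * pc := by
  unfold io
  have ht' : (t : ℂ) ≠ 0 := by exact_mod_cast ht.ne'
  have hp := pc_ne
  have h2 : Complex.I = 2 * (pc * pc) := by rw [pc_sq]; ring
  rw [h2]
  push_cast
  field_simp
  norm_num

theorem io_gate (τ : ℝ) : io (((8 : ℝ) ^ (-τ) : ℝ) * pc) = ((8 : ℝ) ^ (-(1 - τ)) : ℝ) * pc := by
  have h : (0 : ℝ) < (8 : ℝ) ^ (-τ) := Real.rpow_pos_of_pos (by norm_num) _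
  rw [io_smul h]
  congr 2
  rw [neg_sub, Real.rpow_sub (by norm_num), Real.rpow_one, Real.rpow_neg (by norm_num)]
  have h2 : (0 : ℝ) < (8 : ℝ) ^ τ := Real.rpow_pos_of_pos (by norm_num) _
  field_simp

theorem cz_add (v w : Pos) : cz (v + w) = cz v + cz w := by
  apply Complex.ext <;> simp [cz]

theorem cz_zero : cz 0 = 0 := by
  apply Complex.ext <;> simp [cz]

theorem cz_inj : Function.Injective cz := by
  intro v w h
  have h1 := congrArg Complex.re h
  have h2 := congrArg Complex.im h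
  simp only [cz] at h1 h2
  exact Prod.ext (by exact_mod_cast h1) (by exact_mod_cast h2)

theorem Qs_norm {z : ℂ} (hz : z ∈ Qs) : 1 / 2 ≤ ‖z‖ := by
  rcases hz with h | h
  · exact h.trans (Complex.abs_re_le_norm z)
  · exact h.trans (Complex.abs_im_le_norm z)

theorem Qs_ne {z : ℂ} (hz : z ∈ Qs) : z ≠ 0 := by
  have := Qs_norm hz
  intro h
  rw [h, norm_zero] at this
  linarith

theorem half_int (n : ℤ) : 1 / 2 ≤ |(n : ℝ) + 1 / 2| := by
  rcases lt_or_ge n 0 with h | h
  · have h1 : (n : ℝ) ≤ -1 := by exact_mod_cast (by omega : n ≤ -1)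
    rw [abs_of_neg (by linarith)]
    linarith
  · have h1 : (0 : ℝ) ≤ n := by exact_mod_cast h
    rw [abs_of_nonneg (by linarith)]
    linarith

/-- nonzero integer plus a number in `[0, 1/2]` -/
theorem int_add {n : ℤ} (hn : n ≠ 0) {r : ℝ} (h0 : 0 ≤ r) (h1 : r ≤ 1 / 2) : 1 / 2 ≤ |(n : ℝ) + r| := by
  rcases lt_or_gt_of_ne hn with h | h
  · have h2 : (n : ℝ) ≤ -1 := by exact_mod_cast (by omega : n ≤ -1)
    rw [abs_of_neg (by linarith)]
    linarith
  · have h2 : (1 : ℝ) ≤ n := by exact_mod_cast (by omega : 1 ≤ n)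
    rw [abs_of_nonneg (by linarith)]
    linarith

/-- nonzero integer plus a small number -/
theorem int_add' {n : ℤ} (hn : n ≠ 0) {r : ℝ} (h0 : |r| ≤ 1 / 2) : 1 / 2 ≤ |(n : ℝ) + r| := by
  rw [abs_le] at h0
  rcases lt_or_gt_of_ne hn with h | h
  · have h2 : (n : ℝ) ≤ -1 := by exact_mod_cast (by omega : n ≤ -1)
    rw [abs_of_neg (by linarith)]
    linarith
  · have h2 : (1 : ℝ) ≤ n := by exact_mod_cast (by omega : 1 ≤ n)
    rw [abs_of_nonneg (by linarith)]
    linarith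

theorem HV_sub_Qs : HV ⊆ Qs := by
  rintro z (⟨n, hn⟩ | ⟨n, hn⟩)
  · left
    rw [hn]
    exact half_int n
  · right
    rw [hn]
    exact half_int n

theorem re_gate (v : Pos) (t : ℝ) : (cz v + t * pc).re = v.1 + t / 2 := by
  simp [cz, pc]
  ring

theorem im_gate (v : Pos) (t : ℝ) : (cz v + t * pc).im = v.2 + t / 2 := by
  simp [cz, pc]
  ring

theorem pos_ne {v : Pos} (hv : v ≠ 0) : v.1 ≠ 0 ∨ v.2 ≠ 0 := by
  by_contra h
  push Not at h
  exact hv (Prod.ext h.1 h.2)

theorem gate_Qs {v : Pos} (hv : v ≠ 0) {t : ℝ} (h0 : 0 ≤ t) (h1 : t ≤ 1) : cz v + t * pc ∈ Qs := by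
  rcases pos_ne hv with h | h
  · left
    rw [re_gate]
    exact int_add h (by linarith) (by linarith)
  · right
    rw [im_gate]
    exact int_add h (by linarith) (by linarith)

theorem norm_io_le {z : ℂ} (hz : z ∈ Qs) : ‖io z‖ ≤ 1 / 8 := by
  rw [norm_io]
  have := Qs_norm hz
  rw [div_le_div_iff₀ (by positivity) (by norm_num)]
  linarith

theorem Qs_of_small {d : ℂ} (hd : ‖d‖ ≤ 1 / 2) (w : NZ) : cz w.1 + d ∈ Qs := by
  rcases pos_ne w.2 with h | h
  · left
    rw [Complex.add_re]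
    exact int_add' h ((Complex.abs_re_le_norm d).trans hd)
  · right
    rw [Complex.add_im]
    exact int_add' h ((Complex.abs_im_le_norm d).trans hd)

theorem Qs_step {z : ℂ} (hz : z ∈ Qs) (w : NZ) : cz w.1 + io z ∈ Qs :=
  Qs_of_small ((norm_io_le hz).trans (by norm_num)) w

theorem Bm_Qs {z : ℂ} (hz : z ∈ Qs) (l : List NZ) : Bm l z ∈ Qs := by
  induction l generalizing z with
  | nil => exact hz
  | cons w l ih => exact ih (Qs_step hz w)

theorem Bm_append (l : List NZ) (w : NZ) (z : ℂ) : Bm (l ++ [w]) z = cz w.1 + io (Bm l z) := by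
  induction l generalizing z with
  | nil => rfl
  | cons w' l ih => exact ih _

/-- two small discs around different lattice points are disjoint -/
theorem cz_eq_of_norm {v w : Pos} {d d' : ℂ} (h : cz v + d = cz w + d') (hd : ‖d‖ + ‖d'‖ < 1) : v = w ∧ d = d' := by
  have h1 := congrArg Complex.re h
  have h2 := congrArg Complex.im h
  rw [Complex.add_re, Complex.add_re] at h1
  rw [Complex.add_im, Complex.add_im] at h2
  have a1 := Complex.abs_re_le_norm d
  have a2 := Complex.abs_re_le_norm d'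
  have b1 := Complex.abs_im_le_norm d
  have b2 := Complex.abs_im_le_norm d'
  rw [abs_le] at a1 a2 b1 b2
  change (v.1 : ℝ) + d.re = w.1 + d'.re at h1
  change (v.2 : ℝ) + d.im = w.2 + d'.im at h2
  have c1 : (v.1 : ℝ) - w.1 < 1 := by linarith
  have c2 : (w.1 : ℝ) - v.1 < 1 := by linarith
  have c3 : (v.2 : ℝ) - w.2 < 1 := by linarith
  have c4 : (w.2 : ℝ) - v.2 < 1 := by linarith
  have d1 : v.1 - w.1 < 1 := by exact_mod_cast c1
  have d2 : w.1 - v.1 < 1 := by exact_mod_cast c2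
  have d3 : v.2 - w.2 < 1 := by exact_mod_cast c3
  have d4 : w.2 - v.2 < 1 := by exact_mod_cast c4
  have hvw : v = w := Prod.ext (by omega) (by omega)
  refine ⟨hvw, ?_⟩
  rw [hvw] at h
  exact add_left_cancel h

theorem HV_ne {z d : ℂ} (hz : z ∈ HV) (hd : ‖d‖ < 1 / 2) (w : Pos) : z ≠ cz w + d := by
  rintro rfl
  have a1 := Complex.abs_re_le_norm d
  have b1 := Complex.abs_im_le_norm d
  rw [abs_le] at a1 b1
  rcases hz with ⟨n, hn⟩ | ⟨n, hn⟩
  · change (w.1 : ℝ) + d.re = n + 1 / 2 at hn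
    have c1 : (w.1 : ℝ) - n < 1 := by linarith
    have c2 : (0 : ℝ) < w.1 - n := by linarith
    have d1 : w.1 - n < 1 := by exact_mod_cast c1
    have d2 : 0 < w.1 - n := by exact_mod_cast c2
    omega
  · change (w.2 : ℝ) + d.im = n + 1 / 2 at hn
    have c1 : (w.2 : ℝ) - n < 1 := by linarith
    have c2 : (0 : ℝ) < w.2 - n := by linarith
    have d1 : w.2 - n < 1 := by exact_mod_cast c1
    have d2 : 0 < w.2 - n := by exact_mod_cast c2
    omega

/-- a gate edge at `v` meets the disc of radius `< 1/2` around `w` only if `v = w` -/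
theorem gate_eq {v w : Pos} {t : ℝ} {d : ℂ} (h0 : 0 ≤ t) (h1 : t ≤ 1) (hd : ‖d‖ < 1 / 2)
    (h : cz v + t * pc = cz w + d) : v = w ∧ d = t * pc := by
  have e1 := congrArg Complex.re h
  have e2 := congrArg Complex.im h
  rw [re_gate] at e1
  rw [im_gate] at e2
  change (v.1 : ℝ) + t / 2 = w.1 + d.re at e1
  change (v.2 : ℝ) + t / 2 = w.2 + d.im at e2
  have a1 := Complex.abs_re_le_norm d
  have b1 := Complex.abs_im_le_norm d
  rw [abs_le] at a1 b1
  have c1 : (v.1 : ℝ) - w.1 < 1 := by linarith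
  have c2 : (w.1 : ℝ) - v.1 < 1 := by linarith
  have c3 : (v.2 : ℝ) - w.2 < 1 := by linarith
  have c4 : (w.2 : ℝ) - v.2 < 1 := by linarith
  have d1 : v.1 - w.1 < 1 := by exact_mod_cast c1
  have d2 : w.1 - v.1 < 1 := by exact_mod_cast c2
  have d3 : v.2 - w.2 < 1 := by exact_mod_cast c3
  have d4 : w.2 - v.2 < 1 := by exact_mod_cast c4
  have hvw : v = w := Prod.ext (by omega) (by omega)
  refine ⟨hvw, ?_⟩
  rw [hvw] at h
  exact (add_left_cancel h).symm

/-- a point of a copy is not a point of another copy which hangs on it -/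
theorem ne_of_loc {z z' : ℂ} (hz : z ∈ HV ∪ Gts) (hz' : z' ∈ Qs) (w : Pos) : z ≠ cz w + io z' := by
  have hd := norm_io_le hz'
  rcases hz with hz | ⟨v, t, ht0, ht1, rfl⟩
  · exact HV_ne hz (by linarith) w
  · intro h
    obtain ⟨_, h2⟩ := gate_eq (by linarith) ht1 (by linarith) h
    have h3 := io_io (Qs_ne hz')
    rw [h2, io_smul (by linarith)] at h3
    have h4 : 1 / (8 * t) < 1 := by
      rw [div_lt_one (by linarith)]
      linarith
    have h5 : 0 < 1 / (8 * t) := by positivity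
    rw [← h3] at hz'
    have h6 : ((((1 / (8 * t) : ℝ) : ℂ)) * pc).re = 1 / (8 * t) / 2 := by
      simp [pc]
      ring
    have h7 : ((((1 / (8 * t) : ℝ) : ℂ)) * pc).im = 1 / (8 * t) / 2 := by
      simp [pc]
      ring
    rcases hz' with h | h
    · rw [h6, abs_of_pos (by positivity)] at h
      linarith
    · rw [h7, abs_of_pos (by positivity)] at h
      linarith

end Pool.Agent.Lib.MP_609849_pr
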