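import Pool.Agent.Lib.MP_609849_pr.F1

/-! Row F2. Injectivity of the coordinates.

`Can c z`: `z` is a point of the picture in the copy `c` (for a branch copy: outside the open square around `0`).

* `Bm_inj`: `z ∈ HV ∪ Gts`, `z' ∈ HV ∪ Gts`, both in `Qs`, `Bm l z = Bm l' z'` ⇒ `l = l'`, `z = z'`. Induction on `l` from the right
  (`List.reverseRecOn` / `List.reverseRec`), `l'` by cases `l' = []` or `l' = m ++ [w]` (`List.eq_nil_or_concat`).
  `[], []`: clear. `[], m ++ [w]`: `z = cz w + io (Bm m z')` contradicts `ne_of_loc` (`Bm_Qs`). `m ++ [w], []`: the same.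
  `m ++ [w], m' ++ [w']`: `Bm_append`, the norms of `io (Bm ..)` are `≤ 1/8` (`norm_io`, `Qs_norm`), so `w = w'` and
  `io (Bm m z) = io (Bm m' z')` by `cz_eq_of_norm`, then `io_inj` and the induction hypothesis.
* `Am_inj`: the same argument once more for the first step (`none`: `ne_of_loc`). -/

open Set Filter
open scoped Topology

namespace Pool.Agent.Lib.MP_609849_pr

/-- points of the picture in the copy `c` -/
def Can (c : Option (Pos × List NZ)) (z : ℂ) : Prop := z ∈ HV ∪ Gts ∧ (c ≠ none → z ∈ Qs)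

theorem Bm_inj {l l' : List NZ} {z z' : ℂ} (hz : z ∈ HV ∪ Gts) (hq : z ∈ Qs) (hz' : z' ∈ HV ∪ Gts) (hq' : z' ∈ Qs)
    (h : Bm l z = Bm l' z') : l = l' ∧ z = z' := by
  induction l using List.reverseRecOn generalizing l' with
  | nil =>
    rcases List.eq_nil_or_concat l' with rfl | ⟨m, w, rfl⟩
    · exact ⟨rfl, h⟩
    · rw [List.concat_eq_append, Bm_append] at h
      exact absurd h (ne_of_loc hz (Bm_Qs hq' m) w.1)
  | append_singleton m w ih =>
    rw [Bm_append] at h
    rcases List.eq_nil_or_concat l' with rfl | ⟨m', w', rfl⟩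
    · exact absurd h.symm (ne_of_loc hz' (Bm_Qs hq m) w.1)
    · rw [List.concat_eq_append, Bm_append] at h
      have a1 := norm_io_le (Bm_Qs hq m)
      have a2 := norm_io_le (Bm_Qs hq' m')
      obtain ⟨h1, h2⟩ := cz_eq_of_norm h (by linarith)
      have h3 := io_inj (Qs_ne (Bm_Qs hq m)) (Qs_ne (Bm_Qs hq' m')) h2
      obtain ⟨h4, h5⟩ := ih h3
      rw [List.concat_eq_append, h4, Subtype.ext h1]
      exact ⟨rfl, h5⟩

theorem Am_inj {c c' : Option (Pos × List NZ)} {z z' : ℂ} (hz : Can c z) (hz' : Can c' z')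
    (h : Am c z = Am c' z') : c = c' ∧ z = z' := by
  rcases c with _ | ⟨u, l⟩ <;> rcases c' with _ | ⟨u', l'⟩
  · exact ⟨rfl, h⟩
  · exact absurd h (ne_of_loc hz.1 (Bm_Qs (hz'.2 (by simp)) l') u')
  · exact absurd h.symm (ne_of_loc hz'.1 (Bm_Qs (hz.2 (by simp)) l) u)
  · have q := hz.2 (by simp)
    have q' := hz'.2 (by simp)
    change cz u + io (Bm l z) = cz u' + io (Bm l' z') at h
    have a1 := norm_io_le (Bm_Qs q l)
    have a2 := norm_io_le (Bm_Qs q' l')
    obtain ⟨h1, h2⟩ := cz_eq_of_norm h (by linarith)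
    have h3 := io_inj (Qs_ne (Bm_Qs q l)) (Qs_ne (Bm_Qs q' l')) h2
    obtain ⟨h4, h5⟩ := Bm_inj hz.1 q hz'.1 q' h3
    rw [h1, h4]
    exact ⟨rfl, h5⟩

end Pool.Agent.Lib.MP_609849_pr
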