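import Pool.Agent.Lib.MP_609849_pr.F2

/-! Row F3. The edges.

* `arcj_symm`: `j ≠ 3`: `nbr x j` is in the same copy (`cpy_nbr`), `crd (nbr x j) = crd x + e j`, and
  `cz (e j) + bj (opp j) τ = bj j (1 - τ)` (five cases). `j = 3`: if `x = r v` or `x = b u l v` with `v ≠ 0` (not a gate): `nbr x 3` is
  the vertex `0` of the child copy `c'`, `Am c' z = Am (cpy x) (cz (crd x) + io z)`, and `io (bj 3 τ) = bj 3 (1 - τ)` (`io_gate`).
  If `x = b u [] 0` or `b u (w :: l) 0`: the same identity with the roles exchanged (`Am (cpy x) z = Am c' (cz w + io z)`).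
* `IsCan x j τ`: the orientation for which the points are points of the picture of the copy of `x`.
* `can_of`: `j = 0, 1`: `HV` (`im = integer + 1/2` resp. `re = ..`), `j = 3`: `Gts` with `t = 8^(-τ) ∈ (1/8, 1]`, `gate_Qs`.
* `loc_inj`: `j = 0`, `0 ≤ τ < 1`: `im ∈ ℤ + 1/2`, `re = v.1 + 1/2 + τ`; `j = 1`, `0 < τ < 1`: `re ∈ ℤ + 1/2`, `im = v.2 + 1/2 + τ` not in
  `ℤ + 1/2`; `j = 3`: `re = v.1 + t/2`, `im = v.2 + t/2`, `t ∈ (1/8, 1)`, both not in `ℤ + 1/2`. (`Int.floor` or integer arguments: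
  `|integer| < 1`.) `t ↦ 8^(-t)` is injective.
* `can_inj` from `Am_inj`, `loc_inj`; `x = x'` if `cpy` and `crd` agree.
* `exists_can`: `j = 0, 1`, or `j = 3` and `x` not a gate: itself. Otherwise `(nbr x j, opp j, 1 - τ)` (`arcj_symm`, `nbr_nbr`, `opp_opp`;
  `nbr x 3` is not a gate if `x` is a gate). -/

open Set Filter
open scoped Topology

namespace Pool.Agent.Lib.MP_609849_pr

/-- the position of a vertex in its copy -/
def crd : Vtx → Pos
  | .r v => v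
  | .b _ _ v => v

/-- the five arcs which start at `pc` -/
noncomputable def bj (j : Fin 5) (τ : ℝ) : ℂ :=
  ![pc + τ, pc + τ * Complex.I, pc - τ, ((8 : ℝ) ^ (-τ) : ℝ) * pc, pc - τ * Complex.I] j

/-- the edge from `x` to `nbr x j` -/
noncomputable def arcj (x : Vtx) (j : Fin 5) (τ : ℝ) : ℂ := Am (cpy x) (cz (crd x) + bj j τ)

/-- the gates: vertices at which a branch copy is attached to its parent -/
def IsGate (x : Vtx) : Prop := cpy x ≠ none ∧ crd x = 0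

theorem bj_zero_eq (j : Fin 5) : bj j 0 = pc := by
  fin_cases j <;> simp [bj]

theorem arcj_zero (x : Vtx) (j : Fin 5) : arcj x j 0 = Am (cpy x) (cz (crd x) + pc) := by
  unfold arcj
  rw [bj_zero_eq]

theorem crd_nbr (x : Vtx) {j : Fin 5} (hj : j ≠ 3) : crd (nbr x j) = crd x + e j := by
  rcases x with v | ⟨u, l, v⟩
  · rw [nbr_r _ hj]; rfl
  · rw [nbr_b _ _ _ hj]; rfl

theorem bj_opp {j : Fin 5} (hj : j ≠ 3) (τ : ℝ) : cz (e j) + bj (opp j) τ = bj j (1 - τ) := by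
  fin_cases j
  · change cz (1, 0) + (pc - τ) = pc + ((1 - τ : ℝ) : ℂ)
    apply Complex.ext <;> simp [cz]
    ring
  · change cz (0, 1) + (pc - τ * Complex.I) = pc + ((1 - τ : ℝ) : ℂ) * Complex.I
    apply Complex.ext <;> simp [cz]
    ring
  · change cz (-1, 0) + (pc + τ) = pc - ((1 - τ : ℝ) : ℂ)
    apply Complex.ext <;> simp [cz]
    ring
  · exact absurd rfl hj
  · change cz (0, -1) + (pc + τ * Complex.I) = pc - ((1 - τ : ℝ) : ℂ) * Complex.I
    apply Complex.ext <;> simp [cz]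
    ring

theorem io_bj (τ : ℝ) : io (bj 3 τ) = bj 3 (1 - τ) := io_gate τ

theorem arcj_symm (x : Vtx) (j : Fin 5) (τ : ℝ) : arcj (nbr x j) (opp j) τ = arcj x j (1 - τ) := by
  by_cases hj : j = 3
  · subst hj
    change arcj (nbr x 3) 3 τ = arcj x 3 (1 - τ)
    have h1 := io_bj τ
    have h2 := io_bj (1 - τ)
    rw [sub_sub_cancel] at h2
    rcases x with v | ⟨u, l, v⟩
    · rw [nbr_r_three]
      change cz v + io (cz 0 + bj 3 τ) = cz v + bj 3 (1 - τ)
      rw [cz_zero, zero_add, h1]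
    · by_cases hv : v = 0
      · subst hv
        rcases l with _ | ⟨w, l⟩
        · rw [nbr_b_nil_zero]
          change cz u + bj 3 τ = cz u + io (cz 0 + bj 3 (1 - τ))
          rw [cz_zero, zero_add, h2]
        · rw [nbr_b_cons_zero]
          change cz u + io (Bm l (cz w.1 + bj 3 τ)) = cz u + io (Bm l (cz w.1 + io (cz 0 + bj 3 (1 - τ))))
          rw [cz_zero, zero_add, h2]
      · rw [nbr_b_three _ _ _ hv]
        change cz u + io (Bm l (cz v + io (cz 0 + bj 3 τ))) = cz u + io (Bm l (cz v + bj 3 (1 - τ)))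
        rw [cz_zero, zero_add, h1]
  · unfold arcj
    rw [cpy_nbr x hj, crd_nbr x hj, cz_add, add_assoc, bj_opp hj]

/-- canonical orientation -/
def IsCan (x : Vtx) (j : Fin 5) (τ : ℝ) : Prop :=
  (j = 0 ∧ 0 ≤ τ ∧ τ < 1) ∨ (j = 1 ∧ 0 < τ ∧ τ < 1) ∨ (j = 3 ∧ ¬ IsGate x ∧ 0 < τ ∧ τ < 1)

theorem rpow_facts {τ : ℝ} (h0 : 0 ≤ τ) (h1 : τ ≤ 1) : 1 / 8 ≤ (8 : ℝ) ^ (-τ) ∧ (8 : ℝ) ^ (-τ) ≤ 1 := by
  constructor
  · have h := Real.rpow_le_rpow_of_exponent_le (by norm_num : (1 : ℝ) ≤ 8) (by linarith : (-1 : ℝ) ≤ -τ)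
    rw [Real.rpow_neg_one] at h
    norm_num at h ⊢
    exact h
  · have h := Real.rpow_le_rpow_of_exponent_le (by norm_num : (1 : ℝ) ≤ 8) (by linarith : -τ ≤ 0)
    rwa [Real.rpow_zero] at h

theorem rpow_gt {τ : ℝ} (h1 : τ < 1) : 1 / 8 < (8 : ℝ) ^ (-τ) := by
  have h := Real.rpow_lt_rpow_of_exponent_lt (by norm_num : (1 : ℝ) < 8) (by linarith : (-1 : ℝ) < -τ)
  rw [Real.rpow_neg_one] at h
  norm_num at h ⊢
  exact h

theorem rpow_lt {τ : ℝ} (h0 : 0 < τ) : (8 : ℝ) ^ (-τ) < 1 := by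
  have h := Real.rpow_lt_rpow_of_exponent_lt (by norm_num : (1 : ℝ) < 8) (by linarith : -τ < 0)
  rwa [Real.rpow_zero] at h

theorem re0 (v : Pos) (τ : ℝ) : (cz v + bj 0 τ).re = v.1 + 1 / 2 + τ := by
  change (cz v + (pc + τ)).re = _
  simp [cz, pc]
  ring

theorem im0 (v : Pos) (τ : ℝ) : (cz v + bj 0 τ).im = v.2 + 1 / 2 := by
  change (cz v + (pc + τ)).im = _
  simp [cz, pc]

theorem re1 (v : Pos) (τ : ℝ) : (cz v + bj 1 τ).re = v.1 + 1 / 2 := by
  change (cz v + (pc + τ * Complex.I)).re = _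
  simp [cz, pc]

theorem im1 (v : Pos) (τ : ℝ) : (cz v + bj 1 τ).im = v.2 + 1 / 2 + τ := by
  change (cz v + (pc + τ * Complex.I)).im = _
  simp [cz, pc]
  ring

theorem re2 (v : Pos) (τ : ℝ) : (cz v + bj 2 τ).im = v.2 + 1 / 2 := by
  change (cz v + (pc - τ)).im = _
  simp [cz, pc]

theorem re4 (v : Pos) (τ : ℝ) : (cz v + bj 4 τ).re = v.1 + 1 / 2 := by
  change (cz v + (pc - τ * Complex.I)).re = _
  simp [cz, pc]

theorem re3 (v : Pos) (τ : ℝ) : (cz v + bj 3 τ).re = v.1 + (8 : ℝ) ^ (-τ) / 2 := re_gate v _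

theorem im3 (v : Pos) (τ : ℝ) : (cz v + bj 3 τ).im = v.2 + (8 : ℝ) ^ (-τ) / 2 := im_gate v _

/-- the arcs inside a copy are on the grid lines -/
theorem loc_HV (v : Pos) {j : Fin 5} (hj : j ≠ 3) (τ : ℝ) : cz v + bj j τ ∈ HV := by
  fin_cases j
  · exact Or.inr ⟨v.2, im0 v τ⟩
  · exact Or.inl ⟨v.1, re1 v τ⟩
  · exact Or.inr ⟨v.2, re2 v τ⟩
  · exact absurd rfl hj
  · exact Or.inl ⟨v.1, re4 v τ⟩

theorem can_of {x : Vtx} {j : Fin 5} {τ : ℝ} (h : IsCan x j τ) : Can (cpy x) (cz (crd x) + bj j τ) := by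
  rcases h with ⟨rfl, h0, h1⟩ | ⟨rfl, h0, h1⟩ | ⟨rfl, hg, h0, h1⟩
  · have := loc_HV (crd x) (j := 0) (by decide) τ
    exact ⟨Or.inl this, fun _ => HV_sub_Qs this⟩
  · have := loc_HV (crd x) (j := 1) (by decide) τ
    exact ⟨Or.inl this, fun _ => HV_sub_Qs this⟩
  · refine ⟨Or.inr ⟨crd x, (8 : ℝ) ^ (-τ), rpow_gt h1, (rpow_lt h0).le, rfl⟩, fun hc => ?_⟩
    have hv : crd x ≠ 0 := fun h => hg ⟨hc, h⟩
    exact gate_Qs hv (by positivity) (rpow_lt h0).le

theorem int_eq {a b : ℤ} (h1 : (a : ℝ) - b < 1) (h2 : (b : ℝ) - a < 1) : a = b := by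
  have h1' : a - b < 1 := by exact_mod_cast h1
  have h2' : b - a < 1 := by exact_mod_cast h2
  omega

theorem int_no {a b : ℤ} (h1 : (a : ℝ) - b < 1) (h2 : (0 : ℝ) < a - b) : False := by
  have h1' : a - b < 1 := by exact_mod_cast h1
  have h2' : 0 < a - b := by exact_mod_cast h2
  omega

theorem loc_inj {x x' : Vtx} {j j' : Fin 5} {τ τ' : ℝ} (h : IsCan x j τ) (h' : IsCan x' j' τ')
    (he : cz (crd x) + bj j τ = cz (crd x') + bj j' τ') : crd x = crd x' ∧ j = j' ∧ τ = τ' := by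
  have er := congrArg Complex.re he
  have ei := congrArg Complex.im he
  rcases h with ⟨rfl, h0, h1⟩ | ⟨rfl, h0, h1⟩ | ⟨rfl, hg, h0, h1⟩ <;>
    rcases h' with ⟨rfl, h0', h1'⟩ | ⟨rfl, h0', h1'⟩ | ⟨rfl, hg', h0', h1'⟩
  · rw [re0, re0] at er
    rw [im0, im0] at ei
    have a : (crd x).1 = (crd x').1 := int_eq (by linarith) (by linarith)
    have b : (crd x).2 = (crd x').2 := int_eq (by linarith) (by linarith)
    rw [a] at er
    exact ⟨Prod.ext a b, rfl, by linarith⟩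
  · rw [im0, im1] at ei
    exact (int_no (a := (crd x).2) (b := (crd x').2) (by linarith) (by linarith)).elim
  · rw [im0, im3] at ei
    have p1 := rpow_gt h1'
    have p2 := rpow_lt h0'
    exact (int_no (a := (crd x').2) (b := (crd x).2) (by linarith) (by linarith)).elim
  · rw [im1, im0] at ei
    exact (int_no (a := (crd x').2) (b := (crd x).2) (by linarith) (by linarith)).elim
  · rw [re1, re1] at er
    rw [im1, im1] at ei
    have a : (crd x).1 = (crd x').1 := int_eq (by linarith) (by linarith)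
    have b : (crd x).2 = (crd x').2 := int_eq (by linarith) (by linarith)
    rw [b] at ei
    exact ⟨Prod.ext a b, rfl, by linarith⟩
  · rw [re1, re3] at er
    have p1 := rpow_gt h1'
    have p2 := rpow_lt h0'
    exact (int_no (a := (crd x').1) (b := (crd x).1) (by linarith) (by linarith)).elim
  · rw [im3, im0] at ei
    have p1 := rpow_gt h1
    have p2 := rpow_lt h0
    exact (int_no (a := (crd x).2) (b := (crd x').2) (by linarith) (by linarith)).elim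
  · rw [re3, re1] at er
    have p1 := rpow_gt h1
    have p2 := rpow_lt h0
    exact (int_no (a := (crd x).1) (b := (crd x').1) (by linarith) (by linarith)).elim
  · rw [re3, re3] at er
    rw [im3, im3] at ei
    have p1 := rpow_gt h1
    have p2 := rpow_lt h0
    have p1' := rpow_gt h1'
    have p2' := rpow_lt h0'
    have a : (crd x).1 = (crd x').1 := int_eq (by linarith) (by linarith)
    have b : (crd x).2 = (crd x').2 := int_eq (by linarith) (by linarith)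
    rw [a] at er
    refine ⟨Prod.ext a b, rfl, ?_⟩
    have h8 : (8 : ℝ) ^ (-τ) = (8 : ℝ) ^ (-τ') := by linarith
    have := (Real.rpow_right_inj (by norm_num : (0 : ℝ) < 8) (by norm_num : (8 : ℝ) ≠ 1)).1 h8
    linarith

theorem vtx_ext {x y : Vtx} (h1 : cpy x = cpy y) (h2 : crd x = crd y) : x = y := by
  rcases x with v | ⟨u, l, v⟩ <;> rcases y with v' | ⟨u', l', v'⟩
  · change v = v' at h2
    rw [h2]
  · simp [cpy] at h1
  · simp [cpy] at h1
  · simp only [cpy, Option.some.injEq, Prod.mk.injEq] at h1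
    change v = v' at h2
    rw [h1.1, h1.2, h2]

theorem can_inj {x x' : Vtx} {j j' : Fin 5} {τ τ' : ℝ} (h : IsCan x j τ) (h' : IsCan x' j' τ')
    (he : arcj x j τ = arcj x' j' τ') : x = x' ∧ j = j' ∧ τ = τ' := by
  obtain ⟨h1, h2⟩ := Am_inj (can_of h) (can_of h') he
  obtain ⟨h3, h4, h5⟩ := loc_inj h h' h2
  exact ⟨vtx_ext h1 h3, h4, h5⟩

theorem not_gate_nbr {x : Vtx} (h : IsGate x) : ¬ IsGate (nbr x 3) := by
  obtain ⟨h1, h2⟩ := h
  rcases x with v | ⟨u, l, v⟩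
  · exact absurd rfl h1
  · change v = 0 at h2
    subst h2
    rcases l with _ | ⟨w, l⟩
    · rw [nbr_b_nil_zero]
      rintro ⟨h3, _⟩
      exact h3 rfl
    · rw [nbr_b_cons_zero]
      rintro ⟨_, h3⟩
      exact w.2 h3

theorem exists_can (x : Vtx) (j : Fin 5) {τ : ℝ} (h0 : 0 < τ) (h1 : τ < 1) :
    (IsCan x j τ) ∨ (IsCan (nbr x j) (opp j) (1 - τ) ∧ arcj x j τ = arcj (nbr x j) (opp j) (1 - τ)) := by
  have hs : arcj x j τ = arcj (nbr x j) (opp j) (1 - τ) := by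
    rw [arcj_symm, sub_sub_cancel]
  fin_cases j
  · exact Or.inl (Or.inl ⟨rfl, h0.le, h1⟩)
  · exact Or.inl (Or.inr (Or.inl ⟨rfl, h0, h1⟩))
  · exact Or.inr ⟨Or.inl ⟨rfl, by linarith, by linarith⟩, hs⟩
  · by_cases hg : IsGate x
    · exact Or.inr ⟨Or.inr (Or.inr ⟨rfl, not_gate_nbr hg, by linarith, by linarith⟩), hs⟩
    · exact Or.inl (Or.inr (Or.inr ⟨rfl, hg, h0, h1⟩))
  · exact Or.inr ⟨Or.inr (Or.inl ⟨rfl, by linarith, by linarith⟩), hs⟩

/-- vertices are different from inner points of edges and from each other -/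
theorem pos_inj_aux {x y : Vtx} (h : arcj x 0 0 = arcj y 0 0) : x = y :=
  (can_inj (Or.inl ⟨rfl, le_rfl, zero_lt_one⟩) (Or.inl ⟨rfl, le_rfl, zero_lt_one⟩) h).1

theorem arc_ne_pos_aux (x : Vtx) (j : Fin 5) (z : Vtx) {τ : ℝ} (h0 : 0 < τ) (h1 : τ < 1) : arcj x j τ ≠ arcj z 0 0 := by
  intro h
  have hz : IsCan z 0 0 := Or.inl ⟨rfl, le_rfl, zero_lt_one⟩
  rcases exists_can x j h0 h1 with hc | ⟨hc, he⟩
  · have := (can_inj hc hz h).2.2
    linarith
  · rw [he] at h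
    have := (can_inj hc hz h).2.2
    linarith

theorem arc_inj_aux {x x' : Vtx} {j j' : Fin 5} {s t : ℝ} (hs : 0 < s) (hs1 : s < 1) (ht : 0 < t) (ht1 : t < 1)
    (h : arcj x j s = arcj x' j' t) :
    (x' = x ∧ j' = j ∧ t = s) ∨ (x' = nbr x j ∧ j' = opp j ∧ t = 1 - s) := by
  rcases exists_can x j hs hs1 with hc | ⟨hc, he⟩ <;> rcases exists_can x' j' ht ht1 with hc' | ⟨hc', he'⟩
  · obtain ⟨h1, h2, h3⟩ := can_inj hc hc' h
    exact Or.inl ⟨h1.symm, h2.symm, h3.symm⟩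
  · rw [he'] at h
    obtain ⟨h1, h2, h3⟩ := can_inj hc hc' h
    right
    refine ⟨?_, ?_, by linarith⟩
    · rw [h1, h2, nbr_nbr]
    · rw [h2, opp_opp]
  · rw [he] at h
    obtain ⟨h1, h2, h3⟩ := can_inj hc hc' h
    exact Or.inr ⟨h1.symm, h2.symm, h3.symm⟩
  · rw [he, he'] at h
    obtain ⟨h1, h2, h3⟩ := can_inj hc hc' h
    left
    have h4 : j' = j := by
      have := congrArg opp h2
      rw [opp_opp, opp_opp] at this
      exact this.symm
    refine ⟨?_, h4, by linarith⟩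
    have h5 := nbr_nbr x j
    rw [h1, h2, nbr_nbr] at h5
    exact h5

end Pool.Agent.Lib.MP_609849_pr
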