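import Pool.Agent.Lib.MP_609849_pr.F3

/-! Row F4. The open set `U`.

`Xs` = points with distance `> 1/5` from the lattice, open (`Metric.continuous_infDist_pt`). `U` = union of the images of `Xs`.

* `Xs_norm`: `Metric.infDist_le_dist_of_mem`.
* `mem_Xs_of`: `Metric.le_infDist` (the lattice is nonempty).
* `HV_Xs`: the distance of a point of `HV` from every lattice point is `≥ 1/2`. `gate_Xs`: `z = cz v + t pc`, `1/3 ≤ t ≤ 1`: distance from
  `cz v` is `t/√2 ≥ 0.2357 > 1/5` (compare squares: `t²/2 ≥ 1/18 > 1/25`), from `cz w`, `w ≠ v`, one coordinate of the difference is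
  `≥ 1/2` in absolute value.
* `isOpen_io`: for `S` open, `0 ∉ S`: `io '' S = {z | z ≠ 0 ∧ io z ∈ S}`, preimage of an open set under a function which is continuous
  on the open set `{z ≠ 0}` (`ContinuousOn.isOpen_inter_preimage`).
* `isOpen_Bm`: induction on `l`, generalizing `S`: `Bm (w :: l) '' S = Bm l '' (cz w + io '' S)`; if `1/5 < ‖z‖` then `‖io z‖ < 5/16`,
  `‖cz w + io z‖ > 11/16 > 1/5`.
* `arcj_mem`: every `(x, j, τ)`, `0 ≤ τ ≤ 1`. For `j ≠ 3` the local coordinate is in `HV` (`HV_Xs`). For `j = 3`, `t = 8^(-τ)`: if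
  `t ≥ 1/3` then `gate_Xs`; otherwise `1/(8t) ≥ 3/8`, use `arcj_symm` with `1 - τ` at `nbr x 3` (`8^(-(1-τ)) = 1/(8t)`). -/

open Set Filter
open scoped Topology

namespace Pool.Agent.Lib.MP_609849_pr

/-- points far from the lattice -/
def Xs : Set ℂ := {z | 1 / 5 < Metric.infDist z (range cz)}

/-- the domain of the drawing -/
def Us : Set ℂ := ⋃ c, Am c '' Xs

theorem isOpen_Xs : IsOpen Xs := isOpen_lt continuous_const (Metric.continuous_infDist_pt _)

theorem Xs_norm {z : ℂ} (hz : z ∈ Xs) (v : Pos) : 1 / 5 < ‖z - cz v‖ := by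
  have h := Metric.infDist_le_dist_of_mem (x := z) (mem_range_self (f := cz) v)
  rw [dist_eq_norm] at h
  exact lt_of_lt_of_le hz h

theorem Xs_norm0 {z : ℂ} (hz : z ∈ Xs) : 1 / 5 < ‖z‖ := by
  have := Xs_norm hz 0
  rwa [cz_zero, sub_zero] at this

theorem mem_Xs_of {z : ℂ} {δ : ℝ} (hδ : 1 / 5 < δ) (h : ∀ v, δ ≤ ‖z - cz v‖) : z ∈ Xs := by
  refine lt_of_lt_of_le hδ ?_
  rw [Metric.le_infDist (range_nonempty cz)]
  rintro _ ⟨v, rfl⟩
  rw [dist_eq_norm]
  exact h v

theorem HV_dist {z : ℂ} (hz : z ∈ HV) (v : Pos) : 1 / 2 ≤ ‖z - cz v‖ := by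
  by_contra hn
  rw [not_le] at hn
  exact HV_ne hz hn v (by ring)

theorem HV_Xs {z : ℂ} (hz : z ∈ HV) : z ∈ Xs := mem_Xs_of (by norm_num : (1 : ℝ) / 5 < 1 / 2) (HV_dist hz)

theorem norm_pc : 7 / 10 ≤ ‖pc‖ ∧ ‖pc‖ ≤ 71 / 100 := by
  have h : ‖pc‖ ^ 2 = 1 / 2 := by
    rw [← Complex.normSq_eq_norm_sq, Complex.normSq_apply]
    norm_num [pc]
  have h0 := norm_nonneg pc
  constructor <;> nlinarith

theorem gate_Xs (v : Pos) {t : ℝ} (h0 : 1 / 3 ≤ t) (h1 : t ≤ 1) : cz v + t * pc ∈ Xs := by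
  refine mem_Xs_of (by norm_num : (1 : ℝ) / 5 < 7 / 30) fun w => ?_
  by_contra hn
  rw [not_le] at hn
  obtain ⟨h2, h3⟩ := gate_eq (v := v) (w := w) (t := t) (d := cz v + t * pc - cz w) (by linarith) h1 (by linarith) (by ring)
  rw [h3, norm_mul, Complex.norm_real, Real.norm_eq_abs, abs_of_nonneg (by linarith)] at hn
  have := norm_pc.1
  nlinarith

theorem isOpen_io {S : Set ℂ} (hS : IsOpen S) (h0 : ∀ z ∈ S, z ≠ 0) : IsOpen (io '' S) := by
  have h : io '' S = {z | z ≠ 0} ∩ io ⁻¹' S := by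
    ext z
    constructor
    · rintro ⟨y, hy, rfl⟩
      have hy0 := h0 y hy
      refine ⟨?_, ?_⟩
      · intro hz
        have := norm_io y
        rw [hz, norm_zero] at this
        have h2 : 0 < 1 / (16 * ‖y‖) := by
          have := norm_pos_iff.2 hy0
          positivity
        linarith
      · change io (io y) ∈ S
        rwa [io_io hy0]
    · rintro ⟨hz, hm⟩
      exact ⟨io z, hm, io_io hz⟩
  rw [h]
  have hc : ContinuousOn io {z | z ≠ 0} := by
    unfold io
    refine ContinuousOn.div continuousOn_const (by fun_prop) ?_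
    intro z hz
    exact mul_ne_zero (by norm_num) hz
  exact hc.isOpen_inter_preimage isOpen_ne hS

theorem norm_io_lt {z : ℂ} (hz : 1 / 5 < ‖z‖) : ‖io z‖ < 5 / 16 := by
  rw [norm_io, div_lt_div_iff₀ (by positivity) (by norm_num)]
  linarith

theorem step_norm {z : ℂ} (hz : 1 / 5 < ‖z‖) (w : NZ) : cz w.1 + io z ∈ Qs :=
  Qs_of_small ((norm_io_lt hz).le.trans (by norm_num)) w

/-- the branch stays away from `0` in the coordinates of every copy -/
theorem Bm_norm {z : ℂ} (hz : 1 / 5 < ‖z‖) (l : List NZ) : 1 / 5 < ‖Bm l z‖ := by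
  rcases l with _ | ⟨w, l⟩
  · exact hz
  · have := Qs_norm (Bm_Qs (step_norm hz w) l)
    change 1 / 5 < ‖Bm l (cz w.1 + io z)‖
    linarith

theorem isOpen_add (a : ℂ) {S : Set ℂ} (hS : IsOpen S) : IsOpen ((fun z => a + z) '' S) :=
  (Homeomorph.addLeft a).isOpenMap S hS

theorem isOpen_Bm {S : Set ℂ} (hS : IsOpen S) (h0 : ∀ z ∈ S, 1 / 5 < ‖z‖) (l : List NZ) : IsOpen (Bm l '' S) := by
  induction l generalizing S with
  | nil =>
    have : Bm [] '' S = S := by
      ext z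
      constructor
      · rintro ⟨y, hy, rfl⟩
        exact hy
      · intro hz
        exact ⟨z, hz, rfl⟩
    rwa [this]
  | cons w l ih =>
    have h : Bm (w :: l) '' S = Bm l '' ((fun z => cz w.1 + z) '' (io '' S)) := by
      rw [image_image, image_image]
      rfl
    rw [h]
    apply ih (isOpen_add _ (isOpen_io hS (fun z hz hz0 => ?_)))
    · rintro _ ⟨_, ⟨z, hz, rfl⟩, rfl⟩
      have := Qs_norm (step_norm (h0 z hz) w)
      change 1 / 5 < ‖cz w.1 + io z‖
      linarith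
    · have := h0 z hz
      rw [hz0, norm_zero] at this
      linarith

theorem isOpen_Am {S : Set ℂ} (hS : IsOpen S) (h0 : ∀ z ∈ S, 1 / 5 < ‖z‖) (c : Option (Pos × List NZ)) :
    IsOpen (Am c '' S) := by
  rcases c with _ | ⟨u, l⟩
  · have : Am none '' S = S := by
      ext z
      constructor
      · rintro ⟨y, hy, rfl⟩
        exact hy
      · intro hz
        exact ⟨z, hz, rfl⟩
    rwa [this]
  · have h : Am (some (u, l)) '' S = (fun z => cz u + z) '' (io '' (Bm l '' S)) := by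
      rw [image_image, image_image]
      rfl
    rw [h]
    refine isOpen_add _ (isOpen_io (isOpen_Bm hS h0 l) ?_)
    rintro _ ⟨z, hz, rfl⟩ hz0
    have := Bm_norm (h0 z hz) l
    rw [hz0, norm_zero] at this
    linarith

theorem isOpen_Us : IsOpen Us := isOpen_iUnion fun c => isOpen_Am isOpen_Xs (fun _ hz => Xs_norm0 hz) c

theorem mem_Us {c : Option (Pos × List NZ)} {z : ℂ} (hz : z ∈ Xs) : Am c z ∈ Us :=
  mem_iUnion.2 ⟨c, z, hz, rfl⟩

theorem arcj_mem (x : Vtx) (j : Fin 5) {τ : ℝ} (h0 : 0 ≤ τ) (h1 : τ ≤ 1) : arcj x j τ ∈ Us := by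
  by_cases hj : j = 3
  · subst hj
    obtain ⟨p1, p2⟩ := rpow_facts h0 h1
    by_cases ht : 1 / 3 ≤ (8 : ℝ) ^ (-τ)
    · exact mem_Us (gate_Xs (crd x) ht p2)
    · have hs : arcj x 3 τ = arcj (nbr x 3) 3 (1 - τ) := by
        have := arcj_symm x 3 (1 - τ)
        rw [sub_sub_cancel] at this
        exact this.symm
      rw [hs]
      obtain ⟨q1, q2⟩ := rpow_facts (τ := 1 - τ) (by linarith) (by linarith)
      have hq : (8 : ℝ) ^ (-(1 - τ)) * (8 : ℝ) ^ (-τ) = 1 / 8 := by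
        rw [← Real.rpow_add (by norm_num)]
        have : -(1 - τ) + -τ = -1 := by ring
        rw [this, Real.rpow_neg_one]
        norm_num
      have hq3 : 1 / 3 ≤ (8 : ℝ) ^ (-(1 - τ)) := by
        rw [not_le] at ht
        by_contra hn
        rw [not_le] at hn
        nlinarith
      exact mem_Us (gate_Xs (crd (nbr x 3)) hq3 q2)
  · exact mem_Us (HV_Xs (loc_HV (crd x) hj τ))

end Pool.Agent.Lib.MP_609849_pr
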