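import Pool.Agent.Lib.MP_609849_pr.F4

/-! Row F5. The embedding into `U` is proper.

`near_Bm`: `z ∈ Xs`, `z' ∈ (HV ∪ Gts') ∩ Qs` (`Gts'` = `Gts` with `1/8 ≤ t`), `Bm l z = Bm l' z'` ⇒ `l = l' ∧ z = z'`, or `l = w :: l'` and
`z' = cz w + io z`, `z' ∈ cz w + (0,1] pc`. Induction from the right as for `Bm_inj`:
* `[], []`: clear.
* `[], m ++ [w]`: `z = cz w + io (Bm m z')`, `‖z - cz w‖ ≤ 1/8` contradicts `Xs_norm`.
* `m ++ [w], []`: `z' = cz w + io (Bm m z)`, `‖io (Bm m z)‖ < 5/16` (`Bm_norm`; `1/5 < ‖z‖` by `Xs_norm` at `0`). `HV` has distance `≥ 1/2`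
  from the lattice, so `z' = cz v + t pc`; one coordinate of `v - w + t/2` would be `≥ 1/2` if `v ≠ w`, so `v = w`,
  `io (Bm m z) = t pc`, `Bm m z = s pc`, `s = 1/(8t) ∈ (0,1]`. If `m = []` this is the second case with `l' = []`, `l = [w]`. If `m = m' ++ [w']`:
  `s pc = cz w' + io (Bm m' z)`, but `‖s pc - cz w'‖ ≥ 1/2` as one coordinate of `w'` is nonzero and `s/2 ∈ [0,1/2]`, contradiction.
* `m ++ [w], m' ++ [w']`: norms `< 5/16` and `≤ 1/8`, `cz_eq_of_norm`, `io_inj`, induction hypothesis.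
`near_Am`: the same for the first step (`none`, `some (u, l)`), with the same four cases.
`finite_near`: it is enough to count `(x, j)` with `j = 0, 1` or `j = 3`, `x` not a gate (all others are images under
`(x, j) ↦ (nbr x j, opp j)`, same arc as a set by `arcj_symm`). By `near_Am` with `z' = cz (crd x) + bj j τ`: `cpy x = c` and
`‖z'‖ < R`, so `‖cz (crd x)‖ < R + 2`: finitely many; or `j = 3` and `x` is the vertex at which `c` is attached: one.
(`{v : Pos | ‖cz v‖ < R + 2}` is finite: subset of a box.)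
`proper_Us`: `K` compact in `U`; `K ⊆ ⋃_{c, n} Am c '' (Xs ∩ ball 0 n)`, open sets (`isOpen_Am`), so `K` is covered by finitely many. -/

open Set Filter
open scoped Topology

namespace Pool.Agent.Lib.MP_609849_pr

/-- the closed version of `Gts` -/
def Gtc : Set ℂ := {z | ∃ (v : Pos) (t : ℝ), 1 / 8 ≤ t ∧ t ≤ 1 ∧ z = cz v + t * pc}

theorem Gtc_near {v w : Pos} {t : ℝ} {d : ℂ} (h0 : 1 / 8 ≤ t) (h1 : t ≤ 1) (hd : 1 / 5 < ‖d‖)
    (h : cz v + t * pc = cz w + io d) : v = w ∧ d = ((1 / (8 * t) : ℝ) : ℂ) * pc := by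
  have hn := norm_io_lt hd
  obtain ⟨h2, h3⟩ := gate_eq (by linarith) h1 (by linarith) h
  refine ⟨h2, ?_⟩
  have hd0 : d ≠ 0 := by
    rintro rfl
    rw [norm_zero] at hd
    linarith
  rw [← io_io hd0, h3, io_smul (by linarith)]

/-- a gate point at `0` is not in a branch at another position -/
theorem gate_zero_ne {s : ℝ} (h0 : 0 ≤ s) (h1 : s ≤ 1) (w : NZ) {d : ℂ} (hd : 1 / 5 < ‖d‖)
    (h : (s : ℂ) * pc = cz w.1 + io d) : False := by
  have hn := norm_io_lt hd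
  have h' : cz 0 + s * pc = cz w.1 + io d := by rw [cz_zero, zero_add, h]
  obtain ⟨h2, _⟩ := gate_eq h0 h1 (by linarith) h'
  exact w.2 h2.symm

theorem inv_facts {t : ℝ} (h0 : 1 / 8 ≤ t) : 0 ≤ 1 / (8 * t) ∧ 1 / (8 * t) ≤ 1 := by
  have ht : 0 < t := by linarith
  refine ⟨by positivity, ?_⟩
  rw [div_le_one (by positivity)]
  linarith

theorem t_lt {z : ℂ} (hz : 1 / 5 < ‖z‖) {t : ℝ} (h0 : 1 / 8 ≤ t) (h : z = ((1 / (8 * t) : ℝ) : ℂ) * pc) : t < 1 / 2 := by
  have ht : 0 < t := by linarith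
  have hp := norm_pc.2
  rw [h, norm_mul, Complex.norm_real, Real.norm_eq_abs, abs_of_pos (by positivity)] at hz
  by_contra hn
  rw [not_lt] at hn
  have h1 : 1 / (8 * t) ≤ 1 / 4 := by
    rw [div_le_div_iff₀ (by positivity) (by norm_num)]
    linarith
  have h2 : 1 / (8 * t) * ‖pc‖ ≤ 1 / 4 * (71 / 100) := mul_le_mul h1 hp (norm_nonneg _) (by norm_num)
  linarith

theorem near_Bm {l l' : List NZ} {z z' : ℂ} (hz : z ∈ Xs) (hz' : z' ∈ HV ∪ Gtc) (hq' : z' ∈ Qs)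
    (h : Bm l z = Bm l' z') : (l = l' ∧ z = z') ∨
      ∃ (w : NZ) (t : ℝ), l = w :: l' ∧ 1 / 8 ≤ t ∧ t < 1 / 2 ∧ z' = cz w.1 + t * pc := by
  have hz0 := Xs_norm0 hz
  induction l using List.reverseRecOn generalizing l' with
  | nil =>
    rcases List.eq_nil_or_concat l' with rfl | ⟨m, w, rfl⟩
    · exact Or.inl ⟨rfl, h⟩
    · rw [List.concat_eq_append, Bm_append] at h
      exfalso
      have h1 := Xs_norm hz w.1
      change z = _ at h
      rw [h, add_sub_cancel_left] at h1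
      have h2 := norm_io_le (Bm_Qs hq' m)
      linarith
  | append_singleton m w ih =>
    rw [Bm_append] at h
    have hm := Bm_norm hz0 m
    rcases List.eq_nil_or_concat l' with rfl | ⟨m', w', rfl⟩
    · change _ = z' at h
      rcases hz' with hz' | ⟨v, t, ht0, ht1, rfl⟩
      · exact absurd h.symm (HV_ne hz' (by have := norm_io_lt hm; linarith) w.1)
      · obtain ⟨h1, h2⟩ := Gtc_near ht0 ht1 hm h.symm
        obtain ⟨q0, q1⟩ := inv_facts ht0
        rcases List.eq_nil_or_concat m with rfl | ⟨m', w', rfl⟩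
        · exact Or.inr ⟨w, t, rfl, ht0, t_lt hz0 ht0 h2, by rw [h1]⟩
        · rw [List.concat_eq_append, Bm_append] at h2
          exact (gate_zero_ne q0 q1 w' (Bm_norm hz0 m') h2.symm).elim
    · rw [List.concat_eq_append, Bm_append] at h
      have a1 := norm_io_lt hm
      have a2 := norm_io_le (Bm_Qs hq' m')
      obtain ⟨h1, h2⟩ := cz_eq_of_norm h (by linarith)
      have hm0 : Bm m z ≠ 0 := by
        intro h0
        rw [h0, norm_zero] at hm
        linarith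
      have h3 := io_inj hm0 (Qs_ne (Bm_Qs hq' m')) h2
      have hw : w = w' := Subtype.ext h1
      rcases ih h3 with ⟨h4, h5⟩ | ⟨w0, t, h4, h5⟩
      · left
        rw [List.concat_eq_append, h4, hw]
        exact ⟨rfl, h5⟩
      · right
        refine ⟨w0, t, ?_, h5⟩
        rw [List.concat_eq_append, h4, hw, List.cons_append]

theorem near_Am {c c' : Option (Pos × List NZ)} {z z' : ℂ} (hz : z ∈ Xs) (hz' : z' ∈ HV ∪ Gtc)
    (hq' : c' ≠ none → z' ∈ Qs) (h : Am c z = Am c' z') : (c = c' ∧ z = z') ∨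
      (∃ (u : Pos) (t : ℝ), c = some (u, []) ∧ c' = none ∧ 1 / 8 ≤ t ∧ t < 1 / 2 ∧ z' = cz u + t * pc) ∨
      ∃ (u : Pos) (l : List NZ) (w : NZ) (t : ℝ), c = some (u, w :: l) ∧ c' = some (u, l) ∧ 1 / 8 ≤ t ∧ t < 1 / 2 ∧
        z' = cz w.1 + t * pc := by
  have hz0 := Xs_norm0 hz
  rcases c with _ | ⟨u, l⟩ <;> rcases c' with _ | ⟨u', l'⟩
  · exact Or.inl ⟨rfl, h⟩
  · exfalso
    have q' := hq' (by simp)
    change z = cz u' + io (Bm l' z') at h
    have h1 := Xs_norm hz u'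
    rw [h, add_sub_cancel_left] at h1
    have h2 := norm_io_le (Bm_Qs q' l')
    linarith
  · change cz u + io (Bm l z) = z' at h
    have hm := Bm_norm hz0 l
    rcases hz' with hz' | ⟨v, t, ht0, ht1, rfl⟩
    · exact absurd h.symm (HV_ne hz' (by have := norm_io_lt hm; linarith) u)
    · obtain ⟨h1, h2⟩ := Gtc_near ht0 ht1 hm h.symm
      obtain ⟨q0, q1⟩ := inv_facts ht0
      rcases List.eq_nil_or_concat l with rfl | ⟨m', w', rfl⟩
      · exact Or.inr (Or.inl ⟨u, t, rfl, rfl, ht0, t_lt hz0 ht0 h2, by rw [h1]⟩)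
      · rw [List.concat_eq_append, Bm_append] at h2
        exact (gate_zero_ne q0 q1 w' (Bm_norm hz0 m') h2.symm).elim
  · have q' := hq' (by simp)
    change cz u + io (Bm l z) = cz u' + io (Bm l' z') at h
    have hm := Bm_norm hz0 l
    have a1 := norm_io_lt hm
    have a2 := norm_io_le (Bm_Qs q' l')
    obtain ⟨h1, h2⟩ := cz_eq_of_norm h (by linarith)
    have hm0 : Bm l z ≠ 0 := by
      intro h0
      rw [h0, norm_zero] at hm
      linarith
    have h3 := io_inj hm0 (Qs_ne (Bm_Qs q' l')) h2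
    rcases near_Bm hz hz' q' h3 with ⟨h4, h5⟩ | ⟨w0, t, h4, h5⟩
    · exact Or.inl ⟨by rw [h1, h4], h5⟩
    · exact Or.inr (Or.inr ⟨u', l', w0, t, by rw [h1, h4], rfl, h5⟩)

theorem norm_bj (j : Fin 5) {τ : ℝ} (h0 : 0 ≤ τ) (h1 : τ ≤ 1) : ‖bj j τ‖ < 2 := by
  have hp := norm_pc.2
  have ht : ‖(τ : ℂ)‖ ≤ 1 := by
    rw [Complex.norm_real, Real.norm_eq_abs, abs_of_nonneg h0]
    exact h1
  have hti : ‖(τ : ℂ) * Complex.I‖ ≤ 1 := by
    rw [norm_mul, Complex.norm_I, mul_one]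
    exact ht
  fin_cases j
  · change ‖pc + τ‖ < 2
    have := norm_add_le pc (τ : ℂ)
    linarith
  · change ‖pc + τ * Complex.I‖ < 2
    have := norm_add_le pc ((τ : ℂ) * Complex.I)
    linarith
  · change ‖pc - τ‖ < 2
    have := norm_sub_le pc (τ : ℂ)
    linarith
  · change ‖(((8 : ℝ) ^ (-τ) : ℝ) : ℂ) * pc‖ < 2
    obtain ⟨p1, p2⟩ := rpow_facts h0 h1
    rw [norm_mul, Complex.norm_real, Real.norm_eq_abs, abs_of_nonneg (by linarith)]
    have := norm_nonneg pc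
    nlinarith
  · change ‖pc - τ * Complex.I‖ < 2
    have := norm_sub_le pc ((τ : ℂ) * Complex.I)
    linarith

theorem finite_ball (R : ℝ) : {v : Pos | ‖cz v‖ < R}.Finite := by
  obtain ⟨M, hM⟩ := exists_nat_gt R
  refine (Set.finite_Icc ((-(M : ℤ), -(M : ℤ)) : Pos) ((M : ℤ), (M : ℤ))).subset ?_
  intro v hv
  have h1 : |(cz v).re| < M := lt_of_le_of_lt (Complex.abs_re_le_norm _) (lt_trans hv hM)
  have h2 : |(cz v).im| < M := lt_of_le_of_lt (Complex.abs_im_le_norm _) (lt_trans hv hM)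
  change |(v.1 : ℝ)| < M at h1
  change |(v.2 : ℝ)| < M at h2
  have h3 : |v.1| < M := by exact_mod_cast h1
  have h4 : |v.2| < M := by exact_mod_cast h2
  rw [abs_lt] at h3 h4
  exact ⟨⟨by omega, by omega⟩, ⟨by omega, by omega⟩⟩

/-- the vertices of the edges which come near -/
def nearV (c : Option (Pos × List NZ)) (R : ℝ) : Set Vtx :=
  {x | cpy x = c ∧ ‖cz (crd x)‖ < R + 2} ∪
    ({x | ∃ u, c = some (u, []) ∧ x = .r u} ∪ {x | ∃ u l, ∃ w : NZ, c = some (u, w :: l) ∧ x = .b u l w.1})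

theorem nearV_finite (c : Option (Pos × List NZ)) (R : ℝ) : (nearV c R).Finite := by
  refine Set.Finite.union ?_ (Set.Finite.union ?_ ?_)
  · refine Set.Finite.of_finite_image (f := crd) ((finite_ball (R + 2)).subset ?_) ?_
    · rintro _ ⟨x, hx, rfl⟩
      exact hx.2
    · intro x hx y hy h
      exact vtx_ext (hx.1.trans hy.1.symm) h
  · refine Set.Subsingleton.finite ?_
    rintro _ ⟨u, hu, rfl⟩ _ ⟨u', hu', rfl⟩
    rw [hu] at hu'
    simp only [Option.some.injEq, Prod.mk.injEq, and_true] at hu'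
    rw [hu']
  · refine Set.Subsingleton.finite ?_
    rintro _ ⟨u, l, w, hu, rfl⟩ _ ⟨u', l', w', hu', rfl⟩
    rw [hu] at hu'
    simp only [Option.some.injEq, Prod.mk.injEq, List.cons.injEq] at hu'
    rw [hu'.1, hu'.2.1, hu'.2.2]

/-- a point `cz u + t pc`, `1/8 ≤ t < 1/2`, lies only on the gate edge of the vertex at `u` -/
theorem gate_only {x : Vtx} {j : Fin 5} {τ : ℝ} {u : Pos} {t : ℝ} (h0 : 0 ≤ τ) (h1 : τ ≤ 1) (h4 : 1 / 8 ≤ t)
    (h5 : t < 1 / 2) (h6 : cz (crd x) + bj j τ = cz u + t * pc) : crd x = u := by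
  have r1 := congrArg Complex.re h6
  have r2 := congrArg Complex.im h6
  rw [re_gate] at r1
  rw [im_gate] at r2
  have key : ∀ n m : ℤ, (n : ℝ) + 1 / 2 = m + t / 2 → False := fun n m h =>
    int_no (a := m) (b := n) (by linarith) (by linarith)
  fin_cases j
  · change (cz (crd x) + bj 0 τ).im = _ at r2
    rw [im0] at r2
    exact (key _ _ r2).elim
  · change (cz (crd x) + bj 1 τ).re = _ at r1
    rw [re1] at r1
    exact (key _ _ r1).elim
  · change (cz (crd x) + bj 2 τ).im = _ at r2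
    rw [re2] at r2
    exact (key _ _ r2).elim
  · change (cz (crd x) + bj 3 τ).re = _ at r1
    change (cz (crd x) + bj 3 τ).im = _ at r2
    rw [re3] at r1
    rw [im3] at r2
    obtain ⟨p1, p2⟩ := rpow_facts h0 h1
    exact Prod.ext (int_eq (by linarith) (by linarith)) (int_eq (by linarith) (by linarith))
  · change (cz (crd x) + bj 4 τ).re = _ at r1
    rw [re4] at r1
    exact (key _ _ r1).elim

theorem mem_nearV {x : Vtx} {j : Fin 5} (hg : j ≠ 3 ∨ ¬ IsGate x) {c : Option (Pos × List NZ)} {R : ℝ} {τ : ℝ}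
    (h0 : 0 ≤ τ) (h1 : τ ≤ 1) (h : arcj x j τ ∈ Am c '' {z | z ∈ Xs ∧ ‖z‖ < R}) : x ∈ nearV c R := by
  obtain ⟨z, ⟨hz, hzR⟩, he⟩ := h
  have hloc : cz (crd x) + bj j τ ∈ HV ∪ Gtc ∧ (cpy x ≠ none → cz (crd x) + bj j τ ∈ Qs) := by
    by_cases hj : j = 3
    · subst hj
      obtain ⟨p1, p2⟩ := rpow_facts h0 h1
      refine ⟨Or.inr ⟨crd x, _, p1, p2, rfl⟩, fun hc => ?_⟩
      have hv : crd x ≠ 0 := by
        intro h
        rcases hg with hg | hg
        · exact hg rfl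
        · exact hg ⟨hc, h⟩
      exact gate_Qs hv (by linarith) p2
    · have := loc_HV (crd x) hj τ
      exact ⟨Or.inl this, fun _ => HV_sub_Qs this⟩
  rcases near_Am hz hloc.1 hloc.2 he with ⟨h2, h3⟩ | ⟨u, t, h2, h3, h4, h5, h6⟩ | ⟨u, l, w, t, h2, h3, h4, h5, h6⟩
  · left
    refine ⟨h2.symm, ?_⟩
    have hb := norm_bj j h0 h1
    have h7 : cz (crd x) = z - bj j τ := by rw [h3]; ring
    rw [h7]
    have := norm_sub_le z (bj j τ)
    linarith
  · right
    left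
    have hx := gate_only h0 h1 h4 h5 h6
    exact ⟨u, h2, vtx_ext (by rw [h3]; rfl) hx⟩
  · right
    right
    have hx := gate_only h0 h1 h4 h5 h6
    exact ⟨u, l, w, h2, vtx_ext (by rw [h3]; rfl) hx⟩

theorem finite_near (c : Option (Pos × List NZ)) (R : ℝ) :
    {p : Vtx × Fin 5 | ∃ τ ∈ Icc (0 : ℝ) 1, arcj p.1 p.2 τ ∈ Am c '' {z | z ∈ Xs ∧ ‖z‖ < R}}.Finite := by
  have hA := (nearV_finite c R).prod (Set.finite_univ (α := Fin 5))
  refine (hA.union (hA.image (fun p : Vtx × Fin 5 => (nbr p.1 3, (3 : Fin 5))))).subset ?_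
  rintro ⟨x, j⟩ ⟨τ, hτ, hm⟩
  by_cases hg : j ≠ 3 ∨ ¬ IsGate x
  · exact Or.inl ⟨mem_nearV hg hτ.1 hτ.2 hm, mem_univ _⟩
  · push Not at hg
    obtain ⟨rfl, hgate⟩ := hg
    right
    have hs : arcj x 3 τ = arcj (nbr x 3) 3 (1 - τ) := by
      have := arcj_symm x 3 (1 - τ)
      rw [sub_sub_cancel] at this
      exact this.symm
    change arcj x 3 τ ∈ _ at hm
    rw [hs] at hm
    refine ⟨(nbr x 3, 3), ⟨mem_nearV (Or.inr (not_gate_nbr hgate)) (by linarith [hτ.2]) (by linarith [hτ.1]) hm,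
      mem_univ _⟩, ?_⟩
    have := nbr_nbr x 3
    exact Prod.ext this rfl

theorem proper_Us (K : Set ℂ) (hK : K ⊆ Us) (hc : IsCompact K) :
    {p : Vtx × Fin 5 | ∃ τ ∈ Icc (0 : ℝ) 1, arcj p.1 p.2 τ ∈ K}.Finite := by
  have hopen : ∀ i : Option (Pos × List NZ) × ℕ, IsOpen (Am i.1 '' {z | z ∈ Xs ∧ ‖z‖ < (i.2 : ℝ)}) := by
    intro i
    refine isOpen_Am (isOpen_Xs.inter (isOpen_lt continuous_norm continuous_const)) ?_ i.1
    intro z hz
    exact Xs_norm0 hz.1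
  have hcov : K ⊆ ⋃ i : Option (Pos × List NZ) × ℕ, Am i.1 '' {z | z ∈ Xs ∧ ‖z‖ < (i.2 : ℝ)} := by
    intro y hy
    obtain ⟨c, z, hz, rfl⟩ := mem_iUnion.1 (hK hy)
    obtain ⟨n, hn⟩ := exists_nat_gt ‖z‖
    exact mem_iUnion.2 ⟨(c, n), z, ⟨hz, hn⟩, rfl⟩
  obtain ⟨t, ht⟩ := hc.elim_finite_subcover _ hopen hcov
  refine (t.finite_toSet.biUnion (fun i _ => finite_near i.1 (i.2 : ℝ))).subset ?_
  rintro p ⟨τ, hτ, hm⟩
  obtain ⟨i, hi⟩ := mem_iUnion.1 (ht hm)
  obtain ⟨hi1, hi2⟩ := mem_iUnion.1 hi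
  exact mem_biUnion hi1 ⟨τ, hτ, hi2⟩

end Pool.Agent.Lib.MP_609849_pr
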