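import Pool.Agent.Lib.MP_609849_pr.F3

/-! Row F6. Continuity and directions.

`dB l z` is the derivative of `Bm l` at `z`, `dA c z` of `Am c`. `hasDerivAt_Bm`: induction on `l` for all `z ∈ Qs` (`z ≠ 0`, `Qs_step`),
`io' (z) = -I/(16 z²)`. `dA_ne`: products of nonzero numbers (`Bm_Qs`, `Qs_ne`).
`cont_arcj`: the local coordinate `cz (crd x) + bj j τ` is continuous in `τ`, and `Am c` is continuous at its values: for a branch copy
they are `≠ 0` and `Bm l` of them is `≠ 0`. They are in `Qs` for `j ≠ 3` (`HV_sub_Qs`) and for `j = 3`, `crd x ≠ 0` (`gate_Qs`); for a gate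
(`crd x = 0`, `j = 3`) use the formula at the other end (`arcj_symm`: `arcj x 3 τ = arcj (nbr x 3) 3 (1 - τ)`, `nbr x 3` is not a gate).
`hasDeriv_arcj`: chain rule at `τ = 0` (`cz (crd x) + pc ∈ HV ⊆ Qs`), `bj j` has the derivative `be j` at `0`
(`Real.rpow` with base `8`: derivative `-log 8`). -/

open Set Filter
open scoped Topology

namespace Pool.Agent.Lib.MP_609849_pr

noncomputable def dB : List NZ → ℂ → ℂ
  | [], _ => 1
  | w :: l, z => dB l (cz w.1 + io z) * (-Complex.I / (16 * z ^ 2))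

noncomputable def dA : Option (Pos × List NZ) → ℂ → ℂ
  | none, _ => 1
  | some (_, l), z => (-Complex.I / (16 * (Bm l z) ^ 2)) * dB l z

/-- the five directions -/
noncomputable def be (j : Fin 5) : ℂ := ![1, Complex.I, -1, -(Real.log 8 : ℂ) * pc, -Complex.I] j

noncomputable def dirj (x : Vtx) (j : Fin 5) : ℂ := dA (cpy x) (cz (crd x) + pc) * be j

theorem hasDerivAt_io {z : ℂ} (hz : z ≠ 0) : HasDerivAt io (-Complex.I / (16 * z ^ 2)) z := by
  have h1 : HasDerivAt (fun z : ℂ => 16 * z) 16 z := by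
    simpa using (hasDerivAt_id z).const_mul 16
  have h2 := (hasDerivAt_const z Complex.I).div h1 (mul_ne_zero (by norm_num) hz)
  have h3 : (0 * (16 * z) - Complex.I * 16) / (16 * z) ^ 2 = -Complex.I / (16 * z ^ 2) := by
    field_simp
    ring
  rw [h3] at h2
  exact h2

theorem dio_ne {z : ℂ} (hz : z ≠ 0) : -Complex.I / (16 * z ^ 2) ≠ 0 :=
  div_ne_zero (neg_ne_zero.2 Complex.I_ne_zero) (mul_ne_zero (by norm_num) (pow_ne_zero 2 hz))

theorem hasDerivAt_Bm (l : List NZ) {z : ℂ} (hz : z ∈ Qs) : HasDerivAt (Bm l) (dB l z) z := by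
  induction l generalizing z with
  | nil => exact hasDerivAt_id z
  | cons w l ih =>
    have h1 : HasDerivAt (fun y => cz w.1 + io y) (-Complex.I / (16 * z ^ 2)) z :=
      (hasDerivAt_io (Qs_ne hz)).const_add _
    exact (ih (Qs_step hz w)).comp z h1

theorem dB_ne (l : List NZ) {z : ℂ} (hz : z ∈ Qs) : dB l z ≠ 0 := by
  induction l generalizing z with
  | nil => exact one_ne_zero
  | cons w l ih => exact mul_ne_zero (ih (Qs_step hz w)) (dio_ne (Qs_ne hz))

theorem hasDerivAt_Am (c : Option (Pos × List NZ)) {z : ℂ} (hz : z ∈ Qs) : HasDerivAt (Am c) (dA c z) z := by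
  rcases c with _ | ⟨u, l⟩
  · exact hasDerivAt_id z
  · have h1 : HasDerivAt (fun y => cz u + io y) (-Complex.I / (16 * (Bm l z) ^ 2)) (Bm l z) :=
      (hasDerivAt_io (Qs_ne (Bm_Qs hz l))).const_add _
    exact h1.comp z (hasDerivAt_Bm l hz)

theorem dA_ne (c : Option (Pos × List NZ)) {z : ℂ} (hz : z ∈ Qs) : dA c z ≠ 0 := by
  rcases c with _ | ⟨u, l⟩
  · exact one_ne_zero
  · exact mul_ne_zero (dio_ne (Qs_ne (Bm_Qs hz l))) (dB_ne l hz)

theorem hasDerivAt_bj (j : Fin 5) (τ : ℝ) : ∃ d, HasDerivAt (bj j) d τ ∧ (τ = 0 → d = be j) := by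
  have hid : HasDerivAt (fun τ : ℝ => (τ : ℂ)) 1 τ := Complex.ofRealCLM.hasDerivAt
  fin_cases j
  · refine ⟨1, ?_, fun _ => rfl⟩
    exact hid.const_add pc
  · refine ⟨1 * Complex.I, ?_, fun _ => one_mul _⟩
    exact (hid.mul_const Complex.I).const_add pc
  · refine ⟨-1, ?_, fun _ => rfl⟩
    exact hid.const_sub pc
  · have h1 : HasDerivAt (fun τ : ℝ => (8 : ℝ) ^ (-τ)) (-(Real.log 8 * (8 : ℝ) ^ (-τ))) τ := by
      have h := (hasDerivAt_neg τ).const_rpow (by norm_num : (0 : ℝ) < 8)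
      have h2 : Real.log 8 * -1 * (8 : ℝ) ^ (-τ) = -(Real.log 8 * (8 : ℝ) ^ (-τ)) := by ring
      rw [h2] at h
      exact h
    refine ⟨((-(Real.log 8 * (8 : ℝ) ^ (-τ)) : ℝ) : ℂ) * pc, ?_, ?_⟩
    · exact (h1.ofReal_comp).mul_const pc
    · rintro rfl
      change _ = -(Real.log 8 : ℂ) * pc
      rw [neg_zero, Real.rpow_zero, mul_one]
      push_cast
      rfl
  · refine ⟨-(1 * Complex.I), ?_, fun _ => by
      change -(1 * Complex.I) = -Complex.I
      rw [one_mul]⟩
    exact (hid.mul_const Complex.I).const_sub pc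

theorem cont_bj (j : Fin 5) : Continuous (bj j) := by
  rw [continuous_iff_continuousAt]
  intro τ
  obtain ⟨d, hd, _⟩ := hasDerivAt_bj j τ
  exact hd.continuousAt

theorem cont_arcj_aux (x : Vtx) (j : Fin 5) (hg : j ≠ 3 ∨ ¬ IsGate x) : ContinuousOn (arcj x j) (Icc 0 1) := by
  intro τ hτ
  by_cases hc : cpy x = none
  · unfold arcj
    rw [hc]
    exact (continuous_const.add (cont_bj j)).continuousWithinAt
  · have hq : cz (crd x) + bj j τ ∈ Qs := by
      by_cases hj : j = 3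
      · subst hj
        obtain ⟨p1, p2⟩ := rpow_facts hτ.1 hτ.2
        have hv : crd x ≠ 0 := by
          intro h
          rcases hg with hg | hg
          · exact hg rfl
          · exact hg ⟨hc, h⟩
        exact gate_Qs hv (by linarith) p2
      · exact HV_sub_Qs (loc_HV (crd x) hj τ)
    have h1 : ContinuousAt (Am (cpy x)) (cz (crd x) + bj j τ) := (hasDerivAt_Am (cpy x) hq).continuousAt
    have h2 : ContinuousAt (fun τ => cz (crd x) + bj j τ) τ := (continuous_const.add (cont_bj j)).continuousAt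
    exact (ContinuousAt.comp (f := fun τ => cz (crd x) + bj j τ) h1 h2).continuousWithinAt

theorem cont_arcj (x : Vtx) (j : Fin 5) : ContinuousOn (arcj x j) (Icc 0 1) := by
  by_cases hg : j ≠ 3 ∨ ¬ IsGate x
  · exact cont_arcj_aux x j hg
  · push Not at hg
    obtain ⟨rfl, hgate⟩ := hg
    have h1 := cont_arcj_aux (nbr x 3) 3 (Or.inr (not_gate_nbr hgate))
    have h2 : ContinuousOn (fun τ : ℝ => 1 - τ) (Icc 0 1) := by fun_prop
    have h3 : MapsTo (fun τ : ℝ => 1 - τ) (Icc 0 1) (Icc 0 1) := by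
      intro τ hτ
      exact ⟨by linarith [hτ.2], by linarith [hτ.1]⟩
    refine (h1.comp h2 h3).congr ?_
    intro τ _
    have := arcj_symm x 3 (1 - τ)
    rw [sub_sub_cancel] at this
    exact this.symm

theorem hasDeriv_arcj (x : Vtx) (j : Fin 5) : HasDerivWithinAt (arcj x j) (dirj x j) (Ici 0) 0 := by
  obtain ⟨d, hd, he⟩ := hasDerivAt_bj j 0
  rw [he rfl] at hd
  have h0 : cz (crd x) + bj j 0 = cz (crd x) + pc := by rw [bj_zero_eq]
  have hq : cz (crd x) + pc ∈ Qs := by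
    have := HV_sub_Qs (loc_HV (crd x) (j := 0) (by decide) 0)
    rwa [bj_zero_eq] at this
  have h1 : HasDerivAt (Am (cpy x)) (dA (cpy x) (cz (crd x) + pc)) (cz (crd x) + bj j 0) := by
    rw [h0]
    exact hasDerivAt_Am _ hq
  have h2 : HasDerivAt (fun τ => cz (crd x) + bj j τ) (be j) 0 := hd.const_add _
  exact (HasDerivAt.comp (h := fun τ : ℝ => cz (crd x) + bj j τ) (0 : ℝ) h1 h2).hasDerivWithinAt

end Pool.Agent.Lib.MP_609849_pr
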