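import Pool.Agent.Lib.MP_609849_pr.F6

/-! Row F7. The counterclockwise order of the five directions.

`ccw_mul`: `(A v)/(A u) = v/u`. `ccw_be`: `be j` has the argument `th j ∈ {0, π/2, π, 5π/4, 3π/2}` modulo `2π` and `th` is increasing in `j`.
`ccw (be j) (be k) = th k - th j` if `j < k` and `th k - th j + 2π` if `k ≤ j`: `be j = r_j * exp (i th j)`, `r_j > 0`, so
`arg (be k / be j) = th k - th j` modulo `2π` (`Complex.arg_mul_cos_add_sin_mul_I_coe_angle`, or `Complex.arg_exp_coe_angle`,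
`Complex.arg_real_mul`), and `toIocMod` is the representative in `(0, 2π]` (`toIocMod_eq_iff`). Then 25 comparisons.
`be_inj`: `SameRay ℝ (be j) (be k)` with both nonzero means `be k = r * be j`, `r > 0` (`SameRay.exists_pos`-lemmas): look at real and
imaginary parts (or at `ccw = 2π`). -/

open Set Filter
open scoped Topology

namespace Pool.Agent.Lib.MP_609849_pr

theorem log8_pos : 0 < Real.log 8 := Real.log_pos (by norm_num)

/-- the angles -/
noncomputable def th (j : Fin 5) : ℝ := ![0, Real.pi / 2, Real.pi, 5 * Real.pi / 4, 3 * Real.pi / 2] j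

/-- the lengths -/
noncomputable def rr (j : Fin 5) : ℝ := ![1, 1, 1, Real.log 8 / Real.sqrt 2, 1] j

theorem rr_pos (j : Fin 5) : 0 < rr j := by
  have := log8_pos
  fin_cases j
  · exact one_pos
  · exact one_pos
  · exact one_pos
  · change 0 < Real.log 8 / Real.sqrt 2
    positivity
  · exact one_pos

theorem be_re (j : Fin 5) : (be j).re = ![1, 0, -1, -Real.log 8 / 2, 0] j := by
  fin_cases j
  · change (1 : ℂ).re = 1; simp
  · change (Complex.I).re = 0; simp
  · change (-1 : ℂ).re = -1; simp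
  · change (-(Real.log 8 : ℂ) * pc).re = -Real.log 8 / 2
    have h : -(Real.log 8 : ℂ) * pc = ((-Real.log 8 : ℝ) : ℂ) * pc := by rw [Complex.ofReal_neg]
    rw [h, Complex.re_ofReal_mul]
    change -Real.log 8 * (1 / 2) = _
    ring
  · change (-Complex.I).re = 0; simp

theorem be_im (j : Fin 5) : (be j).im = ![0, 1, 0, -Real.log 8 / 2, -1] j := by
  fin_cases j
  · change (1 : ℂ).im = 0; simp
  · change (Complex.I).im = 1; simp
  · change (-1 : ℂ).im = 0; simp
  · change (-(Real.log 8 : ℂ) * pc).im = -Real.log 8 / 2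
    have h : -(Real.log 8 : ℂ) * pc = ((-Real.log 8 : ℝ) : ℂ) * pc := by rw [Complex.ofReal_neg]
    rw [h, Complex.im_ofReal_mul]
    change -Real.log 8 * (1 / 2) = _
    ring
  · change (-Complex.I).im = -1; simp

theorem cos54 : Real.cos (5 * Real.pi / 4) = -(Real.sqrt 2 / 2) := by
  rw [show 5 * Real.pi / 4 = Real.pi / 4 + Real.pi by ring, Real.cos_add_pi, Real.cos_pi_div_four]

theorem sin54 : Real.sin (5 * Real.pi / 4) = -(Real.sqrt 2 / 2) := by
  rw [show 5 * Real.pi / 4 = Real.pi / 4 + Real.pi by ring, Real.sin_add_pi, Real.sin_pi_div_four]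

theorem cos32 : Real.cos (3 * Real.pi / 2) = 0 := by
  rw [show 3 * Real.pi / 2 = Real.pi / 2 + Real.pi by ring, Real.cos_add_pi, Real.cos_pi_div_two, neg_zero]

theorem sin32 : Real.sin (3 * Real.pi / 2) = -1 := by
  rw [show 3 * Real.pi / 2 = Real.pi / 2 + Real.pi by ring, Real.sin_add_pi, Real.sin_pi_div_two]

theorem be_eq (j : Fin 5) : be j = (rr j : ℂ) * Complex.exp ((th j : ℝ) * Complex.I) := by
  have hs : Real.sqrt 2 ^ 2 = 2 := Real.sq_sqrt (by norm_num)
  have hs0 : Real.sqrt 2 ≠ 0 := by positivity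
  apply Complex.ext
  · rw [be_re, Complex.re_ofReal_mul, Complex.exp_ofReal_mul_I_re]
    fin_cases j
    · change (1 : ℝ) = 1 * Real.cos 0; simp
    · change (0 : ℝ) = 1 * Real.cos (Real.pi / 2); simp
    · change (-1 : ℝ) = 1 * Real.cos Real.pi; simp
    · change -Real.log 8 / 2 = Real.log 8 / Real.sqrt 2 * Real.cos (5 * Real.pi / 4)
      rw [cos54]
      field_simp
    · change (0 : ℝ) = 1 * Real.cos (3 * Real.pi / 2)
      rw [cos32, mul_zero]
  · rw [be_im, Complex.im_ofReal_mul, Complex.exp_ofReal_mul_I_im]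
    fin_cases j
    · change (0 : ℝ) = 1 * Real.sin 0; simp
    · change (1 : ℝ) = 1 * Real.sin (Real.pi / 2); simp
    · change (0 : ℝ) = 1 * Real.sin Real.pi; simp
    · change -Real.log 8 / 2 = Real.log 8 / Real.sqrt 2 * Real.sin (5 * Real.pi / 4)
      rw [sin54]
      field_simp
    · change (-1 : ℝ) = 1 * Real.sin (3 * Real.pi / 2)
      rw [sin32, mul_neg_one]

theorem be_ne (j : Fin 5) : be j ≠ 0 := by
  rw [be_eq]
  exact mul_ne_zero (by exact_mod_cast (rr_pos j).ne') (Complex.exp_ne_zero _)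

theorem ccw_mul {A : ℂ} (hA : A ≠ 0) (u v : ℂ) : ccw (A * u) (A * v) = ccw u v := by
  unfold ccw
  rw [mul_div_mul_left _ _ hA]

theorem ccw_eq (j k : Fin 5) : ccw (be j) (be k) = toIocMod Real.two_pi_pos 0 (th k - th j) := by
  have h1 : be k / be j = ((rr k / rr j : ℝ) : ℂ) * (Real.cos (th k - th j) + Real.sin (th k - th j) * Complex.I) := by
    rw [be_eq, be_eq]
    have h2 : (rr j : ℂ) ≠ 0 := by exact_mod_cast (rr_pos j).ne'
    have h3 : Complex.exp ((th k : ℝ) * Complex.I) =
        Complex.exp ((th j : ℝ) * Complex.I) * Complex.exp (((th k - th j : ℝ) : ℂ) * Complex.I) := by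
      rw [← Complex.exp_add]
      congr 1
      push_cast
      ring
    rw [h3, Complex.exp_mul_I (((th k - th j : ℝ) : ℂ)), ← Complex.ofReal_cos, ← Complex.ofReal_sin]
    have h4 := Complex.exp_ne_zero ((th j : ℝ) * Complex.I)
    push_cast
    field_simp
  unfold ccw
  rw [h1, Complex.ofReal_cos, Complex.ofReal_sin,
    Complex.arg_mul_cos_add_sin_mul_I_eq_toIocMod (div_pos (rr_pos k) (rr_pos j)), toIocMod_toIocMod]

theorem toIoc_val {x : ℝ} (h0 : -(2 * Real.pi) < x) (h1 : x ≤ 2 * Real.pi) :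
    toIocMod Real.two_pi_pos 0 x = if 0 < x then x else x + 2 * Real.pi := by
  split_ifs with h
  · rw [toIocMod_eq_self]
    exact ⟨h, by linarith⟩
  · rw [← toIocMod_add_right, toIocMod_eq_self]
    exact ⟨by linarith, by linarith⟩

theorem th_diff (j k : Fin 5) : -(2 * Real.pi) < th k - th j ∧ th k - th j ≤ 2 * Real.pi := by
  have hp := Real.pi_pos
  have h0 : ∀ j, 0 ≤ th j ∧ th j ≤ 3 * Real.pi / 2 := by
    intro j
    fin_cases j
    · change 0 ≤ (0 : ℝ) ∧ (0 : ℝ) ≤ 3 * Real.pi / 2; constructor <;> linarith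
    · change 0 ≤ Real.pi / 2 ∧ Real.pi / 2 ≤ 3 * Real.pi / 2; constructor <;> linarith
    · change 0 ≤ Real.pi ∧ Real.pi ≤ 3 * Real.pi / 2; constructor <;> linarith
    · change 0 ≤ 5 * Real.pi / 4 ∧ 5 * Real.pi / 4 ≤ 3 * Real.pi / 2; constructor <;> linarith
    · change 0 ≤ 3 * Real.pi / 2 ∧ 3 * Real.pi / 2 ≤ 3 * Real.pi / 2; constructor <;> linarith
  have a := h0 j
  have b := h0 k
  constructor <;> linarith

theorem ccw_val (j k : Fin 5) : ccw (be j) (be k) =
    if 0 < th k - th j then th k - th j else th k - th j + 2 * Real.pi := by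
  rw [ccw_eq, toIoc_val (th_diff j k).1 (th_diff j k).2]

theorem fin5_cases (j : Fin 5) : j = 0 ∨ j = 1 ∨ j = 2 ∨ j = 3 ∨ j = 4 := by
  revert j
  decide

theorem le_val {g x : ℝ} (h1 : 0 < x → g ≤ x) (h2 : x ≤ 0 → g ≤ x + 2 * Real.pi) :
    g ≤ if 0 < x then x else x + 2 * Real.pi := by
  split_ifs with h
  · exact h1 h
  · exact h2 (not_lt.1 h)

theorem val_le {g x : ℝ} (h1 : 0 < x → x ≤ g) (h2 : x ≤ 0 → x + 2 * Real.pi ≤ g) :
    (if 0 < x then x else x + 2 * Real.pi) ≤ g := by
  split_ifs with h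
  · exact h1 h
  · exact h2 (not_lt.1 h)

/-- the gaps -/
noncomputable def gap5 (j : Fin 5) : ℝ := ![Real.pi / 2, Real.pi / 2, Real.pi / 4, Real.pi / 4, Real.pi / 2] j

theorem th_vals : th 0 = 0 ∧ th 1 = Real.pi / 2 ∧ th 2 = Real.pi ∧ th 3 = 5 * Real.pi / 4 ∧ th 4 = 3 * Real.pi / 2 :=
  ⟨rfl, rfl, rfl, rfl, rfl⟩

theorem gap_vals : gap5 0 = Real.pi / 2 ∧ gap5 1 = Real.pi / 2 ∧ gap5 2 = Real.pi / 4 ∧ gap5 3 = Real.pi / 4 ∧
    gap5 4 = Real.pi / 2 := ⟨rfl, rfl, rfl, rfl, rfl⟩

theorem ccw_be (j k : Fin 5) : ccw (be j) (be (j + 1)) ≤ ccw (be j) (be k) := by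
  rw [ccw_val, ccw_val]
  have hp := Real.pi_pos
  obtain ⟨t0, t1, t2, t3, t4⟩ := th_vals
  obtain ⟨g0, g1, g2, g3, g4⟩ := gap_vals
  have a : (if 0 < th (j + 1) - th j then th (j + 1) - th j else th (j + 1) - th j + 2 * Real.pi) ≤ gap5 j := by
    apply val_le
    · intro h
      rcases fin5_cases j with rfl | rfl | rfl | rfl | rfl
      · rw [show (0 : Fin 5) + 1 = 1 from rfl, t0, t1] at *; rw [g0]; linarith
      · rw [show (1 : Fin 5) + 1 = 2 from rfl, t1, t2] at *; rw [g1]; linarith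
      · rw [show (2 : Fin 5) + 1 = 3 from rfl, t2, t3] at *; rw [g2]; linarith
      · rw [show (3 : Fin 5) + 1 = 4 from rfl, t3, t4] at *; rw [g3]; linarith
      · rw [show (4 : Fin 5) + 1 = 0 from rfl, t4, t0] at *; rw [g4]; linarith
    · intro h
      rcases fin5_cases j with rfl | rfl | rfl | rfl | rfl
      · rw [show (0 : Fin 5) + 1 = 1 from rfl, t0, t1] at *; rw [g0]; linarith
      · rw [show (1 : Fin 5) + 1 = 2 from rfl, t1, t2] at *; rw [g1]; linarith
      · rw [show (2 : Fin 5) + 1 = 3 from rfl, t2, t3] at *; rw [g2]; linarith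
      · rw [show (3 : Fin 5) + 1 = 4 from rfl, t3, t4] at *; rw [g3]; linarith
      · rw [show (4 : Fin 5) + 1 = 0 from rfl, t4, t0] at *; rw [g4]; linarith
  have b : gap5 j ≤ if 0 < th k - th j then th k - th j else th k - th j + 2 * Real.pi := by
    apply le_val
    · intro h
      rcases fin5_cases j with rfl | rfl | rfl | rfl | rfl <;> rcases fin5_cases k with rfl | rfl | rfl | rfl | rfl <;>
        simp only [t0, t1, t2, t3, t4] at h <;> simp only [t0, t1, t2, t3, t4, g0, g1, g2, g3, g4] <;> linarith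
    · intro h
      rcases fin5_cases j with rfl | rfl | rfl | rfl | rfl <;> rcases fin5_cases k with rfl | rfl | rfl | rfl | rfl <;>
        simp only [t0, t1, t2, t3, t4] at h <;> simp only [t0, t1, t2, t3, t4, g0, g1, g2, g3, g4] <;> linarith
  exact a.trans b

theorem be_inj {A : ℂ} (hA : A ≠ 0) {j k : Fin 5} (h : SameRay ℝ (A * be j) (A * be k)) : j = k := by
  have hL := log8_pos
  obtain ⟨r, r', hr, hr', he⟩ := h.exists_pos (mul_ne_zero hA (be_ne j)) (mul_ne_zero hA (be_ne k))
  have h1 : r • be j = r' • be k := by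
    have h2 : A * (r • be j) = A * (r' • be k) := by
      rw [mul_smul_comm, mul_smul_comm]
      exact he
    exact mul_left_cancel₀ hA h2
  have e1 := congrArg Complex.re h1
  have e2 := congrArg Complex.im h1
  rw [Complex.real_smul, Complex.real_smul, Complex.re_ofReal_mul, Complex.re_ofReal_mul, be_re, be_re] at e1
  rw [Complex.real_smul, Complex.real_smul, Complex.im_ofReal_mul, Complex.im_ofReal_mul, be_im, be_im] at e2
  have hL2 : 0 < Real.log 8 / 2 := by linarith
  have m1 : 0 < r * (Real.log 8 / 2) := mul_pos hr (by linarith)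
  have m2 : 0 < r' * (Real.log 8 / 2) := mul_pos hr' (by linarith)
  have key1 : ∀ j : Fin 5, (![1, 0, -1, -Real.log 8 / 2, 0] : Fin 5 → ℝ) j =
      if j = 0 then 1 else if j = 2 then -1 else if j = 3 then -(Real.log 8 / 2) else 0 := by
    intro j
    rcases fin5_cases j with rfl | rfl | rfl | rfl | rfl
    · rfl
    · rfl
    · rfl
    · change -Real.log 8 / 2 = -(Real.log 8 / 2); ring
    · rfl
  have key2 : ∀ j : Fin 5, (![0, 1, 0, -Real.log 8 / 2, -1] : Fin 5 → ℝ) j =
      if j = 1 then 1 else if j = 4 then -1 else if j = 3 then -(Real.log 8 / 2) else 0 := by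
    intro j
    rcases fin5_cases j with rfl | rfl | rfl | rfl | rfl
    · rfl
    · rfl
    · rfl
    · change -Real.log 8 / 2 = -(Real.log 8 / 2); ring
    · rfl
  rw [key1, key1] at e1
  rw [key2, key2] at e2
  generalize Real.log 8 / 2 = L at *
  rcases fin5_cases j with rfl | rfl | rfl | rfl | rfl <;> rcases fin5_cases k with rfl | rfl | rfl | rfl | rfl <;>
    first
    | rfl
    | (exfalso
       simp at e1 e2
       first
         | linarith
         | (rcases e1 with e1 | e1 <;> linarith)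
         | (rcases e2 with e2 | e2 <;> linarith)
         | (rw [e1] at m1; linarith)
         | nlinarith)

end Pool.Agent.Lib.MP_609849_pr
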