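import Pool.Agent.Lib.MP_609849_pr.F5
import Pool.Agent.Lib.MP_609849_pr.F7

/-! The drawing (assembly of F1-F7). -/

open Set Filter
open scoped Topology

namespace Pool.Agent.Lib.MP_609849_pr

open Classical in
/-- the arc from `x` to `y` -/
noncomputable def arcx (x y : Vtx) (τ : ℝ) : ℂ := if h : ∃ j, y = nbr x j then arcj x h.choose τ else 0

open Classical in
/-- its direction -/
noncomputable def dirx (x y : Vtx) : ℂ := if h : ∃ j, y = nbr x j then dirj x h.choose else 0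

theorem arcx_nbr (x : Vtx) (j : Fin 5) : arcx x (nbr x j) = arcj x j := by
  have h : ∃ k, nbr x j = nbr x k := ⟨j, rfl⟩
  funext τ
  unfold arcx
  rw [dif_pos h, ← nbr_inj x h.choose_spec]

theorem dirx_nbr (x : Vtx) (j : Fin 5) : dirx x (nbr x j) = dirj x j := by
  have h : ∃ k, nbr x j = nbr x k := ⟨j, rfl⟩
  unfold dirx
  rw [dif_pos h, ← nbr_inj x h.choose_spec]

theorem dA_vertex_ne (x : Vtx) : dA (cpy x) (cz (crd x) + pc) ≠ 0 := by
  apply dA_ne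
  apply HV_sub_Qs
  refine Or.inl ⟨(crd x).1, ?_⟩
  simp [cz, pc]

/-- the drawing of the graph -/
noncomputable def drawing : Drawing gr where
  U := Us
  isOpen := isOpen_Us
  pos := fun x => arcj x 0 0
  arc := arcx
  dir := dirx
  cont := by
    rintro x _ ⟨j, rfl⟩
    rw [arcx_nbr]
    exact cont_arcj x j
  arc_zero := by
    rintro x _ ⟨j, rfl⟩
    rw [arcx_nbr, arcj_zero, arcj_zero]
  arc_symm := by
    rintro x _ ⟨j, rfl⟩ t _
    rw [arcx_nbr, ← arcj_symm]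
    have h : arcx (nbr x j) x = arcj (nbr x j) (opp j) := by
      conv_lhs => rw [← nbr_nbr x j]
      rw [nbr_nbr, ← arcx_nbr, nbr_nbr]
    rw [h]
  pos_mem := fun x => arcj_mem x 0 le_rfl zero_le_one
  arc_mem := by
    rintro x _ ⟨j, rfl⟩ t ht
    rw [arcx_nbr]
    exact arcj_mem x j ht.1 ht.2
  pos_inj := fun x y h => pos_inj_aux h
  arc_ne_pos := by
    rintro x _ z ⟨j, rfl⟩ t ht
    rw [arcx_nbr]
    exact arc_ne_pos_aux x j z ht.1 ht.2
  arc_inj := by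
    rintro x _ x' _ ⟨j, rfl⟩ ⟨j', rfl⟩ s hs t ht h
    rw [arcx_nbr, arcx_nbr] at h
    rcases arc_inj_aux hs.1 hs.2 ht.1 ht.2 h with ⟨h1, h2, h3⟩ | ⟨h1, h2, h3⟩
    · left
      subst h1 h2
      exact ⟨rfl, rfl, h3⟩
    · right
      subst h1 h2
      exact ⟨rfl, nbr_nbr x j, h3⟩
  proper := by
    intro K hK hc
    have h := proper_Us K hK hc
    refine (h.image (fun p => (p.1, nbr p.1 p.2))).subset ?_
    rintro ⟨x, y⟩ ⟨⟨j, hj⟩, t, ht, hm⟩
    change y = nbr x j at hj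
    subst hj
    refine ⟨(x, j), ⟨t, ht, ?_⟩, rfl⟩
    change arcx x (nbr x j) t ∈ K at hm
    rwa [arcx_nbr] at hm
  hasDir := by
    rintro x _ ⟨j, rfl⟩
    rw [arcx_nbr, dirx_nbr]
    exact hasDeriv_arcj x j
  dir_ne := by
    rintro x _ ⟨j, rfl⟩
    rw [dirx_nbr]
    exact mul_ne_zero (dA_vertex_ne x) (be_ne j)
  dir_inj := by
    rintro x _ _ ⟨j, rfl⟩ ⟨k, rfl⟩ h
    rw [dirx_nbr, dirx_nbr] at h
    rw [be_inj (dA_vertex_ne x) h]

theorem drawing_induces : drawing.Induces rot := by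
  refine ⟨fun x y h => rot_of_not_adj h, ?_⟩
  rintro x _ ⟨j, rfl⟩
  rw [rot_nbr]
  refine ⟨⟨j + 1, rfl⟩, ?_⟩
  rintro _ ⟨k, rfl⟩
  change ccw (dirx x (nbr x j)) (dirx x (nbr x (j + 1))) ≤ ccw (dirx x (nbr x j)) (dirx x (nbr x k))
  rw [dirx_nbr, dirx_nbr, dirx_nbr]
  unfold dirj
  rw [ccw_mul (dA_vertex_ne x), ccw_mul (dA_vertex_ne x)]
  exact ccw_be j k

end Pool.Agent.Lib.MP_609849_pr
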