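import Pool.Agent.Lib.MP_609849_pr.B2
import Pool.Agent.Lib.MP_609849_pr.F8

/-! The deterministic map as a random map. -/

open MeasureTheory Set
open scoped ENNReal

namespace Pool.Agent.Lib.MP_609849_pr

theorem isPlanarMap_gr : IsPlanarMap gr rot where
  connected := gr_connected
  locFin := by
    intro x
    rw [neighborSet_eq]
    exact Set.finite_range _
  drawing := ⟨drawing, drawing_induces⟩

/-- the deterministic map -/
noncomputable def MM : RandomMap Vtx where
  Ω := Unit
  P := Measure.dirac ()
  G := fun _ => gr
  rot := fun _ => rot
  root := fun _ => rt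
  meas_G := fun _ _ => MeasurableSet.of_discrete
  meas_rot := fun _ _ _ => MeasurableSet.of_discrete
  meas_root := fun _ => MeasurableSet.of_discrete
  planar := fun _ => isPlanarMap_gr

end Pool.Agent.Lib.MP_609849_pr
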