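import Pool.Agent.Lib.MP_609849_pr.G0

/-! Row G1. Reversibility, and the faces.

`face_ten`: for `y = nbr x j` one has `x = nbr y (opp j)`, so `rot y x = nbr y (opp j + 1)`: the face permutation is
`(x, j) ↦ (nbr x j, opp j + 1)`, on labels `0 → 3 → 4 → 2 → 1 → 0`. After 10 steps: a word in `nbr`; by `exists_aut` it is enough to
check it at `x = rt` (5 cases for `j`, `decide`/`simp`).
`reversible_MM`: the integrals over `Unit` are values at `()`; `tsum_step`; both sides are `(∑ j, F ..)/5`, and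
`F ⟨gr, rot, ⊥, rt, nbr rt j⟩ = F ⟨gr, rot, ⊥, nbr rt (opp j), rt⟩` by the class function property for the automorphism `σ` with
`σ rt = nbr rt (opp j)` (`exists_aut`; `σ (nbr rt j) = nbr (nbr rt (opp j)) j = rt` by `nbr_nbr`, `opp_opp`); `Data.map σ` of the data is
computed with `IsAut.adj`, `IsAut.rot` (`comap` of `gr` by `σ.symm` is `gr`); reindex by the involution `opp`. -/

open MeasureTheory Set
open scoped ENNReal

namespace Pool.Agent.Lib.MP_609849_pr

/-- the next dart on the boundary of a face -/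
noncomputable def faceNext (rot : Vtx → Vtx → Vtx) (d : Vtx × Vtx) : Vtx × Vtx := (d.2, rot d.2 d.1)

/-- the face permutation on labelled darts -/
def fg (p : Vtx × Fin 5) : Vtx × Fin 5 := (nbr p.1 p.2, opp p.2 + 1)

theorem faceNext_fg (p : Vtx × Fin 5) :
    faceNext rot (p.1, nbr p.1 p.2) = ((fg p).1, nbr (fg p).1 (fg p).2) := by
  unfold faceNext fg
  have h : rot (nbr p.1 p.2) p.1 = rot (nbr p.1 p.2) (nbr (nbr p.1 p.2) (opp p.2)) := by rw [nbr_nbr]
  simp only [h, rot_nbr]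

theorem fg_ten (p : Vtx × Fin 5) : fg^[10] p = p := by
  obtain ⟨x, j⟩ := p
  obtain ⟨σ, hσ, rfl⟩ := exists_aut x
  have h1 : Function.Semiconj (fun p : Vtx × Fin 5 => (σ p.1, p.2)) fg fg := by
    intro p
    unfold fg
    change (σ (nbr p.1 p.2), opp p.2 + 1) = (nbr (σ p.1) p.2, opp p.2 + 1)
    rw [hσ]
  have h2 := (h1.iterate_right 10) (rt, j)
  have h3 : fg^[10] (rt, j) = (rt, j) := by
    fin_cases j <;> rfl
  rw [h3] at h2
  exact h2.symm

theorem face_ten (x y : Vtx) (h : gr.Adj x y) : (faceNext rot)^[10] (x, y) = (x, y) := by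
  obtain ⟨j, rfl⟩ := h
  have h1 : Function.Semiconj (fun p : Vtx × Fin 5 => (p.1, nbr p.1 p.2)) fg (faceNext rot) := fun p =>
    (faceNext_fg p).symm
  have h2 := (h1.iterate_right 10) (x, j)
  rw [fg_ten] at h2
  exact h2.symm

theorem fg_minimalPeriod (p : Vtx × Fin 5) : Function.minimalPeriod fg p = 10 := by
  obtain ⟨x, j⟩ := p
  obtain ⟨σ, hσ, rfl⟩ := exists_aut x
  have h1 : Function.Semiconj (fun p : Vtx × Fin 5 => (σ p.1, p.2)) fg fg := by
    intro p
    unfold fg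
    change (σ (nbr p.1 p.2), opp p.2 + 1) = (nbr (σ p.1) p.2, opp p.2 + 1)
    rw [hσ]
  have hinj : Function.Injective (fun p : Vtx × Fin 5 => (σ p.1, p.2)) := by
    rintro ⟨a, i⟩ ⟨b, k⟩ h
    simp only [Prod.mk.injEq, EmbeddingLike.apply_eq_iff_eq] at h
    exact Prod.ext h.1 h.2
  have h5 : fg^[5] (rt, j) ≠ (rt, j) := by
    fin_cases j <;> decide
  have h2 : fg^[2] (rt, j) ≠ (rt, j) := by
    fin_cases j <;> decide
  have hd : Function.minimalPeriod fg (σ rt, j) ∣ 10 := Function.IsPeriodicPt.minimalPeriod_dvd (fg_ten _)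
  have key : ∀ k, fg^[k] (rt, j) ≠ (rt, j) → ¬ Function.minimalPeriod fg (σ rt, j) ∣ k := by
    intro k hk hdvd
    apply hk
    have h3 : fg^[k] (σ rt, j) = (σ rt, j) := Function.isPeriodicPt_iff_minimalPeriod_dvd.mpr hdvd
    have h4 := (h1.iterate_right k) (rt, j)
    exact hinj (h4.trans h3)
  have k5 := key 5 h5
  have k2 := key 2 h2
  generalize Function.minimalPeriod fg (σ rt, j) = n at hd k5 k2
  have hn : n ≤ 10 := Nat.le_of_dvd (by norm_num) hd
  interval_cases n <;> first | rfl | (exfalso; revert hd k5 k2; decide)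

theorem face_minimalPeriod (x y : Vtx) (h : gr.Adj x y) : Function.minimalPeriod (faceNext rot) (x, y) = 10 := by
  obtain ⟨j, rfl⟩ := h
  have h1 : Function.Semiconj (fun p : Vtx × Fin 5 => (p.1, nbr p.1 p.2)) fg (faceNext rot) := fun p =>
    (faceNext_fg p).symm
  have hinj : Function.Injective (fun p : Vtx × Fin 5 => (p.1, nbr p.1 p.2)) := by
    rintro ⟨a, i⟩ ⟨b, k⟩ h
    simp only [Prod.mk.injEq] at h
    obtain ⟨rfl, h⟩ := h
    rw [nbr_inj a h]
  rw [← fg_minimalPeriod (x, j)]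
  apply Nat.dvd_antisymm
  · rw [← Function.isPeriodicPt_iff_minimalPeriod_dvd]
    have h2 := (h1.iterate_right (Function.minimalPeriod fg (x, j))) (x, j)
    exact h2.symm.trans (by rw [Function.iterate_minimalPeriod])
  · rw [← Function.isPeriodicPt_iff_minimalPeriod_dvd]
    have h2 := (h1.iterate_right (Function.minimalPeriod (faceNext rot) (x, nbr x j))) (x, j)
    refine hinj (h2.trans ?_)
    exact Function.iterate_minimalPeriod

theorem data_map {σ : Vtx ≃ Vtx} (hσ : IsAut σ) (x y : Vtx) :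
    Data.map σ ⟨gr, rot, ⊥, x, y⟩ = ⟨gr, rot, ⊥, σ x, σ y⟩ := by
  unfold Data.map
  congr 1
  · ext a b
    exact hσ.symm.adj a b
  · funext a b
    rw [← hσ.rot, Equiv.apply_symm_apply, Equiv.apply_symm_apply]

theorem sum_nbr_eq (F : Data Vtx → ℝ≥0∞) (hF : IsClassFun F) :
    ∑ j, F ⟨gr, rot, ⊥, rt, nbr rt j⟩ = ∑ j, F ⟨gr, rot, ⊥, nbr rt j, rt⟩ := by
  have h1 : ∀ j, F ⟨gr, rot, ⊥, rt, nbr rt j⟩ = F ⟨gr, rot, ⊥, nbr rt (opp j), rt⟩ := by
    intro j
    obtain ⟨σ, hσ, hs⟩ := exists_aut (nbr rt (opp j))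
    have h2 := hF.2 σ ⟨gr, rot, ⊥, rt, nbr rt j⟩
    rw [data_map hσ, hσ, hs] at h2
    have h3 : nbr (nbr rt (opp j)) j = rt := by
      have := nbr_nbr rt (opp j)
      rwa [opp_opp] at this
    rw [h3] at h2
    exact h2.symm
  simp only [h1]
  exact Equiv.sum_comp (⟨opp, opp, opp_opp, opp_opp⟩ : Fin 5 ≃ Fin 5) (fun j => F ⟨gr, rot, ⊥, nbr rt j, rt⟩)

theorem reversible_MM : MM.Reversible where
  le := fun _ => bot_le
  measurable := fun _ _ => MeasurableSet.const _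
  inv := by
    intro F hF
    change ∫⁻ _ω : Unit, ∑' y, step gr rt y * F ⟨gr, rot, ⊥, rt, y⟩ ∂(Measure.dirac ()) =
      ∫⁻ _ω : Unit, ∑' y, step gr rt y * F ⟨gr, rot, ⊥, y, rt⟩ ∂(Measure.dirac ())
    rw [tsum_step rt (fun y => F ⟨gr, rot, ⊥, rt, y⟩), tsum_step rt (fun y => F ⟨gr, rot, ⊥, y, rt⟩),
      sum_nbr_eq F hF]

theorem ergodic_MM : MM.Ergodic := fun F _ _ => ⟨F ⟨gr, rot, ⊥, rt, rt⟩, Filter.Eventually.of_forall fun _ => rfl⟩

end Pool.Agent.Lib.MP_609849_pr
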