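import Pool.Agent.Lib.MP_609849_pr.G0

/-! Row G2. The map is invariantly non-amenable.

`isoF d = 0` if for every finite set `K` of vertices `∑_{x ∈ K} ∑' y [x ∼ y] ≤ 40 ∑_{x ∈ K} ∑' y [x ∼ y, y ∉ K]`, and `= 1` otherwise.
* `isClassFun_isoF`: measurable: the set of `d` with this property is a countable intersection (`Finset V` is countable) of sets
  `{f ≤ g}`, `f`, `g` finite sums of countable sums of indicators of generating events. Class function: `K ↦ K.map σ` and
  `tsum` over `y` reindexed by `σ` (`Equiv.tsum_eq`).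
* `isoF_gr`: `∑' y [x ∼ y] = 5`; the right side is `40 * #{(x, j) : x ∈ K, nbr x j ∉ K} ≥ 40 * (5 #K - (39/8) #K) = 5 #K` by `schur`.
* `iso_ae`: same law: `∫⁻ isoF = 0` so `isoF = 0` a.s. (`lintegral_eq_zero_iff`; the map `ω ↦ ⟨G ω, rot ω, ⊥, root ω, root ω⟩` is measurable:
  `measurable_generateFrom`).
* `ratio_ge`: `G` locally finite and connected on an infinite `V`, `K` finite and nonempty: `vol G K = ∑_{x ∈ K} deg x` (`finsum_mem_eq..`),
  `(deg x : ℝ≥0∞) = ∑' y [x ∼ y]`, `(bdry G K : ℝ≥0∞) = ∑_{x ∈ K} ∑' y [x ∼ y, y ∉ K]`, `vol ≠ 0` (every vertex has a neighbour), so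
  `bdry/vol ≥ 1/40`.
* `not_invAmenable`: with `ε = 1/40` the percolation has a.s. finite clusters, the cluster of the root contains the root, so the integral is
  `≥ 1/40`. -/

open MeasureTheory Set
open scoped ENNReal

namespace Pool.Agent.Lib.MP_609849_pr

open Classical in
/-- indicator of a statement -/
noncomputable def ind (p : Prop) : ℝ≥0∞ := if p then 1 else 0

theorem ind_pos {p : Prop} (h : p) : ind p = 1 := if_pos h

theorem ind_neg {p : Prop} (h : ¬ p) : ind p = 0 := if_neg h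

theorem ind_congr {p q : Prop} (h : p ↔ q) : ind p = ind q := by
  rw [propext h]

/-- isoperimetric inequality with the constant `1/40` -/
def Iso {V : Type} (G : SimpleGraph V) : Prop := ∀ K : Finset V,
  ∑ x ∈ K, ∑' y, ind (G.Adj x y) ≤ 40 * ∑ x ∈ K, ∑' y, ind (G.Adj x y ∧ y ∉ K)

noncomputable def isoF {V : Type} (d : Data V) : ℝ≥0∞ := ind (¬ Iso d.G)

theorem measurableSet_adj {V : Type} (x y : V) : MeasurableSet {d : Data V | d.G.Adj x y} :=
  MeasurableSpace.measurableSet_generateFrom (Or.inl ⟨x, y, rfl⟩)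

theorem measurable_ind {X : Type} [MeasurableSpace X] {p : X → Prop} (h : MeasurableSet {x | p x}) :
    Measurable (fun x => ind (p x)) := by
  classical
  exact Measurable.ite h measurable_const measurable_const

theorem measurableSet_iso {V : Type} [Countable V] : MeasurableSet {d : Data V | Iso d.G} := by
  have h : {d : Data V | Iso d.G} = ⋂ K : Finset V,
      {d : Data V | ∑ x ∈ K, ∑' y, ind (d.G.Adj x y) ≤ 40 * ∑ x ∈ K, ∑' y, ind (d.G.Adj x y ∧ y ∉ K)} := by
    ext d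
    rw [mem_iInter]
    rfl
  rw [h]
  refine MeasurableSet.iInter fun K => measurableSet_le ?_ ?_
  · refine Finset.measurable_sum _ fun x _ => Measurable.tsum fun y => ?_
    exact measurable_ind (measurableSet_adj x y)
  · refine Measurable.const_mul ?_ _
    refine Finset.measurable_sum _ fun x _ => Measurable.tsum fun y => ?_
    exact measurable_ind ((measurableSet_adj x y).inter (MeasurableSet.const _))

theorem Iso.comap {V : Type} {G : SimpleGraph V} (h : Iso G) (σ : V ≃ V) : Iso (G.comap σ) := by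
  intro K
  have h1 := h (K.map σ.toEmbedding)
  rw [Finset.sum_map, Finset.sum_map] at h1
  have e1 : ∀ x, ∑' y, ind ((G.comap σ).Adj x y) = ∑' y, ind (G.Adj (σ.toEmbedding x) y) := by
    intro x
    exact Equiv.tsum_eq σ (fun y => ind (G.Adj (σ x) y))
  have e2 : ∀ x, ∑' y, ind ((G.comap σ).Adj x y ∧ y ∉ K) =
      ∑' y, ind (G.Adj (σ.toEmbedding x) y ∧ y ∉ K.map σ.toEmbedding) := by
    intro x
    rw [← Equiv.tsum_eq σ (fun y => ind (G.Adj (σ.toEmbedding x) y ∧ y ∉ K.map σ.toEmbedding))]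
    refine tsum_congr fun y => ind_congr ?_
    have : σ y ∈ K.map σ.toEmbedding ↔ y ∈ K := by
      rw [Finset.mem_map_equiv, Equiv.symm_apply_apply]
    rw [this]
    rfl
  simp only [e1, e2]
  exact h1

theorem isClassFun_isoF {V : Type} [Countable V] : IsClassFun (isoF (V := V)) := by
  refine ⟨measurable_ind measurableSet_iso.compl, fun σ d => ind_congr (not_congr ?_)⟩
  constructor
  · intro h
    have h1 := h.comap σ
    have h2 : ((d.map σ).G).comap σ = d.G := by
      ext a b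
      change d.G.Adj (σ.symm (σ a)) (σ.symm (σ b)) ↔ _
      rw [Equiv.symm_apply_apply, Equiv.symm_apply_apply]
    rwa [h2] at h1
  · intro h
    exact h.comap σ.symm

theorem tsum_adj (x : Vtx) (p : Vtx → Prop) : ∑' y, ind (gr.Adj x y ∧ p y) = ∑ j, ind (p (nbr x j)) := by
  have h1 : ∑' y, ind (gr.Adj x y ∧ p y) = ∑' j, ind (gr.Adj x (nbr x j) ∧ p (nbr x j)) := by
    refine ((nbr_inj x).tsum_eq ?_).symm
    intro z hz
    by_contra hn
    apply hz
    apply ind_neg
    rintro ⟨⟨j, rfl⟩, _⟩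
    exact hn ⟨j, rfl⟩
  rw [h1, tsum_fintype]
  refine Finset.sum_congr rfl fun j _ => ind_congr ?_
  exact and_iff_right (adj_nbr x j)

theorem iso_gr : Iso gr := by
  classical
  intro K
  have e1 : ∀ x, ∑' y, ind (gr.Adj x y) = ∑ _j : Fin 5, (1 : ℝ≥0∞) := by
    intro x
    have := tsum_adj x (fun _ => True)
    simp only [and_true, ind_pos trivial] at this
    exact this
  have e2 : ∀ x, ∑' y, ind (gr.Adj x y ∧ y ∉ K) = ∑ j : Fin 5, ind (nbr x j ∉ K) := fun x =>
    tsum_adj x (fun y => y ∉ K)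
  simp only [e1, e2]
  have f1 : ∑ x ∈ K, ∑ _j : Fin 5, (1 : ℝ≥0∞) = ((5 * K.card : ℕ) : ℝ≥0∞) := by
    simp [mul_comm]
  have f2 : ∑ x ∈ K, ∑ j : Fin 5, ind (nbr x j ∉ K) =
      ((((K ×ˢ (Finset.univ : Finset (Fin 5))).filter (fun p => nbr p.1 p.2 ∉ K)).card : ℕ) : ℝ≥0∞) := by
    rw [← Finset.sum_product' (s := K) (t := (Finset.univ : Finset (Fin 5))) (f := fun x j => ind (nbr x j ∉ K)),
      Finset.card_filter]
    push_cast
    refine Finset.sum_congr rfl fun p _ => ?_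
    by_cases h : nbr p.1 p.2 ∉ K
    · rw [if_pos h, ind_pos h]
    · rw [if_neg h, ind_neg h]
  rw [f1, f2]
  have hcard : ((K ×ˢ (Finset.univ : Finset (Fin 5))).filter (fun p => nbr p.1 p.2 ∈ K)).card +
      ((K ×ˢ (Finset.univ : Finset (Fin 5))).filter (fun p => nbr p.1 p.2 ∉ K)).card = K.card * 5 := by
    rw [Finset.card_filter_add_card_filter_not, Finset.card_product]
    rfl
  have hs := schur K
  have hs' : 8 * ((K ×ˢ (Finset.univ : Finset (Fin 5))).filter (fun p => nbr p.1 p.2 ∈ K)).card ≤ 39 * K.card := by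
    have : (8 : ℝ) * ((K ×ˢ (Finset.univ : Finset (Fin 5))).filter (fun p => nbr p.1 p.2 ∈ K)).card ≤ 39 * K.card := by
      linarith
    exact_mod_cast this
  have : 5 * K.card ≤ 40 * ((K ×ˢ (Finset.univ : Finset (Fin 5))).filter (fun p => nbr p.1 p.2 ∉ K)).card := by
    omega
  calc ((5 * K.card : ℕ) : ℝ≥0∞) ≤
        ((40 * ((K ×ˢ (Finset.univ : Finset (Fin 5))).filter (fun p => nbr p.1 p.2 ∉ K)).card : ℕ) : ℝ≥0∞) := by
        exact_mod_cast this
    _ = _ := by push_cast; rfl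

theorem iso_ae {V : Type} [Countable V] (M M' : RandomMap V) (h : M.SameLaw M') (hM : ∀ ω, Iso (M.G ω)) :
    ∀ᵐ ω ∂M'.P, Iso (M'.G ω) := by
  have h1 := h isoF isClassFun_isoF
  have h2 : ∀ ω, isoF (⟨M.G ω, M.rot ω, ⊥, M.root ω, M.root ω⟩ : Data V) = 0 := by
    intro ω
    exact ind_neg (not_not.2 (hM ω))
  simp only [h2, lintegral_zero] at h1
  have hmeas : Measurable (fun ω => (⟨M'.G ω, M'.rot ω, ⊥, M'.root ω, M'.root ω⟩ : Data V)) := by
    apply measurable_generateFrom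
    rintro S (⟨a, b, rfl⟩ | ⟨a, b, c, rfl⟩ | ⟨a, b, rfl⟩ | ⟨a, rfl⟩ | ⟨a, rfl⟩)
    · exact M'.meas_G a b
    · exact M'.meas_rot a b c
    · exact MeasurableSet.const _
    · exact M'.meas_root a
    · exact M'.meas_root a
  have hm2 : Measurable (fun ω => isoF (⟨M'.G ω, M'.rot ω, ⊥, M'.root ω, M'.root ω⟩ : Data V)) :=
    isClassFun_isoF.1.comp hmeas
  have h3 := (lintegral_eq_zero_iff hm2).1 h1.symm
  filter_upwards [h3] with ω hω
  by_contra hn
  have h4 : isoF (⟨M'.G ω, M'.rot ω, ⊥, M'.root ω, M'.root ω⟩ : Data V) = 1 := ind_pos hn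
  rw [h4] at hω
  exact one_ne_zero hω

theorem tsum_ncard {α : Type} (S : Set α) (hS : S.Finite) : ∑' y, ind (y ∈ S) = S.ncard := by
  rw [tsum_eq_sum (s := hS.toFinset)]
  · rw [Finset.sum_congr rfl (fun y hy => ind_pos ((Set.Finite.mem_toFinset hS).1 hy)), Finset.sum_const, nsmul_eq_mul,
      mul_one, ← Set.ncard_eq_toFinset_card S hS]
  · intro y hy
    apply ind_neg
    intro h
    exact hy ((Set.Finite.mem_toFinset hS).2 h)

theorem exists_neighbor {V : Type} [Infinite V] (G : SimpleGraph V) (hG : G.Connected) (x : V) : ∃ y, G.Adj x y := by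
  obtain ⟨y, hy⟩ := exists_ne x
  obtain ⟨p⟩ := hG.preconnected x y
  cases p with
  | nil => exact absurd rfl hy
  | cons h _ => exact ⟨_, h⟩

theorem ratio_ge {V : Type} [Infinite V] (G : SimpleGraph V) (hG : G.Connected) (hf : ∀ x, (G.neighborSet x).Finite)
    (hi : Iso G) (K : Set V) (hK : K.Finite) (hn : K.Nonempty) : (1 / 40 : ℝ≥0∞) ≤ (bdry G K : ℝ≥0∞) / vol G K := by
  have hd : ∀ x, ∑' y, ind (G.Adj x y) = deg G x := by
    intro x
    unfold deg
    rw [← tsum_ncard _ (hf x)]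
    rfl
  have hvol : (vol G K : ℝ≥0∞) = ∑ x ∈ hK.toFinset, ∑' y, ind (G.Adj x y) := by
    unfold vol
    rw [finsum_mem_eq_finite_toFinset_sum _ hK]
    push_cast
    exact Finset.sum_congr rfl fun x _ => (hd x).symm
  have hbd : (bdry G K : ℝ≥0∞) = ∑ x ∈ hK.toFinset, ∑' y, ind (G.Adj x y ∧ y ∉ hK.toFinset) := by
    unfold bdry
    have hfin : {p : V × V | p.1 ∈ K ∧ p.2 ∉ K ∧ G.Adj p.1 p.2}.Finite := by
      refine (hK.biUnion fun x _ => (hf x).image (fun y => (x, y))).subset ?_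
      rintro ⟨x, y⟩ ⟨h1, _, h3⟩
      exact mem_biUnion h1 ⟨y, h3, rfl⟩
    rw [← tsum_ncard _ hfin]
    have e1 : ∑' p : V × V, ind (p ∈ {p : V × V | p.1 ∈ K ∧ p.2 ∉ K ∧ G.Adj p.1 p.2}) =
        ∑' x, ∑' y, ind (x ∈ K ∧ y ∉ K ∧ G.Adj x y) :=
      ENNReal.tsum_prod (f := fun x y => ind (x ∈ K ∧ y ∉ K ∧ G.Adj x y))
    rw [e1, tsum_eq_sum (s := hK.toFinset)]
    · refine Finset.sum_congr rfl fun x hx => tsum_congr fun y => ind_congr ?_
      have hx' : x ∈ K := (Set.Finite.mem_toFinset hK).1 hx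
      rw [Set.Finite.mem_toFinset]
      constructor
      · rintro ⟨_, h2, h3⟩
        exact ⟨h3, h2⟩
      · rintro ⟨h3, h2⟩
        exact ⟨hx', h2, h3⟩
    · intro x hx
      rw [ENNReal.tsum_eq_zero]
      intro y
      apply ind_neg
      rintro ⟨h1, _⟩
      exact hx ((Set.Finite.mem_toFinset hK).2 h1)
  have hle : (vol G K : ℝ≥0∞) ≤ 40 * bdry G K := by
    rw [hvol, hbd]
    exact hi hK.toFinset
  have hv0 : (vol G K : ℝ≥0∞) ≠ 0 := by
    obtain ⟨x, hx⟩ := hn
    obtain ⟨y, hy⟩ := exists_neighbor G hG x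
    rw [hvol]
    intro h0
    rw [Finset.sum_eq_zero_iff] at h0
    have h1 := h0 x ((Set.Finite.mem_toFinset hK).2 hx)
    rw [ENNReal.tsum_eq_zero] at h1
    have h2 := h1 y
    rw [ind_pos hy] at h2
    exact one_ne_zero h2
  rw [ENNReal.le_div_iff_mul_le (Or.inl hv0) (Or.inl (ENNReal.natCast_ne_top _))]
  calc 1 / 40 * (vol G K : ℝ≥0∞) ≤ 1 / 40 * (40 * bdry G K) := by gcongr
    _ = bdry G K := by
      rw [← mul_assoc, one_div, ENNReal.inv_mul_cancel (by norm_num) (by norm_num), one_mul]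

theorem not_invAmenable_MM : ¬ MM.InvAmenable := by
  intro h
  obtain ⟨M', hlaw, H, _, hfin, hlt⟩ := h (1 / 40) (by norm_num)
  have h1 := iso_ae MM M' hlaw (fun _ => iso_gr)
  have h2 : ∀ᵐ ω ∂M'.P, (1 / 40 : ℝ≥0∞) ≤
      (bdry (M'.G ω) (cluster (H ω) (M'.root ω)) : ℝ≥0∞) / vol (M'.G ω) (cluster (H ω) (M'.root ω)) := by
    filter_upwards [h1, hfin] with ω a b
    exact ratio_ge (M'.G ω) (M'.planar ω).connected (M'.planar ω).locFin a _ (b _) ⟨M'.root ω, SimpleGraph.Reachable.refl _⟩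
  have h3 := lintegral_mono_ae h2
  rw [lintegral_const, measure_univ, mul_one] at h3
  exact absurd hlt (not_lt.2 h3)

end Pool.Agent.Lib.MP_609849_pr
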