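import Pool.Agent.Lib.MP_609849_pr.G1
import Pool.Agent.Lib.MP_609849_pr.G2
import Pool.Agent.Lib.MP_609849_pr.C8
import Pool.Agent.Lib.MP_609849_pr.D3
import Pool.Agent.Lib.MP_609849_pr.E1

/-! Assembly. -/

open MeasureTheory Set
open scoped ENNReal

namespace Pool.Agent.Lib.MP_609849_pr

theorem Fv_infty' (v : Vtx) : ∃ T : ℕ, ∀ t, T ≤ t → ∀ i, Fv t i ≠ v := by
  obtain ⟨T, hT⟩ := Fv_infty {v} (Set.finite_singleton v)
  exact ⟨T, fun t ht i h => hT t ht i (by rw [h]; rfl)⟩

theorem exists_isSmallest_gr : ∃ c : Compactification Vtx, IsSmallest (martinK gr rt) c := by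
  obtain ⟨c, _, _, _, _, h⟩ := exists_concrete (martinK gr rt) exists_bound
  exact ⟨c, h⟩

theorem remainder_not_totallySeparated (c : Compactification Vtx) (hc : IsSmallest (martinK gr rt) c) :
    ¬ TotallySeparatedSpace c.remainder :=
  not_totallySeparated (martinK gr rt) exists_bound c hc Fv (fun t => t) (fun t => 4 * t)
    (fun t => by show t ≤ 4 * t; omega) Fv_infty' slow_K gap_K

theorem totallySeparated_of_inj {X Y : Type} [TopologicalSpace X] [TopologicalSpace Y] [TotallySeparatedSpace Y]
    (f : X → Y) (hf : Continuous f) (hi : Function.Injective f) : TotallySeparatedSpace X := by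
  rw [totallySeparatedSpace_iff_exists_isClopen]
  intro x y hxy
  obtain ⟨U, hU, hx, hy⟩ := exists_isClopen_of_totally_separated (hi.ne hxy)
  exact ⟨f ⁻¹' U, hU.preimage hf, hx, hy⟩

theorem isClosed_remainder (c : Compactification Vtx) : IsClosed c.remainder := by
  unfold Compactification.remainder
  rw [isClosed_compl_iff, ← Set.iUnion_singleton_eq_range]
  exact isOpen_iUnion (isOpen_singleton_i c)

theorem martin_boundary_gr (X : Type) [TopologicalSpace X] (hX : IsMartinBoundary gr rt X) :
    ¬ TotallyDisconnectedSpace X ∧ ¬ Nonempty (X ≃ₜ Ends gr) := by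
  obtain ⟨c, hc, ⟨h⟩⟩ := hX.1 transient_gr
  have hcl := isClosed_remainder c
  have : CompactSpace c.remainder := isCompact_iff_compactSpace.mp hcl.isCompact
  have : CompactSpace X := h.symm.compactSpace
  have : T2Space X := h.symm.t2Space
  have h1 : ¬ TotallySeparatedSpace X := by
    intro hs
    exact remainder_not_totallySeparated c hc (totallySeparated_of_inj h.symm h.symm.continuous h.symm.injective)
  refine ⟨fun h2 => h1 inferInstance, ?_⟩
  rintro ⟨g⟩
  have := ends_totallySeparated gr
  exact h1 (totallySeparated_of_inj g g.continuous g.injective)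

/-- **the conclusion fails for the deterministic map** -/
theorem not_statement : ¬ Statement := by
  intro h
  have h1 := h Vtx MM reversible_MM ergodic_MM
  change ∀ᵐ ω ∂(Measure.dirac ()), _ at h1
  rw [ae_dirac_eq] at h1
  have h2 := h1
  change ∀ (X : Type) [TopologicalSpace X], IsMartinBoundary gr rt X → _ at h2
  obtain ⟨c, hc⟩ := exists_isSmallest_gr
  have h3 : IsMartinBoundary gr rt c.remainder :=
    ⟨fun _ => ⟨c, hc, ⟨Homeomorph.refl _⟩⟩, fun h => absurd transient_gr h⟩
  exact (martin_boundary_gr _ h3).2 ((h2 _ h3).2.2 not_invAmenable_MM infinite_ends)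

end Pool.Agent.Lib.MP_609849_pr
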